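import Pool.Agent.Lib.MP_fa373d_co.Greedy

/-!
The bound for families without two petals.
-/

namespace Pool.Agent.Lib.MP_fa373d_co

open Finset

/-- the bound with exponent loss `c`, for families without `k` petals -/
def Bd (k : ℕ) (c : ℝ) : Prop :=
  ∃ C : ℝ, 0 < C ∧ ∀ (n : ℕ) (F : Finset (Fin n → Bool)), FF k F →
    (F.card : ℝ) ≤ C * ((n : ℝ) + 1) ^ (-c) * 2 ^ ((((k : ℝ) - 1) / k) * n)

lemma bd_of_large {k : ℕ} (hk : 1 ≤ k) {c C : ℝ} (hc : 0 ≤ c) (hC : 0 < C) (n0 : ℕ)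
    (h : ∀ n ≥ n0, ∀ F : Finset (Fin n → Bool), FF k F →
      (F.card : ℝ) ≤ C * ((n : ℝ) + 1) ^ (-c) * 2 ^ ((((k : ℝ) - 1) / k) * n)) : Bd k c := by
  refine ⟨C + 2 ^ n0 * ((n0 : ℝ) + 1) ^ c, by positivity, ?_⟩
  intro n F hF
  have hθ : (0 : ℝ) ≤ (((k : ℝ) - 1) / k) * n := by
    have : (1 : ℝ) ≤ k := by exact_mod_cast hk
    apply mul_nonneg _ (by positivity)
    apply div_nonneg (by linarith) (by linarith)
  have hX : (1 : ℝ) ≤ 2 ^ ((((k : ℝ) - 1) / k) * n) := Real.one_le_rpow (by norm_num) hθ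
  have hp : (0 : ℝ) < ((n : ℝ) + 1) ^ (-c) := by positivity
  rcases Nat.lt_or_ge n n0 with hn | hn
  · have h1 : (F.card : ℝ) ≤ 2 ^ n0 := by
      have h2 : F.card ≤ 2 ^ n := by
        have := Finset.card_le_univ F
        simpa using this
      calc (F.card : ℝ) ≤ ((2 ^ n : ℕ) : ℝ) := by exact_mod_cast h2
        _ = 2 ^ n := by push_cast; rfl
        _ ≤ 2 ^ n0 := pow_le_pow_right₀ (by norm_num) hn.le
    have h3 : (1 : ℝ) ≤ ((n0 : ℝ) + 1) ^ c * ((n : ℝ) + 1) ^ (-c) := by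
      rw [Real.rpow_neg (by positivity), ← div_eq_mul_inv, one_le_div (by positivity)]
      apply Real.rpow_le_rpow (by positivity) _ hc
      have : (n : ℝ) ≤ n0 := by exact_mod_cast hn.le
      linarith
    have h4 : (2 : ℝ) ^ n0 ≤ 2 ^ n0 * ((n0 : ℝ) + 1) ^ c * ((n : ℝ) + 1) ^ (-c) := by
      calc (2 : ℝ) ^ n0 = 2 ^ n0 * 1 := by ring
        _ ≤ 2 ^ n0 * (((n0 : ℝ) + 1) ^ c * ((n : ℝ) + 1) ^ (-c)) :=
          mul_le_mul_of_nonneg_left h3 (by positivity)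
        _ = _ := by ring
    calc (F.card : ℝ) ≤ 2 ^ n0 := h1
      _ ≤ 2 ^ n0 * ((n0 : ℝ) + 1) ^ c * ((n : ℝ) + 1) ^ (-c) := h4
      _ ≤ (C + 2 ^ n0 * ((n0 : ℝ) + 1) ^ c) * ((n : ℝ) + 1) ^ (-c) := by
          apply mul_le_mul_of_nonneg_right _ hp.le
          linarith
      _ = (C + 2 ^ n0 * ((n0 : ℝ) + 1) ^ c) * ((n : ℝ) + 1) ^ (-c) * 1 := by ring
      _ ≤ _ := mul_le_mul_of_nonneg_left hX (by positivity)
  · refine (h n hn F hF).trans ?_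
    apply mul_le_mul_of_nonneg_right _ (by linarith)
    apply mul_le_mul_of_nonneg_right _ hp.le
    have : (0 : ℝ) ≤ 2 ^ n0 * ((n0 : ℝ) + 1) ^ c := by positivity
    linarith

lemma exp_cond1 (N : ℕ) (hN : 256 ≤ N) : (32 * (N : ℝ)) * (4 / 5) ^ N ≤ 3 / 4 := by
  induction N, hN using Nat.le_induction with
  | base => norm_num
  | succ N hN ih =>
    have hN' : (256 : ℝ) ≤ N := by exact_mod_cast hN
    have hp : (0 : ℝ) < (4 / 5) ^ N := by positivity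
    rw [pow_succ]
    push_cast
    nlinarith

lemma exp_cond2 (N : ℕ) (hN : 256 ≤ N) : 8 * (N : ℝ) ≤ (11 / 10) ^ N := by
  induction N, hN using Nat.le_induction with
  | base => norm_num
  | succ N hN ih =>
    have hN' : (256 : ℝ) ≤ N := by exact_mod_cast hN
    rw [pow_succ]
    push_cast
    nlinarith

lemma base_bound (t n : ℕ) (ht : 4 ≤ t) (hn : 64 * 16 ^ t ≤ n) (F : Finset (Fin n → Bool))
    (hF : FF 2 F) : (F.card : ℝ) * 2 ^ t ≤ 17 * 2 ^ ((n + 1) / 2) := by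
  have h4 : 256 ≤ 4 ^ t := by
    calc 256 = 4 ^ 4 := by norm_num
      _ ≤ 4 ^ t := Nat.pow_le_pow_right (by norm_num) ht
  have h16 : 16 ^ t = 4 ^ t * 4 ^ t := by rw [← mul_pow]; norm_num
  have htlt : t < 4 ^ t := Nat.lt_pow_self (by norm_num)
  obtain ⟨L, _, hL⟩ := Finset.exists_subset_card_eq
    (s := (univ : Finset (Fin n))) (n := (n + 1) / 2 + 3 * t + 5) (by
      rw [Finset.card_univ, Fintype.card_fin]
      nlinarith [Nat.div_mul_le_self (n + 1) 2])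
  have hb := base_ineq hF L (4 ^ t) (32 * 4 ^ t) (by omega) (by omega)
    (by rw [hL, mul_pow, sq (4 ^ t), ← h16]; omega)
    (by rw [hL]; nlinarith [Nat.div_add_mod (n + 1) 2, Nat.mod_lt (n + 1) (by norm_num : 2 > 0)])
    (by
      have := exp_cond1 (4 ^ t) h4
      push_cast at this ⊢
      exact this)
    (by
      have := exp_cond2 (4 ^ t) h4
      push_cast at this ⊢
      linarith)
  rw [hL, Fintype.card_fin] at hb
  have hnl : n - ((n + 1) / 2 + 3 * t + 5) + (3 * t + 5) = n / 2 := by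
    have : 3 * t + 5 ≤ n / 2 := by
      have : 2 * (3 * t + 5) ≤ n := by nlinarith
      omega
    omega
  set A : ℝ := 2 ^ (n - ((n + 1) / 2 + 3 * t + 5)) with hA
  have hApos : 0 < A := by positivity
  have e1 : A * (32 * 8 ^ t) = 2 ^ (n / 2) := by
    rw [hA, ← hnl, pow_add _ _ (3 * t + 5), pow_add _ (3 * t) 5, pow_mul]
    norm_num
    ring
  have e2 : (2 : ℝ) ^ n = 2 ^ (n / 2) * 2 ^ ((n + 1) / 2) := by
    rw [← pow_add]
    congr 1
    omega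
  rw [e2, ← e1] at hb
  push_cast at hb
  set B : ℝ := 2 ^ ((n + 1) / 2) with hB
  have h8 : (8 : ℝ) ^ t = 4 ^ t * 2 ^ t := by rw [← mul_pow]; norm_num
  have hTpos : (0 : ℝ) < 2 ^ t := by positivity
  have hQpos : (0 : ℝ) < 4 ^ t := by positivity
  have hQT : (4 : ℝ) ^ t = 2 ^ t * 2 ^ t := by rw [← mul_pow]; norm_num
  -- cancel
  have h3 : ((F.card : ℝ) - 32 * 4 ^ t * A) * 2 ^ t ≤ 16 * B := by
    have : (A * 4 ^ t * 2 ^ t * 8) * (((F.card : ℝ) - 32 * 4 ^ t * A) * 2 ^ t)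
        ≤ (A * 4 ^ t * 2 ^ t * 8) * (16 * B) := by
      rw [h8] at hb
      have e3 : (A * 4 ^ t * 2 ^ t * 8) * (((F.card : ℝ) - 32 * 4 ^ t * A) * 2 ^ t)
          = 4 ^ t * (A * (32 * 4 ^ t / 4) * ((F.card : ℝ) - 32 * 4 ^ t * A)) := by
        have : (2 : ℝ) ^ t * 2 ^ t = 4 ^ t := hQT.symm
        linear_combination (A * 4 ^ t * 8 * ((F.card : ℝ) - 32 * 4 ^ t * A)) * this
      rw [e3]
      linarith
    exact le_of_mul_le_mul_left this (by positivity)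
  have h5 : 32 * 4 ^ t * A * 2 ^ t ≤ B := by
    have : 32 * 4 ^ t * A * 2 ^ t = 2 ^ (n / 2) := by rw [← e1, h8]; ring
    rw [this, hB]
    exact pow_le_pow_right₀ (by norm_num) (by omega)
  linarith

/-- the base case -/
theorem bd_two : Bd 2 (1 / 4) := by
  apply bd_of_large (C := 204) (by norm_num) (by norm_num) (by norm_num) (64 * 16 ^ 4)
  intro n hn F hF
  set t := Nat.log 16 (n / 64) with ht
  have hn64 : 16 ^ 4 ≤ n / 64 := by omega
  have h1 : 16 ^ t ≤ n / 64 := Nat.pow_log_le_self 16 (by omega)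
  have h2 : n / 64 < 16 ^ (t + 1) := Nat.lt_pow_succ_log_self (by norm_num) _
  have ht4 : 4 ≤ t := by
    rw [ht]
    exact Nat.le_log_of_pow_le (by norm_num) hn64
  have hb := base_bound t n ht4 (by omega) F hF
  have hTpos : (0 : ℝ) < 2 ^ t := by positivity
  -- comparison of 2^t with (n+1)^(1/4)
  have h3 : ((n : ℝ) + 1) ^ (1 / 4 : ℝ) ≤ 6 * 2 ^ t := by
    have h4 : ((n : ℝ) + 1) ≤ (6 * 2 ^ t) ^ (4 : ℕ) := by
      have : n + 1 ≤ 64 * 16 ^ (t + 1) := by omega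
      have h5 : ((n + 1 : ℕ) : ℝ) ≤ ((64 * 16 ^ (t + 1) : ℕ) : ℝ) := by exact_mod_cast this
      push_cast at h5
      have h6 : ((2 : ℝ) ^ t) ^ 4 = 16 ^ t := by
        rw [← pow_mul, mul_comm, pow_mul]; norm_num
      rw [mul_pow, h6]
      rw [pow_succ] at h5
      have : (0 : ℝ) < 16 ^ t := by positivity
      linarith
    calc ((n : ℝ) + 1) ^ (1 / 4 : ℝ) ≤ ((6 * 2 ^ t) ^ (4 : ℕ)) ^ (1 / 4 : ℝ) :=
          Real.rpow_le_rpow (by positivity) h4 (by norm_num)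
      _ = 6 * 2 ^ t := by
          rw [← Real.rpow_natCast, ← Real.rpow_mul (by positivity)]
          norm_num
  have h7 : (1 : ℝ) ≤ ((n : ℝ) + 1) ^ (-(1 / 4 : ℝ)) * (6 * 2 ^ t) := by
    rw [Real.rpow_neg (by positivity), inv_mul_eq_div, one_le_div (by positivity)]
    exact h3
  have h8 : (2 : ℝ) ^ ((n + 1) / 2) ≤ 2 * 2 ^ (((((2 : ℕ) : ℝ) - 1) / ((2 : ℕ) : ℝ)) * n) := by
    have e : (2 : ℝ) * 2 ^ (((((2 : ℕ) : ℝ) - 1) / ((2 : ℕ) : ℝ)) * n)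
        = 2 ^ (1 + ((((2 : ℕ) : ℝ) - 1) / ((2 : ℕ) : ℝ)) * n) := by
      rw [Real.rpow_add (by norm_num), Real.rpow_one]
    rw [e, ← Real.rpow_natCast]
    apply Real.rpow_le_rpow_of_exponent_le (by norm_num)
    have h9 : (((n + 1) / 2 : ℕ) : ℝ) ≤ ((n + 1 : ℕ) : ℝ) / ((2 : ℕ) : ℝ) := Nat.cast_div_le
    push_cast at h9 ⊢
    linarith
  set X : ℝ := 2 ^ (((((2 : ℕ) : ℝ) - 1) / ((2 : ℕ) : ℝ)) * n) with hX
  have hXpos : 0 < X := by positivity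
  have hFc : (F.card : ℝ) * 2 ^ t ≤ (204 * ((n : ℝ) + 1) ^ (-(1 / 4 : ℝ)) * X) * 2 ^ t := by
    calc (F.card : ℝ) * 2 ^ t ≤ 17 * 2 ^ ((n + 1) / 2) := hb
      _ ≤ 17 * (2 * X) := by linarith
      _ = 34 * X * 1 := by ring
      _ ≤ 34 * X * (((n : ℝ) + 1) ^ (-(1 / 4 : ℝ)) * (6 * 2 ^ t)) :=
          mul_le_mul_of_nonneg_left h7 (by positivity)
      _ = _ := by ring
  exact le_of_mul_le_mul_right hFc hTpos

end Pool.Agent.Lib.MP_fa373d_co
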