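import Mathlib

/-!
Definitions of MP_fa373d_co: focal families, focal-free sets of binary vectors, and the largest
cardinality of a focal-free set.
-/

namespace Pool.Agent.Lib.MP_fa373d_co

/-- `r` distinct vectors `x 0, ..., x (r - 1)` of `{0,1}^n` form a focal family of size `r` with
focus `x a`: in each coordinate `i` the number of indices `j ≠ a` with `x j i = x a i` is at least
`r - 2`. -/
def IsFocal (r n : ℕ) (x : Fin r → Fin n → Bool) (a : Fin r) : Prop :=
  Function.Injective x ∧
    ∀ i : Fin n, r - 2 ≤ (Finset.univ.filter (fun j : Fin r => j ≠ a ∧ x j i = x a i)).card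

/-- no `r` members of `F` form a focal family (with any of them as focus) -/
def FocalFree (r n : ℕ) (F : Finset (Fin n → Bool)) : Prop :=
  ∀ x : Fin r → Fin n → Bool, (∀ j, x j ∈ F) → ∀ a : Fin r, ¬ IsFocal r n x a

/-- the largest cardinality of a focal-free subset of `{0,1}^n` -/
noncomputable def gff (r n : ℕ) : ℕ :=
  sSup {k : ℕ | ∃ F : Finset (Fin n → Bool), FocalFree r n F ∧ F.card = k}

end Pool.Agent.Lib.MP_fa373d_co
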