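import Pool.Agent.Lib.MP_fa373d_co.Step

/-!
Exponential gain for three petals, combinatorial part: members with a close neighbour are
unique off many sets.
-/

namespace Pool.Agent.Lib.MP_fa373d_co.Exp

open Finset

variable {ι : Type*} [Fintype ι] [DecidableEq ι]

/-- the set of coordinates where `x` and `z` differ -/
def ds (x z : ι → Bool) : Finset ι := univ.filter (fun i => x i ≠ z i)

omit [DecidableEq ι] in
lemma mem_ds {x z : ι → Bool} {i : ι} : i ∈ ds x z ↔ x i ≠ z i := by simp [ds]

/-- `x` with the coordinates in `A` flipped -/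
def fl (x : ι → Bool) (A : Finset ι) : ι → Bool := fun i => if i ∈ A then !(x i) else x i

lemma ds_fl (x : ι → Bool) (A : Finset ι) : ds x (fl x A) = A := by
  ext i
  rw [mem_ds]
  unfold fl
  by_cases h : i ∈ A <;> simp [h]

lemma fl_ds (x z : ι → Bool) : fl x (ds x z) = z := by
  funext i
  unfold fl
  by_cases h : x i = z i
  · have : i ∉ ds x z := by rw [mem_ds]; simpa using h
    simp [this, h]
  · have h' : i ∈ ds x z := by rw [mem_ds]; exact h
    simp only [h', if_true]
    cases hx : x i <;> cases hz : z i <;> simp_all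

/-- `x` is the only member of `F` that agrees with `x` outside `S` -/
def Uq (F : Finset (ι → Bool)) (S : Finset ι) (x : ι → Bool) : Prop :=
  ∀ y ∈ F, (∀ i ∉ S, y i = x i) → y = x

/-- if `x` has a neighbour that differs from it only inside `V`, then it is unique off one of two
disjoint sets that avoid `V` -/
lemma uq_or {F : Finset (ι → Bool)} (hF : FF 3 F) {x y : ι → Bool} (hx : x ∈ F) (hy : y ∈ F)
    (hyx : y ≠ x) {V S S' : Finset ι} (hV : ∀ i ∉ V, y i = x i) (h1 : Disjoint V S)
    (h2 : Disjoint V S') (h3 : Disjoint S S') : Uq F S x ∨ Uq F S' x := by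
  by_contra hcon
  rw [not_or] at hcon
  obtain ⟨hS, hS'⟩ := hcon
  unfold Uq at hS hS'
  push Not at hS hS'
  obtain ⟨u, hu, huS, hux⟩ := hS
  obtain ⟨v, hv, hvS, hvx⟩ := hS'
  have hd1 : ∀ i, y i = x i ∨ u i = x i := by
    intro i
    by_cases h : i ∈ V
    · exact Or.inr (huS i (fun h' => (Finset.disjoint_left.mp h1) h h'))
    · exact Or.inl (hV i h)
  have hd2 : ∀ i, y i = x i ∨ v i = x i := by
    intro i
    by_cases h : i ∈ V
    · exact Or.inr (hvS i (fun h' => (Finset.disjoint_left.mp h2) h h'))
    · exact Or.inl (hV i h)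
  have hd3 : ∀ i, u i = x i ∨ v i = x i := by
    intro i
    by_cases h : i ∈ S
    · exact Or.inr (hvS i (fun h' => (Finset.disjoint_left.mp h3) h h'))
    · exact Or.inl (huS i h)
  have hne : ∀ a b : ι → Bool, a ≠ x → (∀ i, a i = x i ∨ b i = x i) → a ≠ b := by
    intro a b ha hab heq
    apply ha
    funext i
    rcases hab i with h | h
    · exact h
    · rw [heq]; exact h
  have hyu : y ≠ u := hne y u hyx hd1
  have hyv : y ≠ v := hne y v hyx hd2
  have huv : u ≠ v := hne u v hux hd3
  apply hF x hx {y, u, v}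
  · intro a ha
    simp only [mem_insert, mem_singleton] at ha
    rcases ha with rfl | rfl | rfl <;> assumption
  · simp only [mem_insert, mem_singleton, not_or]
    exact ⟨fun h => hyx h.symm, fun h => hux h.symm, fun h => hvx h.symm⟩
  · rw [Finset.card_eq_three]
    exact ⟨y, u, v, hyu, hyv, huv, rfl⟩
  · intro a ha b hb hab i
    simp only [mem_insert, mem_singleton] at ha hb
    rcases ha with rfl | rfl | rfl <;> rcases hb with rfl | rfl | rfl
    · exact absurd rfl hab
    · exact hd1 i
    · exact hd2 i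
    · exact (hd1 i).symm
    · exact absurd rfl hab
    · exact hd3 i
    · exact (hd2 i).symm
    · exact (hd3 i).symm
    · exact absurd rfl hab

open Classical in
lemma card_uq_le (F : Finset (ι → Bool)) (S : Finset ι) :
    (F.filter (fun x => Uq F S x)).card ≤ 2 ^ (Fintype.card ι - S.card) := by
  have h : (univ : Finset ({i // i ∉ S} → Bool)).card = 2 ^ (Fintype.card ι - S.card) := by
    rw [Finset.card_univ, Fintype.card_fun, Fintype.card_bool]
    congr 1
    rw [Fintype.card_subtype_compl]
    simp
  rw [← h]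
  apply Finset.card_le_card_of_injOn (fun (x : ι → Bool) (i : {i // i ∉ S}) => x i.1)
  · intro x _; simp
  · intro x hx y hy hxy
    simp only [coe_filter, Set.mem_ofPred_eq] at hx hy
    exact hy.2 x hx.1 (fun i hi => congrFun hxy ⟨i, hi⟩)

/-! ### the Plotkin type count in a sphere -/

open Classical in
lemma sph_plotkin {G : Finset (ι → Bool)} {z : ι → Bool} {e u : ℕ}
    (hG : ∀ x ∈ G, (ds x z).card = e)
    (hfar : ∀ x ∈ G, ∀ y ∈ G, x ≠ y → u ≤ (ds y z \ ds x z).card) :
    Fintype.card ι * (G.card * (G.card - 1) * u) ≤ G.card ^ 2 * (e * (Fintype.card ι - e)) := by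
  set n := Fintype.card ι with hn
  set K := G.card with hK
  -- sum of all |A_y \ A_x|
  set T := ∑ x ∈ G, ∑ y ∈ G, (ds y z \ ds x z).card with hT
  have h1 : K * (K - 1) * u ≤ T := by
    rw [hT]
    have : ∀ x ∈ G, (K - 1) * u ≤ ∑ y ∈ G, (ds y z \ ds x z).card := by
      intro x hx
      rw [← Finset.add_sum_erase G _ hx]
      have : ∑ y ∈ G.erase x, u ≤ ∑ y ∈ G.erase x, (ds y z \ ds x z).card := by
        apply Finset.sum_le_sum
        intro y hy
        rw [mem_erase] at hy
        exact hfar x hx y hy.2 (fun h => hy.1 h.symm)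
      rw [Finset.sum_const, card_erase_of_mem hx, smul_eq_mul, ← hK] at this
      omega
    have h2 := Finset.sum_le_sum this
    rw [Finset.sum_const, smul_eq_mul] at h2
    calc K * (K - 1) * u = K * ((K - 1) * u) := by ring
      _ ≤ _ := h2
  -- coordinates
  set c : ι → ℕ := fun i => (G.filter (fun x => i ∈ ds x z)).card with hc
  have hcK : ∀ i, c i ≤ K := fun i => Finset.card_filter_le _ _
  have hsum : ∑ i, c i = K * e := by
    rw [hc]
    have : ∀ i, (G.filter (fun x => i ∈ ds x z)).card = ∑ x ∈ G, if i ∈ ds x z then 1 else 0 := by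
      intro i; rw [Finset.card_filter]
    simp_rw [this]
    rw [Finset.sum_comm]
    have : ∀ x ∈ G, ∑ i, (if i ∈ ds x z then 1 else 0) = e := by
      intro x hx
      rw [← Finset.card_filter, Finset.filter_mem_eq_inter, Finset.univ_inter]
      exact hG x hx
    rw [Finset.sum_congr rfl this, Finset.sum_const, smul_eq_mul]
  have hTc : T = ∑ i, c i * (K - c i) := by
    rw [hT]
    have e1 : ∀ x y : ι → Bool, (ds y z \ ds x z).card
        = ∑ i, (if i ∈ ds y z then 1 else 0) * (if i ∈ ds x z then 0 else 1) := by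
      intro x y
      rw [Finset.card_eq_sum_ones, ← Finset.sum_subset (Finset.subset_univ (ds y z \ ds x z))]
      · apply Finset.sum_congr rfl
        intro i hi
        rw [mem_sdiff] at hi
        simp [hi.1, hi.2]
      · intro i _ hi
        rw [mem_sdiff, not_and_or, not_not] at hi
        rcases hi with hi | hi <;> simp [hi]
    simp_rw [e1]
    have e2 : ∑ x ∈ G, ∑ y ∈ G, ∑ i, (if i ∈ ds y z then 1 else 0) * (if i ∈ ds x z then 0 else 1)
        = ∑ i, (∑ y ∈ G, (if i ∈ ds y z then 1 else 0)) * (∑ x ∈ G, if i ∈ ds x z then 0 else 1) := by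
      calc ∑ x ∈ G, ∑ y ∈ G, ∑ i, (if i ∈ ds y z then 1 else 0) * (if i ∈ ds x z then 0 else 1)
          = ∑ x ∈ G, ∑ i, ∑ y ∈ G, (if i ∈ ds y z then 1 else 0) * (if i ∈ ds x z then 0 else 1) := by
            apply Finset.sum_congr rfl; intro x _; exact Finset.sum_comm
        _ = ∑ i, ∑ x ∈ G, ∑ y ∈ G, (if i ∈ ds y z then 1 else 0) * (if i ∈ ds x z then 0 else 1) :=
            Finset.sum_comm
        _ = _ := by
            apply Finset.sum_congr rfl; intro i _
            rw [Finset.sum_mul_sum, Finset.sum_comm]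
    rw [e2]
    apply Finset.sum_congr rfl
    intro i _
    have e3 : ∑ y ∈ G, (if i ∈ ds y z then 1 else 0) = c i := by
      rw [← Finset.card_filter]
    have e4 : ∑ x ∈ G, (if i ∈ ds x z then 0 else 1) = K - c i := by
      have : ∑ x ∈ G, (if i ∈ ds x z then 0 else 1) = (G.filter (fun x => ¬ i ∈ ds x z)).card := by
        rw [Finset.card_filter]
        apply Finset.sum_congr rfl
        intro x _
        by_cases h : i ∈ ds x z <;> simp [h]
      rw [this]
      have h5 := Finset.card_filter_add_card_filter_not (s := G) (fun x => i ∈ ds x z)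
      have h6 : c i = (G.filter (fun x => i ∈ ds x z)).card := rfl
      omega
    rw [e3, e4]
  -- Cauchy-Schwarz
  have hcs : (K * e) ^ 2 ≤ n * ∑ i, (c i) ^ 2 := by
    have := sq_sum_le_card_mul_sum_sq (s := (univ : Finset ι)) (f := c)
    rw [hsum, Finset.card_univ] at this
    exact this
  have hen : e ≤ n ∨ K = 0 := by
    rcases Nat.eq_zero_or_pos K with h | h
    · exact Or.inr h
    · obtain ⟨x, hx⟩ := Finset.card_pos.mp h
      left
      rw [← hG x hx]
      exact Finset.card_le_univ _
  have hTsum : T + ∑ i, (c i) ^ 2 = K * (K * e) := by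
    rw [hTc, ← Finset.sum_add_distrib, ← hsum, Finset.mul_sum]
    apply Finset.sum_congr rfl
    intro i _
    have := hcK i
    obtain ⟨d, hd⟩ := Nat.exists_eq_add_of_le this
    rw [hd, Nat.add_sub_cancel_left]
    ring
  rcases hen with hen | hK0
  · obtain ⟨f, hf⟩ := Nat.exists_eq_add_of_le hen
    have h7 : n * T ≤ K ^ 2 * (e * (n - e)) := by
      have h8 : n * T + (K * e) ^ 2 ≤ n * (K * (K * e)) := by
        rw [← hTsum, mul_add]
        exact Nat.add_le_add_left hcs _
      rw [hf, Nat.add_sub_cancel_left]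
      rw [hf] at h8
      nlinarith
    exact (Nat.mul_le_mul_left n h1).trans h7
  · simp [hK0]

end Pool.Agent.Lib.MP_fa373d_co.Exp
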