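import Pool.Agent.Lib.MP_fa373d_co.ExpA

/-!
Exponential gain, block version: `q` blocks with one close neighbour each, and `a` further parts.
-/

namespace Pool.Agent.Lib.MP_fa373d_co.Exp

open Finset

/-- `k` pairwise disjoint sets, each of which contains a difference of `x`, are impossible in a
family without `k` petals -/
lemma petals {ι τ : Type*} [Fintype τ] [DecidableEq τ] [Fintype ι] [DecidableEq ι]
    {k : ℕ} {F : Finset (ι → Bool)} (hF : FF k F) (hk : Fintype.card τ = k)
    {x : ι → Bool} (hx : x ∈ F) (P : τ → ι → Prop)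
    (hP : ∀ s t, s ≠ t → ∀ i, P s i → ¬ P t i)
    (y : τ → ι → Bool) (hy : ∀ t, y t ∈ F) (hne : ∀ t, y t ≠ x)
    (hoff : ∀ t i, ¬ P t i → y t i = x i) : False := by
  have hkey : ∀ s t, s ≠ t → ∀ i, y s i = x i ∨ y t i = x i := by
    intro s t hst i
    by_cases h : P s i
    · exact Or.inr (hoff t i (hP s t hst i h))
    · exact Or.inl (hoff s i h)
  have hinj : Function.Injective y := by
    intro s t h
    by_contra hst
    apply hne s
    funext i
    rcases hkey s t hst i with h1 | h1
    · exact h1
    · rw [h]; exact h1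
  apply hF x hx (univ.image y)
  · intro z hz
    rw [mem_image] at hz
    obtain ⟨t, _, rfl⟩ := hz
    exact hy t
  · rw [mem_image]
    rintro ⟨t, _, h⟩
    exact hne t h
  · rw [Finset.card_image_of_injective _ hinj, Finset.card_univ, hk]
  · intro u hu v hv huv i
    rw [mem_image] at hu hv
    obtain ⟨s, _, rfl⟩ := hu
    obtain ⟨t, _, rfl⟩ := hv
    exact hkey s t (fun h => huv (by rw [h])) i

section count

variable {κ ω : Type*} [Fintype κ] [DecidableEq κ] [Fintype ω] [DecidableEq ω]

/-- among any `a` pairwise disjoint families inside `W` one has the property `Q` -/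
def Pa (a : ℕ) (W : κ → Finset ω) (Q : (κ → Finset ω) → Prop) : Prop :=
  ∀ S : Fin a → κ → Finset ω, (∀ l i, S l i ⊆ W i) →
    (∀ l l', l ≠ l' → ∀ i, Disjoint (S l i) (S l' i)) → ∃ l, Q (S l)

open Classical in
lemma count_part (b : ℕ) (Q : (κ → Finset ω) → Prop) : ∀ (a : ℕ) (W : κ → Finset ω),
    (∀ i, (W i).card = (a + 1) * b) → Pa (a + 1) W Q →
    (((a + 1) * b).choose b) ^ (Fintype.card κ)
      ≤ (a + 1) * ((Fintype.piFinset (fun i => powersetCard b (W i))).filter Q).card := by
  intro a
  induction a with
  | zero =>
    intro W hW hP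
    obtain ⟨l, hl⟩ := hP (fun _ => W) (fun _ _ => subset_rfl)
      (fun l l' h => absurd (Fin.ext (by omega)) h)
    have : W ∈ (Fintype.piFinset (fun i => powersetCard b (W i))).filter Q := by
      rw [mem_filter]
      refine ⟨?_, hl⟩
      rw [Fintype.mem_piFinset]
      intro i
      rw [mem_powersetCard]
      exact ⟨subset_rfl, by rw [hW i]; ring⟩
    have h1 := Finset.card_pos.mpr ⟨W, this⟩
    have h2 : ((0 + 1) * b).choose b = 1 := by simp
    rw [h2, one_pow]
    omega
  | succ a ih =>
    intro W hW hP
    set T := Fintype.piFinset (fun i => powersetCard b (W i)) with hT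
    set U := T.filter Q with hU
    set N := T.filter (fun S => ¬ Q S) with hN
    have hTc : T.card = (((a + 1 + 1) * b).choose b) ^ (Fintype.card κ) := by
      rw [hT, Fintype.card_piFinset]
      simp_rw [card_powersetCard, hW]
      rw [Finset.prod_const, Finset.card_univ]
    have hTUN : U.card + N.card = T.card := Finset.card_filter_add_card_filter_not _
    set c := (((a + 1) * b).choose b) ^ (Fintype.card κ) with hc
    have hcpos : 0 < c := by
      rw [hc]
      apply Nat.pow_pos
      apply Nat.choose_pos
      nlinarith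
    -- the complement of a member of `T`
    have hcompl : ∀ S1 ∈ T, ∀ i, (W i \ S1 i).card = (a + 1) * b := by
      intro S1 hS1 i
      rw [hT, Fintype.mem_piFinset] at hS1
      have h1 := hS1 i
      rw [mem_powersetCard] at h1
      rw [card_sdiff_of_subset h1.1, hW i, h1.2]
      have : (a + 1 + 1) * b = (a + 1) * b + b := by ring
      omega
    have hmem : ∀ S1 ∈ T, ∀ S, S ∈ Fintype.piFinset (fun i => powersetCard b (W i \ S1 i)) ↔
        (S ∈ T ∧ ∀ i, Disjoint (S i) (S1 i)) := by
      intro S1 _ S
      rw [hT, Fintype.mem_piFinset, Fintype.mem_piFinset]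
      simp only [mem_powersetCard, subset_sdiff]
      constructor
      · intro h
        exact ⟨fun i => ⟨(h i).1.1, (h i).2⟩, fun i => (h i).1.2⟩
      · intro h i
        exact ⟨⟨(h.1 i).1, h.2 i⟩, (h.1 i).2⟩
    have hlow : ∀ S1 ∈ N, c ≤ (a + 1) * (U.filter (fun S => ∀ i, Disjoint (S i) (S1 i))).card := by
      intro S1 hS1
      rw [hN, mem_filter] at hS1
      have h1 := ih (fun i => W i \ S1 i) (hcompl S1 hS1.1) (by
        intro S hS hdis
        obtain ⟨l, hl⟩ := hP (Fin.cons S1 S) (by
          intro l i
          refine Fin.cases ?_ (fun l => ?_) l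
          · rw [Fin.cons_zero]
            have := hS1.1
            rw [hT, Fintype.mem_piFinset] at this
            exact (mem_powersetCard.mp (this i)).1
          · rw [Fin.cons_succ]
            exact (hS l i).trans sdiff_subset) (by
          intro l l' hll' i
          induction l using Fin.cases with
          | zero =>
            induction l' using Fin.cases with
            | zero => exact absurd rfl hll'
            | succ l' =>
              rw [Fin.cons_zero, Fin.cons_succ]
              have := hS l' i
              rw [subset_sdiff] at this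
              exact this.2.symm
          | succ l =>
            induction l' using Fin.cases with
            | zero =>
              rw [Fin.cons_zero, Fin.cons_succ]
              have := hS l i
              rw [subset_sdiff] at this
              exact this.2
            | succ l' =>
              rw [Fin.cons_succ, Fin.cons_succ]
              exact hdis l l' (fun h => hll' (by rw [h])) i)
        induction l using Fin.cases with
        | zero =>
          rw [Fin.cons_zero] at hl
          exact absurd hl hS1.2
        | succ l =>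
          rw [Fin.cons_succ] at hl
          exact ⟨l, hl⟩)
      refine h1.trans ?_
      apply Nat.mul_le_mul_left
      apply Finset.card_le_card
      intro S hS
      rw [mem_filter] at hS
      rw [mem_filter, hU, mem_filter]
      have := (hmem S1 hS1.1 S).mp hS.1
      exact ⟨⟨this.1, hS.2⟩, this.2⟩
    have hup : ∀ S ∈ U, (N.filter (fun S1 => ∀ i, Disjoint (S i) (S1 i))).card ≤ c := by
      intro S hS
      rw [hU, mem_filter] at hS
      have h1 : (Fintype.piFinset (fun i => powersetCard b (W i \ S i))).card = c := by
        rw [Fintype.card_piFinset]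
        simp_rw [card_powersetCard, hcompl S hS.1]
        rw [Finset.prod_const, Finset.card_univ]
      rw [← h1]
      apply Finset.card_le_card
      intro S1 hS1
      rw [mem_filter, hN, mem_filter] at hS1
      rw [hmem S hS.1 S1]
      exact ⟨hS1.1.1, fun i => (hS1.2 i).symm⟩
    have hswap : ∑ S1 ∈ N, (U.filter (fun S => ∀ i, Disjoint (S i) (S1 i))).card
        = ∑ S ∈ U, (N.filter (fun S1 => ∀ i, Disjoint (S i) (S1 i))).card := by
      simp_rw [Finset.card_filter]
      exact Finset.sum_comm
    have h1 : N.card * c ≤ (a + 1) * ∑ S1 ∈ N, (U.filter (fun S => ∀ i, Disjoint (S i) (S1 i))).card := by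
      rw [Finset.mul_sum, ← smul_eq_mul, ← Finset.sum_const]
      exact Finset.sum_le_sum hlow
    have h2 : ∑ S ∈ U, (N.filter (fun S1 => ∀ i, Disjoint (S i) (S1 i))).card ≤ U.card * c := by
      rw [← smul_eq_mul, ← Finset.sum_const]
      exact Finset.sum_le_sum hup
    have h3 : N.card * c ≤ ((a + 1) * U.card) * c := by
      calc N.card * c ≤ (a + 1) * _ := h1
        _ ≤ (a + 1) * (U.card * c) := by
            rw [hswap]
            exact Nat.mul_le_mul_left _ h2
        _ = _ := by ring
    have h4 : N.card ≤ (a + 1) * U.card := Nat.le_of_mul_le_mul_right h3 hcpos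
    rw [← hTc, ← hTUN]
    linarith

end count

section blocks

variable {κ ω : Type*} [Fintype κ] [DecidableEq κ] [Fintype ω] [DecidableEq ω]

/-- block `i` of a vector -/
def bl (x : κ × ω → Bool) (i : κ) : ω → Bool := fun j => x (i, j)

/-- `x` is the only member of `F` that agrees with `x` outside the sets `S i` -/
def Ub (F : Finset (κ × ω → Bool)) (S : κ → Finset ω) (x : κ × ω → Bool) : Prop :=
  ∀ y ∈ F, (∀ i, ∀ j ∉ S i, y (i, j) = x (i, j)) → y = x

/-- `x` has a neighbour in block `i` that is close to `z` and to `x` -/
def Gi (F : Finset (κ × ω → Bool)) (e u : ℕ) (z : κ × ω → Bool) (i : κ) (x : κ × ω → Bool) :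
    Prop :=
  ∃ y ∈ F, y ≠ x ∧ (∀ i', i' ≠ i → ∀ j, y (i', j) = x (i', j)) ∧
    (ds (bl y i) (bl z i)).card = e ∧ (ds (bl y i) (bl z i) \ ds (bl x i) (bl z i)).card ≤ u

/-- `x` is in the product of the spheres around `z` -/
def Sph (e : ℕ) (z x : κ × ω → Bool) : Prop := ∀ i, (ds (bl x i) (bl z i)).card = e

open Classical in
/-- few members have no close neighbour in block `i` -/
lemma bad_le (F : Finset (κ × ω → Bool)) {e u L : ℕ} (hL : 2 ≤ L)
    (hLe : L * (e * (Fintype.card ω - e)) ≤ (L - 1) * (Fintype.card ω * u))
    (hw : 1 ≤ Fintype.card ω)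
    (z : κ × ω → Bool) (i : κ) :
    (F.filter (fun x => Sph e z x ∧ ¬ Gi F e u z i x)).card
      ≤ (L - 1) * ((Fintype.card ω).choose e) ^ (Fintype.card κ - 1) := by
  set B := F.filter (fun x => Sph e z x ∧ ¬ Gi F e u z i x) with hB
  set φ : (κ × ω → Bool) → (κ → Finset ω) :=
    fun x i' => if i' = i then ∅ else ds (bl x i') (bl z i') with hφ
  set t : Finset (κ → Finset ω) :=
    Fintype.piFinset (fun i' => if i' = i then {∅} else powersetCard e univ) with ht
  have htc : t.card = ((Fintype.card ω).choose e) ^ (Fintype.card κ - 1) := by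
    rw [ht, Fintype.card_piFinset]
    rw [← Finset.mul_prod_erase univ _ (mem_univ i)]
    simp only [if_true, card_singleton, one_mul]
    rw [Finset.prod_congr rfl (g := fun _ => (Fintype.card ω).choose e)]
    · rw [Finset.prod_const, card_erase_of_mem (mem_univ i), Finset.card_univ]
    · intro i' hi'
      rw [mem_erase] at hi'
      rw [if_neg hi'.1, card_powersetCard, Finset.card_univ]
  rw [← htc]
  apply Finset.card_le_mul_card_image_of_maps_to (f := φ) (t := t)
  · intro x hx
    rw [hB, mem_filter] at hx
    rw [ht, Fintype.mem_piFinset]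
    intro i'
    by_cases h : i' = i
    · simp [hφ, h]
    · simp only [hφ, h, if_false, mem_powersetCard, subset_univ, true_and]
      exact hx.2.1 i'
  · intro p _
    set G0 := B.filter (fun x => φ x = p) with hG0
    have hagree : ∀ x ∈ G0, ∀ y ∈ G0, ∀ i', i' ≠ i → ∀ j, y (i', j) = x (i', j) := by
      intro x hx y hy i' hi' j
      rw [hG0, mem_filter] at hx hy
      have h1 : φ x i' = φ y i' := by rw [hx.2, hy.2]
      simp only [hφ, hi', if_false] at h1
      have h2 : bl x i' = bl y i' := by
        have h3 := fl_ds (bl z i') (bl x i')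
        have h4 := fl_ds (bl z i') (bl y i')
        have h5 : ∀ a b : ω → Bool, ds a b = ds b a := by
          intro a b; ext j; rw [mem_ds, mem_ds]; exact ne_comm
        rw [← h3, ← h4, h5 (bl z i') (bl x i'), h1, h5 (bl y i') (bl z i')]
      exact (congrFun h2 j).symm
    have hinj : Set.InjOn (fun x : κ × ω → Bool => bl x i) (G0 : Set (κ × ω → Bool)) := by
      intro x hx y hy hxy
      funext q
      by_cases h : q.1 = i
      · have := congrFun hxy q.2
        simp only [bl, ← h] at this
        exact this
      · exact (hagree y hy x hx q.1 h q.2)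
    have hGc : (G0.image (fun x => bl x i)).card = G0.card := Finset.card_image_of_injOn hinj
    have hpl := sph_plotkin (G := G0.image (fun x => bl x i)) (z := bl z i) (e := e) (u := u + 1)
      (by
        intro x' hx'
        rw [mem_image] at hx'
        obtain ⟨x, hx, rfl⟩ := hx'
        rw [hG0, mem_filter, hB, mem_filter] at hx
        exact hx.1.2.1 i)
      (by
        intro x' hx' y' hy' hne
        rw [mem_image] at hx' hy'
        obtain ⟨x, hx, rfl⟩ := hx'
        obtain ⟨y, hy, rfl⟩ := hy'
        by_contra hcon
        have hx0 := hx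
        have hy0 := hy
        rw [hG0, mem_filter, hB, mem_filter] at hx hy
        apply hx.1.2.2
        refine ⟨y, hy.1.1, fun h => hne (by rw [h]), hagree x hx0 y hy0, hy.1.2.1 i, by omega⟩)
    rw [hGc] at hpl
    by_contra hcon
    rw [not_le] at hcon
    have hKL : L ≤ G0.card := by omega
    have hKpos : 0 < G0.card := by omega
    obtain ⟨K', hK'⟩ : ∃ K', G0.card = K' + 1 := ⟨G0.card - 1, by omega⟩
    rw [hK'] at hpl hKL
    obtain ⟨L', rfl⟩ : ∃ L', L = L' + 1 := ⟨L - 1, by omega⟩
    simp only [Nat.add_sub_cancel] at hpl hLe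
    set w := Fintype.card ω with hw'
    set E := e * (w - e) with hE
    have h1 : w * (K' * (u + 1)) ≤ (K' + 1) * E := by
      have : (K' + 1) * (w * (K' * (u + 1))) ≤ (K' + 1) * ((K' + 1) * E) := by
        calc (K' + 1) * (w * (K' * (u + 1))) = w * ((K' + 1) * K' * (u + 1)) := by ring
          _ ≤ (K' + 1) ^ 2 * E := hpl
          _ = _ := by ring
      exact Nat.le_of_mul_le_mul_left this (by omega)
    -- (L'+1) E ≤ L' w u
    have h2 : (L' + 1) * (w * (K' * (u + 1))) ≤ (K' + 1) * (L' * (w * u)) := by
      calc (L' + 1) * (w * (K' * (u + 1))) ≤ (L' + 1) * ((K' + 1) * E) := Nat.mul_le_mul_left _ h1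
        _ = (K' + 1) * ((L' + 1) * E) := by ring
        _ ≤ _ := Nat.mul_le_mul_left _ hLe
    have h3 : L' ≤ K' := by omega
    have hpos : 0 < K' := by omega
    have h4 : (K' + 1) * (L' * (w * u)) ≤ (L' + 1) * (K' * (w * u)) := by
      have : (K' + 1) * L' ≤ (L' + 1) * K' := by nlinarith
      calc (K' + 1) * (L' * (w * u)) = ((K' + 1) * L') * (w * u) := by ring
        _ ≤ ((L' + 1) * K') * (w * u) := Nat.mul_le_mul_right _ this
        _ = _ := by ring
    have h5 : (L' + 1) * (w * (K' * (u + 1))) = (L' + 1) * (K' * (w * u)) + (L' + 1) * (K' * w) := by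
      ring
    have h6 : 0 < (L' + 1) * (K' * w) := by positivity
    omega

end blocks

end Pool.Agent.Lib.MP_fa373d_co.Exp
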