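import Pool.Agent.Lib.MP_fa373d_co.ExpB

/-!
Exponential gain: the main inequality.
-/

namespace Pool.Agent.Lib.MP_fa373d_co.Exp

open Finset

variable {κ ω : Type*} [Fintype κ] [DecidableEq κ] [Fintype ω] [DecidableEq ω]

open Classical in
lemma card_sph (x : κ × ω → Bool) (R : κ → Finset ω) (e : ℕ) :
    ((univ : Finset (κ × ω → Bool)).filter
      (fun z => ∀ i, ds (bl x i) (bl z i) ⊆ R i ∧ (ds (bl x i) (bl z i)).card = e)).card
      = ∏ i, (R i).card.choose e := by
  have h : (Fintype.piFinset (fun i => powersetCard e (R i))).card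
      = ∏ i, (R i).card.choose e := by
    rw [Fintype.card_piFinset]
    simp_rw [card_powersetCard]
  rw [← h]
  apply Finset.card_bij (fun z _ => fun i => ds (bl x i) (bl z i))
  · intro z hz
    rw [mem_filter] at hz
    rw [Fintype.mem_piFinset]
    intro i
    rw [mem_powersetCard]
    exact hz.2 i
  · intro z _ z' _ hzz'
    funext p
    have h1 := congrFun hzz' p.1
    have h2 : bl z p.1 = bl z' p.1 := by
      rw [← fl_ds (bl x p.1) (bl z p.1), ← fl_ds (bl x p.1) (bl z' p.1)]
      rw [h1]
    exact congrFun h2 p.2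
  · intro A hA
    rw [Fintype.mem_piFinset] at hA
    have hbl : ∀ i, bl (fun p : κ × ω => fl (bl x p.1) (A p.1) p.2) i = fl (bl x i) (A i) := by
      intro i; rfl
    refine ⟨fun p => fl (bl x p.1) (A p.1) p.2, ?_, ?_⟩
    · rw [mem_filter]
      refine ⟨mem_univ _, fun i => ?_⟩
      rw [hbl, ds_fl]
      exact mem_powersetCard.mp (hA i)
    · funext i
      rw [hbl, ds_fl]

open Classical in
lemma card_Ub_le (F : Finset (κ × ω → Bool)) (S : κ → Finset ω) {b : ℕ}
    (hS : ∀ i, (S i).card = b) :
    (F.filter (fun x => Ub F S x)).card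
      ≤ 2 ^ (Fintype.card κ * Fintype.card ω - Fintype.card κ * b) := by
  set S' : Finset (κ × ω) := univ.filter (fun p => p.2 ∈ S p.1) with hS'
  have hc : S'.card = Fintype.card κ * b := by
    have h1 : S' = (univ : Finset κ).biUnion (fun i => (S i).image (fun j => (i, j))) := by
      ext ⟨i, j⟩
      simp only [hS', mem_filter, mem_univ, true_and, mem_biUnion, mem_image, Prod.mk.injEq]
      constructor
      · intro h; exact ⟨i, j, h, rfl, rfl⟩
      · rintro ⟨i', j', h, rfl, rfl⟩; exact h
    rw [h1, Finset.card_biUnion]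
    · rw [Finset.sum_congr rfl (g := fun _ => b)]
      · rw [Finset.sum_const, Finset.card_univ, smul_eq_mul]
      · intro i _
        rw [Finset.card_image_of_injective _ (fun j j' h => (Prod.mk.injEq _ _ _ _ ▸ h).2), hS i]
    · intro i _ i' _ hii'
      rw [Function.onFun, Finset.disjoint_left]
      intro p hp hp'
      rw [mem_image] at hp hp'
      obtain ⟨j, _, rfl⟩ := hp
      obtain ⟨j', _, h⟩ := hp'
      rw [Prod.mk.injEq] at h
      exact hii' h.1.symm
  have h2 := card_uq_le F S'
  rw [hc, Fintype.card_prod] at h2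
  refine le_trans (Finset.card_le_card ?_) h2
  intro x hx
  rw [mem_filter] at hx ⊢
  refine ⟨hx.1, fun y hy hoff => hx.2 y hy (fun i j hj => hoff (i, j) ?_)⟩
  simp only [hS', mem_filter, mem_univ, true_and]
  exact hj

/-- for a good pair the disjoint families in the complement are tested -/
lemma good_Pa {F : Finset (κ × ω → Bool)} {a : ℕ} (hF : FF (Fintype.card κ + a) F)
    {x z : κ × ω → Bool} (hx : x ∈ F) (Y : κ → κ × ω → Bool) (hY : ∀ i, Y i ∈ F)
    (hYx : ∀ i, Y i ≠ x) (hYoff : ∀ i i', i' ≠ i → ∀ j, Y i (i', j) = x (i', j))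
    (W : κ → Finset ω)
    (hW : ∀ i, Disjoint (W i) (ds (bl x i) (bl z i) ∪ ds (bl (Y i) i) (bl z i))) :
    Pa a W (fun S => Ub F S x) := by
  intro S hS hdis
  by_contra hcon
  push Not at hcon
  have hcon' : ∀ l, ∃ y ∈ F, (∀ i, ∀ j ∉ S l i, y (i, j) = x (i, j)) ∧ y ≠ x := by
    intro l
    have := hcon l
    unfold Ub at this
    push Not at this
    exact this
  choose v hv hvoff hvx using hcon'
  have hd : ∀ i, ∀ j, j ∈ ds (bl x i) (bl z i) ∪ ds (bl (Y i) i) (bl z i) → j ∉ W i := by
    intro i j hj hj'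
    exact (Finset.disjoint_left.mp (hW i)) hj' hj
  apply petals (τ := κ ⊕ Fin a) hF (by simp) hx
    (Sum.elim (fun i p => p.1 = i ∧ p.2 ∈ ds (bl x i) (bl z i) ∪ ds (bl (Y i) i) (bl z i))
      (fun l p => p.2 ∈ S l p.1)) _
    (Sum.elim Y v)
  · intro t
    rcases t with i | l
    · exact hY i
    · exact hv l
  · intro t
    rcases t with i | l
    · exact hYx i
    · exact hvx l
  · intro t p hp
    rcases t with i | l
    · simp only [Sum.elim_inl, not_and] at hp ⊢
      by_cases h : p.1 = i
      · have h1 := hp h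
        rw [mem_union, not_or, mem_ds, mem_ds, not_not, not_not] at h1
        have h2 := h1.1.trans h1.2.symm
        simp only [bl] at h2
        rw [← h] at h2 ⊢
        exact h2.symm
      · exact hYoff i p.1 h p.2
    · simp only [Sum.elim_inr] at hp ⊢
      exact hvoff l p.1 p.2 hp
  · intro s t hst p hs ht
    rcases s with i | l <;> rcases t with i' | l'
    · simp only [Sum.elim_inl] at hs ht
      apply hst
      rw [← hs.1, ← ht.1]
    · simp only [Sum.elim_inl, Sum.elim_inr] at hs ht
      have := hd i p.2 hs.2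
      rw [← hs.1] at this
      exact this (hS l' p.1 ht)
    · simp only [Sum.elim_inl, Sum.elim_inr] at hs ht
      have := hd i' p.2 ht.2
      rw [← ht.1] at this
      exact this (hS l p.1 hs)
    · simp only [Sum.elim_inr] at hs ht
      have hll' : l ≠ l' := fun h => hst (by rw [h])
      exact (Finset.disjoint_left.mp (hdis l l' hll' p.1)) hs ht

open Classical in
/-- the families off which a good member is unique are many -/
lemma good_count {F : Finset (κ × ω → Bool)} {a b e u : ℕ}
    (hF : FF (Fintype.card κ + (a + 1)) F)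
    (hab : (a + 1) * b + e + u ≤ Fintype.card ω)
    {x z : κ × ω → Bool} (hx : x ∈ F) (hs : Sph e z x) (hg : ∀ i, Gi F e u z i x) :
    (((a + 1) * b).choose b) ^ (Fintype.card κ)
      ≤ (a + 1) * ((Fintype.piFinset (fun _ : κ => powersetCard b (univ : Finset ω))).filter
        (fun S => (∀ i, Disjoint (ds (bl x i) (bl z i)) (S i)) ∧ Ub F S x)).card := by
  unfold Gi at hg
  choose Y hY hYx hYoff hYe hYu using hg
  have hV : ∀ i, (ds (bl x i) (bl z i) ∪ ds (bl (Y i) i) (bl z i)).card ≤ e + u := by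
    intro i
    have h1 : ds (bl x i) (bl z i) ∪ ds (bl (Y i) i) (bl z i)
        = ds (bl x i) (bl z i) ∪ (ds (bl (Y i) i) (bl z i) \ ds (bl x i) (bl z i)) := by
      rw [Finset.union_sdiff_self_eq_union]
    rw [h1]
    refine (Finset.card_union_le _ _).trans ?_
    rw [hs i]
    exact Nat.add_le_add_left (hYu i) _
  have hex : ∀ i, ∃ W : Finset ω, W ⊆ (ds (bl x i) (bl z i) ∪ ds (bl (Y i) i) (bl z i))ᶜ ∧
      W.card = (a + 1) * b := by
    intro i
    apply Finset.exists_subset_card_eq
    rw [card_compl]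
    have := hV i
    omega
  choose W hW hWc using hex
  have hWd : ∀ i, Disjoint (W i) (ds (bl x i) (bl z i) ∪ ds (bl (Y i) i) (bl z i)) := by
    intro i
    rw [Finset.disjoint_left]
    intro j hj
    have := hW i hj
    rw [mem_compl] at this
    exact this
  have h1 := count_part b (fun S => Ub F S x) a W hWc
    (good_Pa hF hx Y hY hYx hYoff W hWd)
  refine h1.trans ?_
  apply Nat.mul_le_mul_left
  apply Finset.card_le_card
  intro S hS
  rw [mem_filter, Fintype.mem_piFinset] at hS
  rw [mem_filter, Fintype.mem_piFinset]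
  refine ⟨fun i => ?_, fun i => ?_, hS.2⟩
  · have := mem_powersetCard.mp (hS.1 i)
    rw [mem_powersetCard]
    exact ⟨subset_univ _, this.2⟩
  · have := mem_powersetCard.mp (hS.1 i)
    rw [Finset.disjoint_left]
    intro j hj hj'
    have h2 := hW i (this.1 hj')
    rw [mem_compl, mem_union, not_or] at h2
    exact h2.1 hj

open Classical in
/-- the main inequality -/
theorem main_ineq {F : Finset (κ × ω → Bool)} {a b e u L : ℕ}
    (hF : FF (Fintype.card κ + (a + 1)) F)
    (hab : (a + 1) * b + e + u ≤ Fintype.card ω) (hL : 2 ≤ L)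
    (hLe : L * (e * (Fintype.card ω - e)) ≤ (L - 1) * (Fintype.card ω * u))
    (hw : 1 ≤ Fintype.card ω) (hκ : 1 ≤ Fintype.card κ) :
    F.card * (Fintype.card ω).choose e
        ≤ 2 * (Fintype.card κ * ((L - 1) * 2 ^ (Fintype.card κ * Fintype.card ω))) ∨
    F.card * ((Fintype.card ω).choose e) ^ (Fintype.card κ)
        * (((a + 1) * b).choose b) ^ (Fintype.card κ)
      ≤ 2 * ((a + 1) * (((Fintype.card ω).choose b) ^ (Fintype.card κ)
        * (2 ^ (Fintype.card κ * Fintype.card ω - Fintype.card κ * b)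
          * ((Fintype.card ω - b).choose e) ^ (Fintype.card κ)))) := by
  set q := Fintype.card κ with hq
  set w := Fintype.card ω with hw'
  by_cases hcase : F.card * w.choose e ≤ 2 * (q * ((L - 1) * 2 ^ (q * w)))
  · exact Or.inl hcase
  right
  rw [not_le] at hcase
  -- pairs
  set P : Finset ((κ × ω → Bool) × (κ × ω → Bool)) :=
    (F ×ˢ univ).filter (fun p => Sph e p.2 p.1) with hP
  have hPc : P.card = F.card * (w.choose e) ^ q := by
    rw [hP, Finset.card_filter, Finset.sum_product]
    have : ∀ x ∈ F, ∑ z : κ × ω → Bool, (if Sph e z x then 1 else 0) = (w.choose e) ^ q := by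
      intro x _
      rw [← Finset.card_filter]
      have h1 := card_sph x (fun _ => univ) e
      simp only [subset_univ, true_and, Finset.prod_const, Finset.card_univ] at h1
      convert h1
      exact Iff.rfl
    rw [Finset.sum_congr rfl this, Finset.sum_const, smul_eq_mul]
  set Bd := P.filter (fun p => ¬ ∀ i, Gi F e u p.2 i p.1) with hBd
  set Gd := P.filter (fun p => ∀ i, Gi F e u p.2 i p.1) with hGd
  have hGB : Gd.card + Bd.card = P.card := Finset.card_filter_add_card_filter_not _
  have hBdc : Bd.card ≤ q * (2 ^ (q * w) * ((L - 1) * (w.choose e) ^ (q - 1))) := by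
    have h1 : Bd ⊆ (univ : Finset κ).biUnion (fun i =>
        (F ×ˢ univ).filter (fun p => Sph e p.2 p.1 ∧ ¬ Gi F e u p.2 i p.1)) := by
      intro p hp
      rw [hBd, mem_filter, hP, mem_filter] at hp
      obtain ⟨⟨hp1, hp2⟩, hp3⟩ := hp
      push Not at hp3
      obtain ⟨i, hi⟩ := hp3
      rw [mem_biUnion]
      exact ⟨i, mem_univ _, by rw [mem_filter]; exact ⟨hp1, hp2, hi⟩⟩
    have h2 : ∀ i ∈ (univ : Finset κ),
        ((F ×ˢ (univ : Finset (κ × ω → Bool))).filter
          (fun p => Sph e p.2 p.1 ∧ ¬ Gi F e u p.2 i p.1)).card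
        ≤ 2 ^ (q * w) * ((L - 1) * (w.choose e) ^ (q - 1)) := by
      intro i _
      rw [Finset.card_filter, Finset.sum_product_right]
      have h3 : ∀ z ∈ (univ : Finset (κ × ω → Bool)),
          ∑ x ∈ F, (if Sph e z x ∧ ¬ Gi F e u z i x then 1 else 0)
          ≤ (L - 1) * (w.choose e) ^ (q - 1) := by
        intro z _
        rw [← Finset.card_filter]
        exact bad_le F hL hLe hw z i
      refine (Finset.sum_le_sum h3).trans ?_
      rw [Finset.sum_const, smul_eq_mul, Finset.card_univ, Fintype.card_fun, Fintype.card_bool,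
        Fintype.card_prod]
    calc Bd.card ≤ _ := Finset.card_le_card h1
      _ ≤ ∑ i : κ, _ := Finset.card_biUnion_le
      _ ≤ ∑ _i : κ, 2 ^ (q * w) * ((L - 1) * (w.choose e) ^ (q - 1)) := Finset.sum_le_sum h2
      _ = _ := by rw [Finset.sum_const, smul_eq_mul, Finset.card_univ]
  have hBd2 : 2 * Bd.card ≤ P.card := by
    rw [hPc]
    obtain ⟨q', hq'⟩ : ∃ q', q = q' + 1 := ⟨q - 1, by omega⟩
    have h1 : (w.choose e) ^ q = w.choose e * (w.choose e) ^ (q - 1) := by
      rw [hq', Nat.add_sub_cancel, pow_succ]; ring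
    rw [h1]
    calc 2 * Bd.card ≤ 2 * (q * (2 ^ (q * w) * ((L - 1) * (w.choose e) ^ (q - 1)))) :=
          Nat.mul_le_mul_left _ hBdc
      _ = (2 * (q * ((L - 1) * 2 ^ (q * w)))) * (w.choose e) ^ (q - 1) := by ring
      _ ≤ (F.card * w.choose e) * (w.choose e) ^ (q - 1) := Nat.mul_le_mul_right _ hcase.le
      _ = _ := by ring
  have hGd2 : P.card ≤ 2 * Gd.card := by omega
  -- the triples
  set T := Fintype.piFinset (fun _ : κ => powersetCard b (univ : Finset ω)) with hT
  have hTc : T.card = (w.choose b) ^ q := by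
    rw [hT, Fintype.card_piFinset]
    simp_rw [card_powersetCard, Finset.card_univ]
    rw [Finset.prod_const, Finset.card_univ]
  have hlow : Gd.card * (((a + 1) * b).choose b) ^ q
      ≤ (a + 1) * ∑ p ∈ P, (T.filter (fun S => (∀ i, Disjoint (ds (bl p.1 i) (bl p.2 i)) (S i)) ∧
        Ub F S p.1)).card := by
    calc Gd.card * (((a + 1) * b).choose b) ^ q
        = ∑ _p ∈ Gd, (((a + 1) * b).choose b) ^ q := by rw [Finset.sum_const, smul_eq_mul]
      _ ≤ ∑ p ∈ Gd, (a + 1) * (T.filter (fun S => (∀ i, Disjoint (ds (bl p.1 i) (bl p.2 i)) (S i)) ∧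
        Ub F S p.1)).card := by
          apply Finset.sum_le_sum
          intro p hp
          rw [hGd, mem_filter, hP, mem_filter, mem_product] at hp
          exact good_count hF hab hp.1.1.1 hp.1.2 hp.2
      _ = (a + 1) * ∑ p ∈ Gd, (T.filter (fun S =>
          (∀ i, Disjoint (ds (bl p.1 i) (bl p.2 i)) (S i)) ∧ Ub F S p.1)).card := by
          rw [Finset.mul_sum]
      _ ≤ _ := by
          apply Nat.mul_le_mul_left
          apply Finset.sum_le_sum_of_subset
          exact filter_subset _ _
  have hup : ∑ p ∈ P, (T.filter (fun S => (∀ i, Disjoint (ds (bl p.1 i) (bl p.2 i)) (S i)) ∧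
        Ub F S p.1)).card
      ≤ (w.choose b) ^ q * (2 ^ (q * w - q * b) * ((w - b).choose e) ^ q) := by
    simp_rw [Finset.card_filter]
    rw [Finset.sum_comm]
    rw [← hTc, ← smul_eq_mul, ← Finset.sum_const]
    apply Finset.sum_le_sum
    intro S hS
    rw [hT, Fintype.mem_piFinset] at hS
    have hSc : ∀ i, (S i).card = b := fun i => (mem_powersetCard.mp (hS i)).2
    rw [← Finset.card_filter]
    have h1 : P.filter (fun p => (∀ i, Disjoint (ds (bl p.1 i) (bl p.2 i)) (S i)) ∧ Ub F S p.1)
        ⊆ ((F.filter (fun x => Ub F S x)) ×ˢ univ).filter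
          (fun p => ∀ i, ds (bl p.1 i) (bl p.2 i) ⊆ (S i)ᶜ ∧
            (ds (bl p.1 i) (bl p.2 i)).card = e) := by
      intro p hp
      rw [mem_filter, hP, mem_filter, mem_product] at hp
      rw [mem_filter, mem_product, mem_filter]
      refine ⟨⟨⟨hp.1.1.1, hp.2.2⟩, mem_univ _⟩, fun i => ⟨?_, hp.1.2 i⟩⟩
      rw [Finset.subset_compl_iff_disjoint_right]
      exact hp.2.1 i
    refine (Finset.card_le_card h1).trans ?_
    rw [Finset.card_filter, Finset.sum_product]
    have h2 : ∀ x ∈ F.filter (fun x => Ub F S x),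
        ∑ z : κ × ω → Bool, (if ∀ i, ds (bl x i) (bl z i) ⊆ (S i)ᶜ ∧
            (ds (bl x i) (bl z i)).card = e then 1 else 0) = ((w - b).choose e) ^ q := by
      intro x _
      rw [← Finset.card_filter, card_sph x (fun i => (S i)ᶜ) e]
      simp_rw [card_compl, hSc]
      rw [Finset.prod_const, Finset.card_univ]
    rw [Finset.sum_congr rfl h2, Finset.sum_const, smul_eq_mul]
    exact Nat.mul_le_mul_right _ (card_Ub_le F S hSc)
  calc F.card * (w.choose e) ^ q * (((a + 1) * b).choose b) ^ q
      = P.card * (((a + 1) * b).choose b) ^ q := by rw [hPc]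
    _ ≤ (2 * Gd.card) * (((a + 1) * b).choose b) ^ q := Nat.mul_le_mul_right _ hGd2
    _ = 2 * (Gd.card * (((a + 1) * b).choose b) ^ q) := by ring
    _ ≤ 2 * ((a + 1) * _) := Nat.mul_le_mul_left _ hlow
    _ ≤ _ := by
        apply Nat.mul_le_mul_left
        apply Nat.mul_le_mul_left
        exact hup

end Pool.Agent.Lib.MP_fa373d_co.Exp
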