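import Pool.Agent.Lib.MP_fa373d_co.ExpC

/-!
Exponential gain: estimates.
-/

namespace Pool.Agent.Lib.MP_fa373d_co.Exp

open Finset

/-- the central binomial term is the largest one -/
lemma term_le (e f m : ℕ) (hm : m ≤ e + f) :
    e ^ m * f ^ (e + f - m) * (e + f).choose m ≤ e ^ e * f ^ f * (e + f).choose e := by
  set n := e + f with hn
  set T : ℕ → ℕ := fun m => e ^ m * f ^ (n - m) * n.choose m with hT
  have hrec : ∀ m, m + 1 ≤ n → T (m + 1) * ((m + 1) * f) = T m * (e * (n - m)) := by
    intro m hm
    have h1 := Nat.choose_succ_right_eq n m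
    have h2 : f ^ (n - m) = f ^ (n - (m + 1)) * f := by
      rw [← pow_succ]; congr 1; omega
    simp only [hT]
    rw [h2, pow_succ]
    calc e ^ m * e * f ^ (n - (m + 1)) * n.choose (m + 1) * ((m + 1) * f)
        = e ^ m * e * f ^ (n - (m + 1)) * f * (n.choose (m + 1) * (m + 1)) := by ring
      _ = e ^ m * e * f ^ (n - (m + 1)) * f * (n.choose m * (n - m)) := by rw [h1]
      _ = _ := by ring
  have hup : ∀ d, d ≤ e → T (e - d) ≤ T e := by
    intro d
    induction d with
    | zero => intro _; simp
    | succ d ih =>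
      intro hd
      refine le_trans ?_ (ih (by omega))
      have h1 := hrec (e - (d + 1)) (by omega)
      have h2 : e - (d + 1) + 1 = e - d := by omega
      rw [h2] at h1
      rcases Nat.eq_zero_or_pos f with h0 | hpos
      · have : T (e - (d + 1)) = 0 := by
          simp only [hT, h0]
          rw [zero_pow (by omega)]
          simp
        omega
      · have h3 : (e - d) * f ≤ e * (n - (e - (d + 1))) := by
          apply Nat.mul_le_mul <;> omega
        have h4 : T (e - (d + 1)) * ((e - d) * f) ≤ T (e - d) * ((e - d) * f) := by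
          rw [h1]
          exact Nat.mul_le_mul_left _ h3
        exact Nat.le_of_mul_le_mul_right h4 (Nat.mul_pos (by omega) hpos)
  have hdown : ∀ d, e + d ≤ n → T (e + d) ≤ T e := by
    intro d
    induction d with
    | zero => intro _; simp
    | succ d ih =>
      intro hd
      refine le_trans ?_ (ih (by omega))
      have h1 := hrec (e + d) (by omega)
      have h3 : e * (n - (e + d)) ≤ (e + d + 1) * f := by
        apply Nat.mul_le_mul <;> omega
      have h4 : T (e + d + 1) * ((e + d + 1) * f) ≤ T (e + d) * ((e + d + 1) * f) := by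
        rw [h1]
        exact Nat.mul_le_mul_left _ h3
      exact Nat.le_of_mul_le_mul_right h4 (Nat.mul_pos (by omega) (by omega))
  have hTe : T e = e ^ e * f ^ f * n.choose e := by
    simp only [hT]
    rw [hn, Nat.add_sub_cancel_left]
  rw [← hTe]
  rcases Nat.le_total m e with h | h
  · have := hup (e - m) (by omega)
    rw [show e - (e - m) = m by omega] at this
    exact this
  · have := hdown (m - e) (by omega)
    rw [show e + (m - e) = m by omega] at this
    exact this

/-- a lower bound for binomial coefficients -/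
lemma choose_lower (e f : ℕ) :
    (e + f) ^ (e + f) ≤ (e + f + 1) * (e ^ e * f ^ f * (e + f).choose e) := by
  rw [add_pow e f (e + f)]
  have h1 : ∀ m ∈ range (e + f + 1), e ^ m * f ^ (e + f - m) * (e + f).choose m
      ≤ e ^ e * f ^ f * (e + f).choose e := by
    intro m hm
    rw [mem_range] at hm
    exact term_le e f m (by omega)
  refine (Finset.sum_le_sum h1).trans ?_
  rw [Finset.sum_const, card_range, smul_eq_mul]

/-- an upper bound for binomial coefficients -/
lemma choose_upper (n b t s : ℕ) (hb : b ≤ n) : t ^ b * s ^ (n - b) * n.choose b ≤ (t + s) ^ n := by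
  rw [add_pow t s n]
  exact Finset.single_le_sum (f := fun m => t ^ m * s ^ (n - m) * n.choose m)
    (fun _ _ => Nat.zero_le _) (mem_range.mpr (by omega))

/-- the lower bound, scaled -/
lemma choose_lower_scaled (e f N : ℕ) (hN : 1 ≤ N) :
    ((e + f) ^ (e + f)) ^ N
      ≤ ((e + f) * N + 1) * ((e ^ e * f ^ f) ^ N * ((e + f) * N).choose (e * N)) := by
  have h := choose_lower (e * N) (f * N)
  have h1 : e * N + f * N = (e + f) * N := by ring
  rw [h1] at h
  have h2 : ((e + f) * N) ^ ((e + f) * N) = ((e + f) ^ (e + f)) ^ N * N ^ ((e + f) * N) := by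
    rw [mul_pow, ← pow_mul]
  have h3 : (e * N) ^ (e * N) * (f * N) ^ (f * N) = (e ^ e * f ^ f) ^ N * N ^ ((e + f) * N) := by
    rw [mul_pow, mul_pow, mul_pow, ← pow_mul, ← pow_mul, add_mul, pow_add]
    ring
  rw [h2, h3] at h
  have hpos : 0 < N ^ ((e + f) * N) := Nat.pow_pos hN
  apply Nat.le_of_mul_le_mul_right _ hpos
  calc ((e + f) ^ (e + f)) ^ N * N ^ ((e + f) * N) ≤ _ := h
    _ = _ := by ring

/-- the second alternative of the main inequality, simplified -/
lemma simplify_B {M w b e q a : ℕ} (hbe : b + e ≤ w)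
    (h : M * (w.choose e) ^ q * (((a + 1) * b).choose b) ^ q
      ≤ 2 * ((a + 1) * ((w.choose b) ^ q * (2 ^ (q * w - q * b) * ((w - b).choose e) ^ q)))) :
    M * (((a + 1) * b).choose b) ^ q ≤ 2 * (a + 1) * (2 ^ (w - b) * (w - e).choose b) ^ q := by
  have h1 : w.choose b * (w - b).choose e = w.choose e * (w - e).choose b := by
    have h2 := Nat.choose_mul (n := w) (k := b + e) (s := b) (by omega)
    have h3 := Nat.choose_mul (n := w) (k := b + e) (s := e) (by omega)
    rw [Nat.add_sub_cancel_left] at h2
    rw [Nat.add_sub_cancel] at h3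
    rw [← h2, ← h3]
    congr 1
    exact Nat.choose_symm_add
  have hpos : 0 < (w.choose e) ^ q := Nat.pow_pos (Nat.choose_pos (by omega))
  apply Nat.le_of_mul_le_mul_right _ hpos
  have h4 : q * w - q * b = (w - b) * q := by rw [← Nat.mul_sub]; ring
  calc M * (((a + 1) * b).choose b) ^ q * (w.choose e) ^ q
      = M * (w.choose e) ^ q * (((a + 1) * b).choose b) ^ q := by ring
    _ ≤ _ := h
    _ = 2 * (a + 1) * ((2 ^ (w - b)) ^ q * (w.choose b * (w - b).choose e) ^ q) := by
        rw [h4, pow_mul, mul_pow]; ring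
    _ = _ := by rw [h1, mul_pow, mul_pow]; ring

end Pool.Agent.Lib.MP_fa373d_co.Exp
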