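import Pool.Agent.Lib.MP_fa373d_co.ExpD

/-!
Exponential gain: the bound for blocks.
-/

namespace Pool.Agent.Lib.MP_fa373d_co.Exp

open Finset

lemma poly_bdd (k : ℕ) (c : ℝ) (hc : 0 ≤ c) {r : ℝ} (hr0 : 0 ≤ r) (hr1 : r < 1) :
    ∃ C : ℝ, 0 < C ∧ ∀ N : ℕ, (c * N + 1) ^ k * r ^ N ≤ C := by
  set r' := (r + 1) / 2 with hr'
  have h1 : r ≤ r' := by rw [hr']; linarith
  have h2 : r' < 1 := by rw [hr']; linarith
  have h3 : 0 < r' := by rw [hr']; linarith
  have h4 := tendsto_pow_const_mul_const_pow_of_abs_lt_one k (r := r')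
    (by rw [abs_of_pos h3]; exact h2)
  obtain ⟨B, hB⟩ := h4.bddAbove_range
  rw [mem_upperBounds] at hB
  have hB' : ∀ N : ℕ, (N : ℝ) ^ k * r' ^ N ≤ B := fun N => hB _ ⟨N, rfl⟩
  have hB0 : 0 ≤ B := by
    have := hB' 1
    have h5 : (0 : ℝ) ≤ ((1 : ℕ) : ℝ) ^ k * r' ^ 1 := by positivity
    linarith
  refine ⟨(c + 1) ^ k * (B / r') + 1, by positivity, ?_⟩
  intro N
  have h5 : (c * N + 1) ≤ (c + 1) * ((N + 1 : ℕ) : ℝ) := by
    push_cast
    have : (0 : ℝ) ≤ N := by positivity
    nlinarith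
  have h6 : (c * N + 1) ^ k ≤ (c + 1) ^ k * ((N + 1 : ℕ) : ℝ) ^ k := by
    rw [← mul_pow]
    exact pow_le_pow_left₀ (by positivity) h5 k
  have h7 : r ^ N ≤ r' ^ N := pow_le_pow_left₀ hr0 h1 N
  have h8 : ((N + 1 : ℕ) : ℝ) ^ k * r' ^ N ≤ B / r' := by
    rw [le_div_iff₀ h3]
    have := hB' (N + 1)
    rw [pow_succ] at this
    linarith
  calc (c * N + 1) ^ k * r ^ N ≤ ((c + 1) ^ k * ((N + 1 : ℕ) : ℝ) ^ k) * r' ^ N := by
        apply mul_le_mul h6 h7 (by positivity) (by positivity)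
    _ = (c + 1) ^ k * (((N + 1 : ℕ) : ℝ) ^ k * r' ^ N) := by ring
    _ ≤ (c + 1) ^ k * (B / r') := mul_le_mul_of_nonneg_left h8 (by positivity)
    _ ≤ _ := by linarith

lemma absorb {A B ρ K c : ℝ} (hA : 0 < A) (hB : 0 ≤ B) (hρ : 0 < ρ) (hK : 0 ≤ K) (hc : 0 ≤ c)
    {p : ℕ} (h : B ^ p < (A * ρ) ^ p) (k : ℕ) :
    ∃ C : ℝ, 0 < C ∧ ∀ (N : ℕ) (M : ℝ), M * A ^ N ≤ K * (c * N + 1) ^ k * B ^ N →
      M ≤ C * ρ ^ N := by
  have h1 : B < A * ρ := lt_of_pow_lt_pow_left₀ p (by positivity) h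
  have hAρ : 0 < A * ρ := by positivity
  obtain ⟨C, hC, hCb⟩ := poly_bdd k c hc (r := B / (A * ρ)) (by positivity)
    ((div_lt_one hAρ).mpr h1)
  refine ⟨K * C + 1, by positivity, ?_⟩
  intro N M hM
  have hAN : 0 < A ^ N := by positivity
  have h2 : M ≤ K * (c * N + 1) ^ k * B ^ N / A ^ N := by
    rw [le_div_iff₀ hAN]; exact hM
  have h3 : K * (c * N + 1) ^ k * B ^ N / A ^ N
      = K * ((c * N + 1) ^ k * (B / (A * ρ)) ^ N) * ρ ^ N := by
    rw [div_pow, mul_pow]
    field_simp
  rw [h3] at h2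
  have h4 := hCb N
  have hρN : 0 < ρ ^ N := by positivity
  calc M ≤ _ := h2
    _ ≤ K * C * ρ ^ N := by
        apply mul_le_mul_of_nonneg_right _ hρN.le
        exact mul_le_mul_of_nonneg_left h4 hK
    _ ≤ (K * C + 1) * ρ ^ N := by
        apply mul_le_mul_of_nonneg_right _ hρN.le
        linarith

/-- the bound for blocks -/
theorem block_bound (q a e f u b L t s p r : ℕ) (hq : 1 ≤ q) (hb : 1 ≤ b)
    (hab : (a + 1) * b + u ≤ f) (hL : 2 ≤ L) (hLe : L * (e * f) ≤ (L - 1) * ((e + f) * u))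
    (hr : r ≤ p) (ht : 1 ≤ t) (hs : 1 ≤ s) (hp : 1 ≤ p)
    (hA : (e ^ e * f ^ f) ^ p * 2 ^ (r * (q * (e + f))) < ((e + f) ^ (e + f)) ^ p)
    (hB : ((t + s) ^ f * a ^ (a * b)) ^ p * 2 ^ (r * (e + f))
      < ((a + 1) ^ ((a + 1) * b) * (t ^ b * s ^ (f - b)) * 2 ^ b) ^ p) :
    ∃ C : ℝ, 0 < C ∧ ∀ (N : ℕ) (F : Finset (Fin q × Fin ((e + f) * N) → Bool)),
      FF (q + (a + 1)) F → (F.card : ℝ) ≤ C * ((2 : ℝ) ^ ((1 - (r : ℝ) / p) * (q * (e + f)))) ^ N := by
  set ρ : ℝ := (2 : ℝ) ^ ((1 - (r : ℝ) / p) * (q * (e + f))) with hρ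
  have hρpos : 0 < ρ := by positivity
  have hp0 : (0 : ℝ) < p := by exact_mod_cast hp
  have hbf : b ≤ f := by nlinarith
  have hρp : ρ ^ p = 2 ^ ((p - r) * (q * (e + f))) := by
    rw [hρ, ← Real.rpow_natCast, ← Real.rpow_mul (by norm_num), ← Real.rpow_natCast]
    congr 1
    push_cast [Nat.cast_sub hr]
    field_simp
  have hef : 1 ≤ e + f := by omega
  -- first alternative
  obtain ⟨C1, hC1, h1⟩ := absorb (A := ((e + f : ℕ) : ℝ) ^ (e + f))
    (B := ((e : ℝ) ^ e * (f : ℝ) ^ f) * 2 ^ (q * (e + f))) (ρ := ρ)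
    (K := 2 * (q * (L - 1 : ℕ))) (c := ((e + f : ℕ) : ℝ)) (by positivity) (by positivity) hρpos
    (by positivity) (by positivity) (p := p) (by
      rw [mul_pow _ ρ, hρp, mul_pow]
      have h2 : ((2 : ℝ) ^ (q * (e + f))) ^ p
          = 2 ^ (r * (q * (e + f))) * 2 ^ ((p - r) * (q * (e + f))) := by
        rw [← pow_mul, ← pow_add]
        congr 1
        rw [← add_mul, Nat.add_sub_cancel' hr]
        ring
      rw [h2, ← mul_assoc]
      apply mul_lt_mul_of_pos_right _ (by positivity)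
      exact_mod_cast hA) 1
  -- second alternative
  obtain ⟨C2, hC2, h2⟩ := absorb
    (A := (((a + 1 : ℕ) : ℝ) ^ ((a + 1) * b) * ((t : ℝ) ^ b * (s : ℝ) ^ (f - b))) ^ q)
    (B := (2 ^ (e + f - b) * (((t + s : ℕ) : ℝ) ^ f * (a : ℝ) ^ (a * b))) ^ q) (ρ := ρ)
    (K := 2 * ((a + 1 : ℕ) : ℝ)) (c := (((a + 1) * b : ℕ) : ℝ)) (by positivity) (by positivity)
    hρpos (by positivity) (by positivity) (p := p) (by
      rw [mul_pow _ ρ, hρp]
      have h3 : (2 : ℝ) ^ ((p - r) * (q * (e + f))) = ((2 : ℝ) ^ ((p - r) * (e + f))) ^ q := by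
        rw [← pow_mul]; congr 1; ring
      rw [h3, pow_right_comm _ q p, pow_right_comm _ q p, ← mul_pow]
      apply pow_lt_pow_left₀ _ (by positivity) (by omega)
      have h4 : (2 : ℝ) ^ ((e + f - b) * p) * 2 ^ (b * p)
          = 2 ^ (r * (e + f)) * 2 ^ ((p - r) * (e + f)) := by
        rw [← pow_add, ← pow_add]
        congr 1
        rw [← add_mul, ← add_mul, Nat.add_sub_cancel' hr, Nat.sub_add_cancel (by omega)]
        ring
      have h5 : (((t + s : ℕ) : ℝ) ^ f * (a : ℝ) ^ (a * b)) ^ p * 2 ^ (r * (e + f))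
          < (((a + 1 : ℕ) : ℝ) ^ ((a + 1) * b) * ((t : ℝ) ^ b * (s : ℝ) ^ (f - b)) * 2 ^ b) ^ p := by
        exact_mod_cast hB
      have h6 : (0 : ℝ) < 2 ^ (b * p) := by positivity
      apply lt_of_mul_lt_mul_right _ h6.le
      calc (2 ^ (e + f - b) * (((t + s : ℕ) : ℝ) ^ f * (a : ℝ) ^ (a * b))) ^ p * 2 ^ (b * p)
          = (((t + s : ℕ) : ℝ) ^ f * (a : ℝ) ^ (a * b)) ^ p * (2 ^ ((e + f - b) * p) * 2 ^ (b * p)) := by
            rw [mul_pow, ← pow_mul]; ring
        _ = ((((t + s : ℕ) : ℝ) ^ f * (a : ℝ) ^ (a * b)) ^ p * 2 ^ (r * (e + f)))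
            * 2 ^ ((p - r) * (e + f)) := by rw [h4]; ring
        _ < (((a + 1 : ℕ) : ℝ) ^ ((a + 1) * b) * ((t : ℝ) ^ b * (s : ℝ) ^ (f - b)) * 2 ^ b) ^ p
            * 2 ^ ((p - r) * (e + f)) := mul_lt_mul_of_pos_right h5 (by positivity)
        _ = _ := by rw [mul_pow _ (2 ^ b), ← pow_mul 2 b p]; ring) q
  refine ⟨C1 + C2 + 1, by positivity, ?_⟩
  intro N F hF
  have hρN : 0 < ρ ^ N := by positivity
  rcases Nat.eq_zero_or_pos N with h0 | hN
  · subst h0
    have h3 : (F.card : ℝ) ≤ 1 := by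
      have h4 : F.card ≤ Fintype.card (Fin q × Fin ((e + f) * 0) → Bool) := Finset.card_le_univ F
      rw [Fintype.card_fun, Fintype.card_prod, Fintype.card_fin, Fintype.card_fin] at h4
      simp only [mul_zero, pow_zero] at h4
      exact_mod_cast h4
    rw [pow_zero]
    linarith
  · have hw : Fintype.card (Fin ((e + f) * N)) = (e + f) * N := Fintype.card_fin _
    have hq' : Fintype.card (Fin q) = q := Fintype.card_fin _
    have hmain := main_ineq (κ := Fin q) (ω := Fin ((e + f) * N)) (F := F) (a := a) (b := b * N)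
      (e := e * N) (u := u * N) (L := L) (by rw [hq']; exact hF)
      (by
        rw [hw]
        calc (a + 1) * (b * N) + e * N + u * N = ((a + 1) * b + u + e) * N := by ring
          _ ≤ (e + f) * N := Nat.mul_le_mul_right _ (by omega))
      hL
      (by
        rw [hw]
        have h3 : (e + f) * N - e * N = f * N := by rw [← Nat.sub_mul]; congr 1; omega
        rw [h3]
        calc L * (e * N * (f * N)) = (L * (e * f)) * (N * N) := by ring
          _ ≤ ((L - 1) * ((e + f) * u)) * (N * N) := Nat.mul_le_mul_right _ hLe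
          _ = _ := by ring)
      (by rw [hw]; exact Nat.mul_pos hef hN) (by rw [hq']; exact hq)
    rw [hw, hq'] at hmain
    rcases hmain with hm | hm
    · have h3 : (F.card : ℝ) ≤ C1 * ρ ^ N := by
        apply h1 N
        have h4 := choose_lower_scaled e f N hN
        have h5 : F.card * ((e + f) ^ (e + f)) ^ N
            ≤ (2 * (q * (L - 1))) * ((e + f) * N + 1) * ((e ^ e * f ^ f) * 2 ^ (q * (e + f))) ^ N := by
          calc F.card * ((e + f) ^ (e + f)) ^ N
              ≤ F.card * (((e + f) * N + 1) * ((e ^ e * f ^ f) ^ N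
                * ((e + f) * N).choose (e * N))) := Nat.mul_le_mul_left _ h4
            _ = (((e + f) * N + 1) * (e ^ e * f ^ f) ^ N)
                * (F.card * ((e + f) * N).choose (e * N)) := by ring
            _ ≤ (((e + f) * N + 1) * (e ^ e * f ^ f) ^ N)
                * (2 * (q * ((L - 1) * 2 ^ (q * ((e + f) * N))))) := Nat.mul_le_mul_left _ hm
            _ = _ := by
                rw [mul_pow _ (2 ^ (q * (e + f))), ← pow_mul 2]
                rw [← mul_assoc q (e + f) N]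
                ring
        have h6 : ((F.card * ((e + f) ^ (e + f)) ^ N : ℕ) : ℝ)
            ≤ (((2 * (q * (L - 1))) * ((e + f) * N + 1)
              * ((e ^ e * f ^ f) * 2 ^ (q * (e + f))) ^ N : ℕ) : ℝ) := by exact_mod_cast h5
        push_cast at h6 ⊢
        rw [pow_one]
        exact h6
      nlinarith
    · have h3 : (F.card : ℝ) ≤ C2 * ρ ^ N := by
        apply h2 N
        have hm' := simplify_B (M := F.card) (by
          have : b * N + e * N ≤ (e + f) * N := by
            rw [← add_mul]; exact Nat.mul_le_mul_right _ (by omega)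
          exact this) hm
        have h7 : (e + f) * N - e * N = f * N := by rw [← Nat.sub_mul]; congr 1; omega
        have h8 : (e + f) * N - b * N = (e + f - b) * N := by rw [← Nat.sub_mul]
        rw [h7, h8] at hm'
        -- lower bound of the first binomial coefficient
        have h9 : ((a + 1) ^ ((a + 1) * b)) ^ N
            ≤ ((a + 1) * b * N + 1) * ((a ^ (a * b)) ^ N * ((a + 1) * (b * N)).choose (b * N)) := by
          have h10 := choose_lower_scaled b (a * b) N hN
          have e1 : b + a * b = (a + 1) * b := by ring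
          rw [e1] at h10
          have e2 : (((a + 1) * b) ^ ((a + 1) * b)) ^ N
              = ((a + 1) ^ ((a + 1) * b)) ^ N * (b ^ ((a + 1) * b)) ^ N := by
            rw [← mul_pow, ← mul_pow]
          have e3 : (b ^ b * (a * b) ^ (a * b)) ^ N
              = (a ^ (a * b)) ^ N * (b ^ ((a + 1) * b)) ^ N := by
            rw [mul_pow a b (a * b), add_mul, one_mul, pow_add, ← mul_pow]
            congr 1
            ring
          rw [e2, e3, mul_assoc (a + 1) b N] at h10
          have hbpos : 0 < (b ^ ((a + 1) * b)) ^ N := by positivity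
          apply Nat.le_of_mul_le_mul_right _ hbpos
          rw [mul_assoc (a + 1) b N]
          calc ((a + 1) ^ ((a + 1) * b)) ^ N * (b ^ ((a + 1) * b)) ^ N ≤ _ := h10
            _ = _ := by ring
        have h11 : (t ^ b * s ^ (f - b)) ^ N * (f * N).choose (b * N) ≤ ((t + s) ^ f) ^ N := by
          have h12 := choose_upper (f * N) (b * N) t s (Nat.mul_le_mul_right _ hbf)
          rw [← Nat.sub_mul] at h12
          calc (t ^ b * s ^ (f - b)) ^ N * (f * N).choose (b * N)
              = t ^ (b * N) * s ^ ((f - b) * N) * (f * N).choose (b * N) := by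
                rw [mul_pow, ← pow_mul, ← pow_mul]
            _ ≤ _ := h12
            _ = _ := by rw [← pow_mul]
        have h5 : F.card * (((a + 1) ^ ((a + 1) * b) * (t ^ b * s ^ (f - b))) ^ q) ^ N
            ≤ (2 * (a + 1)) * ((a + 1) * b * N + 1) ^ q
              * ((2 ^ (e + f - b) * ((t + s) ^ f * a ^ (a * b))) ^ q) ^ N := by
          rw [pow_right_comm _ q N, pow_right_comm _ q N]
          calc F.card * (((a + 1) ^ ((a + 1) * b) * (t ^ b * s ^ (f - b))) ^ N) ^ q
              = F.card * ((((a + 1) ^ ((a + 1) * b)) ^ N) * (t ^ b * s ^ (f - b)) ^ N) ^ q := by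
                rw [mul_pow _ _ N]
            _ ≤ F.card * ((((a + 1) * b * N + 1) * ((a ^ (a * b)) ^ N
                * ((a + 1) * (b * N)).choose (b * N))) * (t ^ b * s ^ (f - b)) ^ N) ^ q := by
                apply Nat.mul_le_mul_left
                apply Nat.pow_le_pow_left
                exact Nat.mul_le_mul_right _ h9
            _ = (F.card * (((a + 1) * (b * N)).choose (b * N)) ^ q)
                * ((((a + 1) * b * N + 1) * (a ^ (a * b)) ^ N) * (t ^ b * s ^ (f - b)) ^ N) ^ q := by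
                rw [← mul_assoc ((a + 1) * b * N + 1), mul_right_comm _ _ ((t ^ b * s ^ (f - b)) ^ N),
                  mul_pow _ (((a + 1) * (b * N)).choose (b * N))]
                ring
            _ ≤ (2 * (a + 1) * (2 ^ ((e + f - b) * N) * (f * N).choose (b * N)) ^ q)
                * ((((a + 1) * b * N + 1) * (a ^ (a * b)) ^ N) * (t ^ b * s ^ (f - b)) ^ N) ^ q :=
                Nat.mul_le_mul_right _ hm'
            _ = 2 * (a + 1) * ((a + 1) * b * N + 1) ^ q
                * ((2 ^ ((e + f - b) * N) * ((a ^ (a * b)) ^ N))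
                  * ((t ^ b * s ^ (f - b)) ^ N * (f * N).choose (b * N))) ^ q := by
                simp only [mul_pow]; ring
            _ ≤ 2 * (a + 1) * ((a + 1) * b * N + 1) ^ q
                * ((2 ^ ((e + f - b) * N) * ((a ^ (a * b)) ^ N)) * ((t + s) ^ f) ^ N) ^ q := by
                apply Nat.mul_le_mul_left
                apply Nat.pow_le_pow_left
                exact Nat.mul_le_mul_left _ h11
            _ = _ := by
                rw [pow_mul 2 (e + f - b) N, ← mul_pow, ← mul_pow]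
                congr 3
                ring
        have h6 : ((F.card * (((a + 1) ^ ((a + 1) * b) * (t ^ b * s ^ (f - b))) ^ q) ^ N : ℕ) : ℝ)
            ≤ (((2 * (a + 1)) * ((a + 1) * b * N + 1) ^ q
              * ((2 ^ (e + f - b) * ((t + s) ^ f * a ^ (a * b))) ^ q) ^ N : ℕ) : ℝ) := by
          exact_mod_cast h5
        push_cast at h6 ⊢
        exact h6
      nlinarith

end Pool.Agent.Lib.MP_fa373d_co.Exp
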