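import Pool.Agent.Lib.MP_fa373d_co.ExpE

/-!
Exponential gain: all lengths, and subadditivity.
-/

namespace Pool.Agent.Lib.MP_fa373d_co.Exp

open Finset

/-- families without `k` petals have at most `C 2^((1 - 1/X) n)` members -/
def Ex (k : ℕ) (X : ℝ) : Prop :=
  ∃ C : ℝ, 0 < C ∧ ∀ (n : ℕ) (F : Finset (Fin n → Bool)), FF k F →
    (F.card : ℝ) ≤ C * 2 ^ ((1 - 1 / X) * n)

open Classical in
/-- summing over the fibres outside the range of an injection -/
lemma fibre_bound {ι κ' : Type*} [Fintype ι] [DecidableEq ι] [Fintype κ'] [DecidableEq κ']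
    (g : κ' → ι) (hg : Function.Injective g) (F : Finset (ι → Bool)) {G : ℝ}
    (hfib : ∀ p : ι → Bool,
      ((F.filter (fun x => ∀ i, i ∉ Set.range g → x i = p i)).card : ℝ) ≤ G) :
    (F.card : ℝ) ≤ 2 ^ (Fintype.card ι - Fintype.card κ') * G := by
  have hc : Fintype.card {i // i ∉ Set.range g} = Fintype.card ι - Fintype.card κ' := by
    rw [Fintype.card_subtype_compl]
    congr 1
    rw [← Set.card_range_of_injective hg]
  have hmaps : ∀ x ∈ F, (fun (j : {i // i ∉ Set.range g}) => x j.1)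
      ∈ (univ : Finset ({i // i ∉ Set.range g} → Bool)) := fun x _ => mem_univ _
  rw [Finset.card_eq_sum_card_fiberwise hmaps]
  push_cast
  calc ∑ b : ({i // i ∉ Set.range g} → Bool),
        ((F.filter (fun x => (fun (j : {i // i ∉ Set.range g}) => x j.1) = b)).card : ℝ)
      ≤ ∑ _b : ({i // i ∉ Set.range g} → Bool), G := by
        apply Finset.sum_le_sum
        intro b _
        refine le_trans ?_ (hfib (fun i => if h : i ∉ Set.range g then b ⟨i, h⟩ else false))
        have : (F.filter (fun x => (fun (j : {i // i ∉ Set.range g}) => x j.1) = b))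
            ⊆ F.filter (fun x => ∀ i, i ∉ Set.range g → x i
              = (fun i => if h : i ∉ Set.range g then b ⟨i, h⟩ else false) i) := by
          intro x hx
          rw [mem_filter] at hx ⊢
          refine ⟨hx.1, fun i hi => ?_⟩
          simp only [dif_pos hi]
          rw [← hx.2]
        exact_mod_cast Finset.card_le_card this
    _ = _ := by
        rw [Finset.sum_const, Finset.card_univ, nsmul_eq_mul, Fintype.card_fun, Fintype.card_bool,
          hc]
        push_cast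
        ring

open Classical in
/-- a bound for families on `κ'` gives one for families on `ι` all of whose fibres have no `k`
petals -/
lemma fibre_FF {ι κ' : Type*} [Fintype ι] [DecidableEq ι] [Fintype κ'] [DecidableEq κ']
    (g : κ' → ι) (hg : Function.Injective g) (F : Finset (ι → Bool)) {G : ℝ} {k : ℕ}
    (hF : ∀ p : ι → Bool, ∀ F' ⊆ F, (∀ x ∈ F', ∀ i, i ∉ Set.range g → x i = p i) → FF k F')
    (hG : ∀ F' : Finset (κ' → Bool), FF k F' → (F'.card : ℝ) ≤ G) :
    (F.card : ℝ) ≤ 2 ^ (Fintype.card ι - Fintype.card κ') * G := by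
  apply fibre_bound g hg F
  intro p
  have h1 := FF_restrict (hF p (F.filter (fun x => ∀ i, i ∉ Set.range g → x i = p i))
    (filter_subset _ _) (fun x hx => (mem_filter.mp hx).2)) g (by
    intro x hx y hy i hi
    rw [mem_filter] at hx hy
    rw [hx.2 i hi, hy.2 i hi])
  have h2 := hG _ h1.1
  rw [h1.2] at h2
  exact h2

lemma FF_mono {ι : Type*} {k : ℕ} {F F' : Finset (ι → Bool)} (h : F' ⊆ F) (hF : FF k F) :
    FF k F' := fun x hx Y hY hxY hYc => hF x (h hx) Y (hY.trans h) hxY hYc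

/-- the bound for blocks gives the bound for all lengths -/
theorem Ex_of_blocks {k q w : ℕ} (hqw : 1 ≤ q * w) {c : ℝ} (hc : 0 ≤ c)
    (h : ∃ C : ℝ, 0 < C ∧ ∀ (N : ℕ) (F : Finset (Fin q × Fin (w * N) → Bool)),
      FF k F → (F.card : ℝ) ≤ C * ((2 : ℝ) ^ (c * (q * w))) ^ N) :
    ∃ C : ℝ, 0 < C ∧ ∀ (n : ℕ) (F : Finset (Fin n → Bool)), FF k F →
      (F.card : ℝ) ≤ C * 2 ^ (c * n) := by
  classical
  obtain ⟨C, hC, hb⟩ := h
  refine ⟨2 ^ (q * w) * C, by positivity, ?_⟩
  intro n F hF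
  set N := n / (q * w) with hN
  have hNn : q * (w * N) ≤ n := by
    have := Nat.div_mul_le_self n (q * w)
    rw [← hN] at this
    calc q * (w * N) = N * (q * w) := by ring
      _ ≤ n := this
  have hmod : n - q * (w * N) ≤ q * w := by
    have h1 := Nat.div_add_mod n (q * w)
    have h2 := Nat.mod_lt n (show q * w > 0 by omega)
    rw [← hN] at h1
    have h3 : q * (w * N) = q * w * N := by ring
    omega
  -- the injection
  set g : Fin q × Fin (w * N) → Fin n := fun p => Fin.castLE hNn (finProdFinEquiv p) with hg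
  have hginj : Function.Injective g := by
    intro p p' hpp'
    exact finProdFinEquiv.injective (Fin.castLE_injective hNn hpp')
  have h1 := fibre_FF g hginj F (k := k) (G := C * ((2 : ℝ) ^ (c * (q * w))) ^ N)
    (fun p F' hF' _ => FF_mono hF' hF) (fun F' hF' => hb N F' hF')
  rw [Fintype.card_fin, Fintype.card_prod, Fintype.card_fin, Fintype.card_fin] at h1
  refine h1.trans ?_
  have h2 : (2 : ℝ) ^ (n - q * (w * N)) ≤ 2 ^ (q * w) := pow_le_pow_right₀ (by norm_num) hmod
  have h3 : ((2 : ℝ) ^ (c * (q * w))) ^ N ≤ 2 ^ (c * n) := by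
    rw [← Real.rpow_natCast, ← Real.rpow_mul (by norm_num)]
    apply Real.rpow_le_rpow_of_exponent_le (by norm_num)
    have h4 : (q * (w * N) : ℝ) ≤ n := by exact_mod_cast hNn
    calc c * (q * w) * N = c * (q * (w * N)) := by ring
      _ ≤ c * n := mul_le_mul_of_nonneg_left h4 hc
  calc (2 : ℝ) ^ (n - q * (w * N)) * (C * ((2 : ℝ) ^ (c * (q * w))) ^ N)
      ≤ 2 ^ (q * w) * (C * 2 ^ (c * n)) := by
        apply mul_le_mul h2 _ (by positivity) (by positivity)
        exact mul_le_mul_of_nonneg_left h3 hC.le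
    _ = _ := by ring

/-- `x` has `k` petals in `F` inside `R` -/
def Pet {ι : Type*} (k : ℕ) (F : Finset (ι → Bool)) (R : Set ι) (x : ι → Bool) : Prop :=
  ∃ Y ⊆ F, Y.card = k ∧ (∀ y ∈ Y, y ≠ x ∧ ∀ i, i ∉ R → y i = x i) ∧
    (∀ y ∈ Y, ∀ z ∈ Y, y ≠ z → ∀ i, y i = x i ∨ z i = x i)

/-- members without `k` petals inside `R`, with a fixed pattern off `R`, form a family without `k`
petals -/
lemma FF_fibre_Pet {ι : Type*} {k : ℕ} (F F' : Finset (ι → Bool)) (R : Set ι) (p : ι → Bool)
    (hF' : ∀ x ∈ F', x ∈ F ∧ ¬ Pet k F R x) (hp : ∀ x ∈ F', ∀ i, i ∉ R → x i = p i) :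
    FF k F' := by
  intro x hx Y hY hxY hYc hdis
  apply (hF' x hx).2
  refine ⟨Y, fun y hy => (hF' y (hY hy)).1, hYc, fun y hy => ⟨?_, ?_⟩, hdis⟩
  · rintro rfl
    exact hxY hy
  · intro i hi
    rw [hp y (hY hy) i hi, hp x hx i hi]

/-- petals inside disjoint sets can be put together -/
lemma Pet_union {ι : Type*} [DecidableEq ι] {k l : ℕ} {F : Finset (ι → Bool)}
    (hF : FF (k + l) F) {R R' : Set ι} (hR : Disjoint R R') {x : ι → Bool} (hx : x ∈ F)
    (h1 : Pet k F R x) (h2 : Pet l F R' x) : False := by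
  classical
  obtain ⟨Y, hYF, hYc, hY1, hY2⟩ := h1
  obtain ⟨Z, hZF, hZc, hZ1, hZ2⟩ := h2
  have hcross : ∀ y ∈ Y, ∀ z ∈ Z, ∀ i, y i = x i ∨ z i = x i := by
    intro y hy z hz i
    by_cases hi : i ∈ R
    · right
      exact (hZ1 z hz).2 i (fun h => (Set.disjoint_left.mp hR) hi h)
    · left
      exact (hY1 y hy).2 i hi
  have hdisj : Disjoint Y Z := by
    rw [Finset.disjoint_left]
    intro y hy hz
    apply (hY1 y hy).1
    funext i
    rcases hcross y hy y hz i with h | h <;> exact h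
  apply hF x hx (Y ∪ Z)
  · exact Finset.union_subset hYF hZF
  · rw [mem_union, not_or]
    exact ⟨fun h => (hY1 x h).1 rfl, fun h => (hZ1 x h).1 rfl⟩
  · rw [Finset.card_union_of_disjoint hdisj, hYc, hZc]
  · intro a ha b hb hab i
    rw [mem_union] at ha hb
    rcases ha with ha | ha <;> rcases hb with hb | hb
    · exact hY2 a ha b hb hab i
    · exact hcross a ha b hb i
    · exact (hcross b hb a ha i).symm
    · exact hZ2 a ha b hb hab i

/-- the two-block inequality -/
lemma two_block {k l m m' : ℕ} {F : Finset (Fin (m + m') → Bool)} (hF : FF (k + l) F)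
    {G G' : ℝ} (hG : ∀ F' : Finset (Fin m → Bool), FF k F' → (F'.card : ℝ) ≤ G)
    (hG' : ∀ F' : Finset (Fin m' → Bool), FF l F' → (F'.card : ℝ) ≤ G') :
    (F.card : ℝ) ≤ 2 ^ m' * G + 2 ^ m * G' := by
  classical
  obtain ⟨g, hginj, g', hginj', hdis⟩ : ∃ g : Fin m → Fin (m + m'), Function.Injective g ∧
      ∃ g' : Fin m' → Fin (m + m'), Function.Injective g' ∧
        Disjoint (Set.range g) (Set.range g') := by
    refine ⟨Fin.castAdd m', Fin.castAdd_injective m m', Fin.natAdd m,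
      Fin.natAdd_injective m' m, ?_⟩
    rw [Set.disjoint_left]
    rintro _ ⟨i, rfl⟩ ⟨j, hj⟩
    have h1 : (Fin.natAdd m j).val = (Fin.castAdd m' i).val := by rw [hj]
    have h2 : (Fin.natAdd m j).val = m + j.val := rfl
    have h3 : (Fin.castAdd m' i).val = i.val := rfl
    have := i.isLt
    omega
  have hsub : F ⊆ F.filter (fun x => ¬ Pet k F (Set.range g) x)
      ∪ F.filter (fun x => ¬ Pet l F (Set.range g') x) := by
    intro x hx
    rw [mem_union, mem_filter, mem_filter]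
    by_cases h : Pet k F (Set.range g) x
    · right
      exact ⟨hx, fun h' => Pet_union hF hdis hx h h'⟩
    · exact Or.inl ⟨hx, h⟩
  have h1 := fibre_FF g hginj (F.filter (fun x => ¬ Pet k F (Set.range g) x)) (k := k) (G := G)
    (fun p F' hF' hp => FF_fibre_Pet F F' (Set.range g) p
      (fun x hx => mem_filter.mp (hF' hx)) hp) hG
  have h2 := fibre_FF g' hginj' (F.filter (fun x => ¬ Pet l F (Set.range g') x)) (k := l)
    (G := G') (fun p F' hF' hp => FF_fibre_Pet F F' (Set.range g') p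
      (fun x hx => mem_filter.mp (hF' hx)) hp) hG'
  rw [Fintype.card_fin, Fintype.card_fin] at h1 h2
  rw [Nat.add_sub_cancel_left] at h1
  rw [Nat.add_sub_cancel] at h2
  have h3 := (Finset.card_le_card hsub).trans (Finset.card_union_le _ _)
  have h4 : (F.card : ℝ) ≤ ((F.filter (fun x => ¬ Pet k F (Set.range g) x)).card : ℝ)
      + ((F.filter (fun x => ¬ Pet l F (Set.range g') x)).card : ℝ) := by exact_mod_cast h3
  linarith

/-- subadditivity -/
theorem Ex_add {k l : ℕ} {X Y : ℝ} (hX : 1 ≤ X) (hY : 1 ≤ Y) (h : Ex k X) (h' : Ex l Y) :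
    Ex (k + l) (X + Y) := by
  obtain ⟨C, hC, hb⟩ := h
  obtain ⟨C', hC', hb'⟩ := h'
  refine ⟨2 * (C + C'), by positivity, ?_⟩
  intro n F hF
  have hXY : 0 < X + Y := by linarith
  obtain ⟨m, hm1, hm2⟩ : ∃ m : ℕ, (m : ℝ) ≤ n * X / (X + Y) ∧ (n : ℝ) * X / (X + Y) < m + 1 :=
    ⟨⌊(n : ℝ) * X / (X + Y)⌋₊, Nat.floor_le (by positivity), Nat.lt_floor_add_one _⟩
  have hmn : m ≤ n := by
    have : (m : ℝ) ≤ n := by
      refine hm1.trans ?_
      rw [div_le_iff₀ hXY]
      have : (0 : ℝ) ≤ n := by positivity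
      nlinarith
    exact_mod_cast this
  obtain ⟨m', hm'⟩ := Nat.exists_eq_add_of_le hmn
  subst hm'
  have key := two_block hF (fun F' hF' => hb m F' hF') (fun F' hF' => hb' m' F' hF')
  refine key.trans ?_
  obtain ⟨E, hE⟩ : ∃ E : ℝ, E = (2 : ℝ) ^ ((1 - 1 / (X + Y)) * ((m + m' : ℕ) : ℝ)) := ⟨_, rfl⟩
  rw [← hE]
  push_cast at hm1 hm2
  have hXY1 : (m : ℝ) * Y ≤ m' * X := by
    rw [le_div_iff₀ hXY] at hm1
    nlinarith
  have hXY2 : (m' : ℝ) * X < m * Y + (X + Y) := by
    rw [div_lt_iff₀ hXY] at hm2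
    nlinarith
  have hX0 : 0 < X := by linarith
  have hY0 : 0 < Y := by linarith
  -- first exponent
  have e1 : (2 : ℝ) ^ m' * (C * 2 ^ ((1 - 1 / X) * (m : ℝ))) ≤ 2 * C * E := by
    have : (2 : ℝ) ^ m' * 2 ^ ((1 - 1 / X) * (m : ℝ)) ≤ 2 * E := by
      have e3 : (2 : ℝ) * E = 2 ^ (1 + (1 - 1 / (X + Y)) * ((m + m' : ℕ) : ℝ)) := by
        rw [Real.rpow_add (by norm_num), Real.rpow_one, hE]
      rw [e3, ← Real.rpow_natCast, ← Real.rpow_add (by norm_num)]
      apply Real.rpow_le_rpow_of_exponent_le (by norm_num)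
      push_cast
      have e4 : 1 / (X + Y) * ((m : ℝ) + m') ≤ 1 + 1 / X * m := by
        have : 1 / (X + Y) * ((m : ℝ) + m') * (X * (X + Y)) ≤ (1 + 1 / X * m) * (X * (X + Y)) := by
          have a1 : 1 / (X + Y) * ((m : ℝ) + m') * (X * (X + Y)) = X * (m + m') := by
            field_simp
          have a2 : (1 + 1 / X * m) * (X * (X + Y)) = X * (X + Y) + m * (X + Y) := by
            field_simp
          rw [a1, a2]
          nlinarith
        exact le_of_mul_le_mul_right this (by positivity)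
      linarith
    calc (2 : ℝ) ^ m' * (C * 2 ^ ((1 - 1 / X) * (m : ℝ)))
        = C * ((2 : ℝ) ^ m' * 2 ^ ((1 - 1 / X) * (m : ℝ))) := by ring
      _ ≤ C * (2 * E) := mul_le_mul_of_nonneg_left this hC.le
      _ = _ := by ring
  have e2 : (2 : ℝ) ^ m * (C' * 2 ^ ((1 - 1 / Y) * (m' : ℝ))) ≤ 2 * C' * E := by
    have : (2 : ℝ) ^ m * 2 ^ ((1 - 1 / Y) * (m' : ℝ)) ≤ 2 * E := by
      have e3 : (2 : ℝ) * E = 2 ^ (1 + (1 - 1 / (X + Y)) * ((m + m' : ℕ) : ℝ)) := by
        rw [Real.rpow_add (by norm_num), Real.rpow_one, hE]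
      rw [e3, ← Real.rpow_natCast, ← Real.rpow_add (by norm_num)]
      apply Real.rpow_le_rpow_of_exponent_le (by norm_num)
      push_cast
      have e4 : 1 / (X + Y) * ((m : ℝ) + m') ≤ 1 + 1 / Y * m' := by
        have : 1 / (X + Y) * ((m : ℝ) + m') * (Y * (X + Y)) ≤ (1 + 1 / Y * m') * (Y * (X + Y)) := by
          have a1 : 1 / (X + Y) * ((m : ℝ) + m') * (Y * (X + Y)) = Y * (m + m') := by
            field_simp
          have a2 : (1 + 1 / Y * m') * (Y * (X + Y)) = Y * (X + Y) + m' * (X + Y) := by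
            field_simp
          rw [a1, a2]
          nlinarith
        exact le_of_mul_le_mul_right this (by positivity)
      linarith
    calc (2 : ℝ) ^ m * (C' * 2 ^ ((1 - 1 / Y) * (m' : ℝ)))
        = C' * ((2 : ℝ) ^ m * 2 ^ ((1 - 1 / Y) * (m' : ℝ))) := by ring
      _ ≤ C' * (2 * E) := mul_le_mul_of_nonneg_left this hC'.le
      _ = _ := by ring
  linarith

/-- one petal -/
theorem Ex_one : Ex 1 1 := by
  refine ⟨1, one_pos, ?_⟩
  intro n F hF
  have h1 : F.card ≤ 1 := by
    rw [Finset.card_le_one]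
    intro x hx y hy
    by_contra hne
    apply hF x hx {y} (by simpa using hy) (by simpa using hne) (by simp)
    intro a ha b hb hab
    rw [mem_singleton] at ha hb
    exact absurd (ha.trans hb.symm) hab
  have h2 : (F.card : ℝ) ≤ 1 := by exact_mod_cast h1
  simpa using h2

end Pool.Agent.Lib.MP_fa373d_co.Exp
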