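import Pool.Agent.Lib.MP_fa373d_co.Induct
import Pool.Agent.Lib.MP_fa373d_co.Defs

/-!
Transfer to the definitions of the problem.
-/

namespace Pool.Agent.Lib.MP_fa373d_co

open Finset

lemma FF_of_focalFree {k n : ℕ} {F : Finset (Fin n → Bool)} (hF : FocalFree (k + 1) n F) :
    FF k F := by
  intro x hx Y hY hxY hYc hdis
  set e := (Y.equivFinOfCardEq hYc).symm with he
  set x' : Fin (k + 1) → Fin n → Bool := Fin.cons x (fun j => (e j : Fin n → Bool)) with hx'
  have h0 : x' 0 = x := by simp [hx']
  have hs : ∀ j : Fin k, x' j.succ = (e j : Fin n → Bool) := by intro j; simp [hx']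
  apply hF x' (fun j => ?_) 0
  · constructor
    · intro i j hij
      induction i using Fin.cases with
      | zero =>
        induction j using Fin.cases with
        | zero => rfl
        | succ j =>
          rw [h0, hs] at hij
          exact absurd (hij ▸ (e j).2) hxY
      | succ i =>
        induction j using Fin.cases with
        | zero =>
          rw [h0, hs] at hij
          exact absurd (hij ▸ (e i).2) hxY
        | succ j =>
          rw [hs, hs] at hij
          have := e.injective (Subtype.ext hij)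
          rw [this]
    · intro i
      have h1 : ((univ.filter (fun j : Fin (k + 1) => j ≠ 0)).filter
          (fun j => x' j i = x' 0 i)).card
          + ((univ.filter (fun j : Fin (k + 1) => j ≠ 0)).filter
          (fun j => ¬ (x' j i = x' 0 i))).card = k := by
        rw [Finset.card_filter_add_card_filter_not, Finset.filter_ne', Finset.card_erase_of_mem
          (mem_univ _), Finset.card_univ, Fintype.card_fin]
        rfl
      have h2 : ((univ.filter (fun j : Fin (k + 1) => j ≠ 0)).filter
          (fun j => ¬ (x' j i = x' 0 i))).card ≤ 1 := by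
        rw [Finset.card_le_one]
        intro p hp q hq
        simp only [mem_filter, mem_univ, true_and] at hp hq
        induction p using Fin.cases with
        | zero => exact absurd rfl hp.1
        | succ p =>
          induction q using Fin.cases with
          | zero => exact absurd rfl hq.1
          | succ q =>
            by_contra hne
            have hpq : p ≠ q := fun h => hne (by rw [h])
            rw [hs, h0] at hp hq
            have h3 : (e p : Fin n → Bool) ≠ (e q : Fin n → Bool) := by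
              intro h
              exact hpq (e.injective (Subtype.ext h))
            rcases hdis _ (e p).2 _ (e q).2 h3 i with h | h
            · exact hp.2 h
            · exact hq.2 h
      have h3 : univ.filter (fun j : Fin (k + 1) => j ≠ 0 ∧ x' j i = x' 0 i)
          = (univ.filter (fun j : Fin (k + 1) => j ≠ 0)).filter (fun j => x' j i = x' 0 i) := by
        rw [Finset.filter_filter]
      rw [h3]
      omega
  · induction j using Fin.cases with
    | zero => rw [h0]; exact hx
    | succ j => rw [hs]; exact hY (e j).2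

lemma gff_isGreatest (r n : ℕ) (hr : 1 ≤ r) :
    IsGreatest {k : ℕ | ∃ F : Finset (Fin n → Bool), FocalFree r n F ∧ F.card = k} (gff r n) := by
  have hne : {k : ℕ | ∃ F : Finset (Fin n → Bool), FocalFree r n F ∧ F.card = k}.Nonempty := by
    refine ⟨0, ∅, ?_, by simp⟩
    intro x hx
    have := hx ⟨0, by omega⟩
    simp at this
  have hbd : BddAbove {k : ℕ | ∃ F : Finset (Fin n → Bool), FocalFree r n F ∧ F.card = k} := by
    refine ⟨(univ : Finset (Fin n → Bool)).card, ?_⟩
    rintro k ⟨F, _, rfl⟩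
    exact Finset.card_le_univ F
  exact ⟨Nat.sSup_mem hne hbd, fun k hk => le_csSup hbd hk⟩

/-- the quantitative bound -/
theorem gff_le (r : ℕ) (hr : 3 ≤ r) : ∃ C : ℝ, 0 < C ∧ ∀ n : ℕ, 1 ≤ n →
    (gff r n : ℝ) ≤ C * (n : ℝ) ^ (-(1 / (4 * 3 ^ (r - 3)) : ℝ))
      * 2 ^ (((r : ℝ) - 2) * n / ((r : ℝ) - 1)) := by
  obtain ⟨k, rfl⟩ : ∃ k, r = k + 3 := ⟨r - 3, by omega⟩
  obtain ⟨C, hC, hb⟩ := bd_all k
  refine ⟨C, hC, ?_⟩
  intro n hn
  obtain ⟨F, hF, hFc⟩ := (gff_isGreatest (k + 3) n (by omega)).1
  have h1 := hb n F (FF_of_focalFree hF)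
  rw [← hFc]
  refine h1.trans ?_
  have hn0 : (0 : ℝ) < n := by exact_mod_cast hn
  have e : (((k + 2 : ℕ) : ℝ) - 1) / ((k + 2 : ℕ) : ℝ) * n
      = (((k + 3 : ℕ) : ℝ) - 2) * n / (((k + 3 : ℕ) : ℝ) - 1) := by
    push_cast
    have : (k : ℝ) + 3 - 1 = k + 2 := by ring
    rw [this]
    ring
  rw [e]
  have e2 : k + 3 - 3 = k := by omega
  rw [e2]
  apply mul_le_mul_of_nonneg_right _ (by positivity)
  apply mul_le_mul_of_nonneg_left _ hC.le
  apply Real.rpow_le_rpow_of_nonpos hn0 (by linarith)
  have : (0 : ℝ) < 1 / (4 * 3 ^ k) := by positivity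
  linarith

/-- the upper bound of the literature is not tight, even up to a constant factor -/
theorem not_tight (r : ℕ) (hr : 3 ≤ r) :
    Filter.Tendsto (fun n : ℕ => (gff r n : ℝ)
      / (((r : ℝ) - 1) * 2 ^ ⌈((r : ℝ) - 2) * n / ((r : ℝ) - 1)⌉₊)) Filter.atTop (nhds 0) := by
  obtain ⟨C, hC, hb⟩ := gff_le r hr
  have hc : (0 : ℝ) < 1 / (4 * 3 ^ (r - 3)) := by positivity
  have hr' : (3 : ℝ) ≤ r := by exact_mod_cast hr
  have hlim : Filter.Tendsto (fun n : ℕ => C * (n : ℝ) ^ (-(1 / (4 * 3 ^ (r - 3)) : ℝ)))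
      Filter.atTop (nhds 0) := by
    have := ((tendsto_rpow_neg_atTop hc).comp tendsto_natCast_atTop_atTop).const_mul C
    simpa using this
  apply squeeze_zero' _ _ hlim
  · filter_upwards with n
    have : (0 : ℝ) ≤ (r : ℝ) - 1 := by linarith
    positivity
  · filter_upwards [Filter.eventually_ge_atTop 1] with n hn
    have h1 := hb n hn
    have h2 : (2 : ℝ) ^ (((r : ℝ) - 2) * n / ((r : ℝ) - 1))
        ≤ ((r : ℝ) - 1) * 2 ^ ⌈((r : ℝ) - 2) * n / ((r : ℝ) - 1)⌉₊ := by
      have h3 : (2 : ℝ) ^ (((r : ℝ) - 2) * n / ((r : ℝ) - 1))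
          ≤ 2 ^ ⌈((r : ℝ) - 2) * n / ((r : ℝ) - 1)⌉₊ := by
        rw [← Real.rpow_natCast]
        exact Real.rpow_le_rpow_of_exponent_le (by norm_num) (Nat.le_ceil _)
      have h4 : (0 : ℝ) < 2 ^ ⌈((r : ℝ) - 2) * n / ((r : ℝ) - 1)⌉₊ := by positivity
      nlinarith
    have h5 : (0 : ℝ) < ((r : ℝ) - 1) * 2 ^ ⌈((r : ℝ) - 2) * n / ((r : ℝ) - 1)⌉₊ := by
      have : (0 : ℝ) < (r : ℝ) - 1 := by linarith
      positivity
    rw [div_le_iff₀ h5]
    refine h1.trans ?_
    apply mul_le_mul_of_nonneg_left h2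
    positivity

end Pool.Agent.Lib.MP_fa373d_co
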