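import Pool.Agent.Lib.MP_fa373d_co.ExpF
import Pool.Agent.Lib.MP_fa373d_co.Final

/-!
Exponential gain: the numerical cases and the final bounds.
-/

namespace Pool.Agent.Lib.MP_fa373d_co

open Finset

/-- the upper exponential growth rate of `gff r n`, that is
`limsup_{n → ∞} (1/n) log_2 (gff r n)` -/
noncomputable def sigmaPlus (r : ℕ) : ℝ :=
  Filter.limsup (fun n : ℕ => Real.logb 2 (gff r n) / n) Filter.atTop

end Pool.Agent.Lib.MP_fa373d_co

namespace Pool.Agent.Lib.MP_fa373d_co.Exp

open Finset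

/-- from the numerical conditions to a rate -/
theorem Ex_of_params (q a e f u b L t s p r : ℕ) (hq : 1 ≤ q) (hb : 1 ≤ b)
    (hab : (a + 1) * b + u ≤ f) (hL : 2 ≤ L) (hLe : L * (e * f) ≤ (L - 1) * ((e + f) * u))
    (hr0 : 1 ≤ r) (hr : r ≤ p) (ht : 1 ≤ t) (hs : 1 ≤ s) (hp : 1 ≤ p)
    (hA : (e ^ e * f ^ f) ^ p * 2 ^ (r * (q * (e + f))) < ((e + f) ^ (e + f)) ^ p)
    (hB : ((t + s) ^ f * a ^ (a * b)) ^ p * 2 ^ (r * (e + f))
      < ((a + 1) ^ ((a + 1) * b) * (t ^ b * s ^ (f - b)) * 2 ^ b) ^ p) :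
    Ex (q + (a + 1)) ((p : ℝ) / r) := by
  have h := block_bound q a e f u b L t s p r hq hb hab hL hLe hr ht hs hp hA hB
  have hp0 : (0 : ℝ) < p := by exact_mod_cast hp
  have hr0' : (0 : ℝ) < r := by exact_mod_cast hr0
  have hrp : (r : ℝ) / p ≤ 1 := by
    rw [div_le_one hp0]; exact_mod_cast hr
  have hbf : 1 ≤ f := by nlinarith
  have h2 := Ex_of_blocks (k := q + (a + 1)) (q := q) (w := e + f)
    (Nat.mul_pos hq (by omega)) (c := 1 - (r : ℝ) / p) (by linarith) (by
      obtain ⟨C, hC, hb⟩ := h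
      refine ⟨C, hC, fun N F hF => ?_⟩
      have := hb N F hF
      push_cast
      exact this)
  obtain ⟨C, hC, hb⟩ := h2
  refine ⟨C, hC, fun n F hF => ?_⟩
  have := hb n F hF
  rw [one_div_div]
  exact this

set_option maxRecDepth 100000 in
theorem Ex_three : Ex 3 (543 / 200) := by
  have h := Ex_of_params 1 1 15 196 14 91 211 13 15 543 200 (by norm_num) (by norm_num)
    (by norm_num) (by norm_num) (by norm_num) (by norm_num) (by norm_num) (by norm_num)
    (by norm_num) (by norm_num) (by decide +kernel) (by decide +kernel)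
  norm_num at h
  exact h

set_option maxRecDepth 100000 in
theorem Ex_four : Ex 4 (723 / 200) := by
  have h := Ex_of_params 2 1 16 108 14 47 400 47 61 723 200 (by norm_num) (by norm_num)
    (by norm_num) (by norm_num) (by norm_num) (by norm_num) (by norm_num) (by norm_num)
    (by norm_num) (by norm_num) (by decide +kernel) (by decide +kernel)
  norm_num at h
  exact h

set_option maxRecDepth 100000 in
theorem Ex_five : Ex 5 (889 / 200) := by
  have h := Ex_of_params 2 2 22 209 20 63 400 63 146 889 200 (by norm_num) (by norm_num)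
    (by norm_num) (by norm_num) (by norm_num) (by norm_num) (by norm_num) (by norm_num)
    (by norm_num) (by norm_num) (by decide +kernel) (by decide +kernel)
  norm_num at h
  exact h

set_option maxRecDepth 100000 in
theorem Ex_seven : Ex 7 (247 / 40) := by
  have h := Ex_of_params 3 3 29 246 26 55 1000 55 191 247 40 (by norm_num) (by norm_num)
    (by norm_num) (by norm_num) (by norm_num) (by norm_num) (by norm_num) (by norm_num)
    (by norm_num) (by norm_num) (by decide +kernel) (by decide +kernel)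
  norm_num at h
  exact h

set_option maxRecDepth 100000 in
theorem Ex_forty : Ex 40 (173 / 5) := by
  have h := Ex_of_params 20 19 52 325 45 14 5000 14 311 173 5 (by norm_num) (by norm_num)
    (by norm_num) (by norm_num) (by norm_num) (by norm_num) (by norm_num) (by norm_num)
    (by norm_num) (by norm_num) (by decide +kernel) (by decide +kernel)
  norm_num at h
  exact h

/-- adding copies of a base case and single petals -/
theorem Ex_family {k0 : ℕ} {X0 : ℝ} (hX0 : 1 ≤ X0) (h0 : Ex k0 X0) :
    ∀ k : ℕ, 1 ≤ k → Ex k ((k : ℝ) - (k0 - X0) * ((k / k0 : ℕ) : ℝ)) ∧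
      1 ≤ (k : ℝ) - (k0 - X0) * ((k / k0 : ℕ) : ℝ) := by
  -- single petals
  have hsing : ∀ s : ℕ, Ex (s + 1) ((s : ℝ) + 1) := by
    intro s
    induction s with
    | zero => simpa using Ex_one
    | succ s ih =>
      have := Ex_add (by
        have : (0 : ℝ) ≤ s := by positivity
        linarith) le_rfl ih Ex_one
      push_cast at this ⊢
      exact this
  -- copies
  have hcop : ∀ j : ℕ, Ex ((j + 1) * k0) (((j : ℝ) + 1) * X0) := by
    intro j
    induction j with
    | zero => simpa using h0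
    | succ j ih =>
      have := Ex_add (by
        have : (0 : ℝ) ≤ j := by positivity
        nlinarith) hX0 ih h0
      have e1 : (j + 1) * k0 + k0 = (j + 1 + 1) * k0 := by ring
      have e2 : ((j : ℝ) + 1) * X0 + X0 = (((j + 1 : ℕ) : ℝ) + 1) * X0 := by push_cast; ring
      rw [e1, e2] at this
      exact this
  intro k hk
  have hdm := Nat.div_add_mod k k0
  set j := k / k0 with hj
  set s := k % k0 with hs
  have hkr : (k : ℝ) = k0 * j + s := by exact_mod_cast hdm.symm
  have hval : (k : ℝ) - (k0 - X0) * (j : ℝ) = j * X0 + s := by rw [hkr]; ring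
  rw [hval]
  have hs0 : (0 : ℝ) ≤ s := by positivity
  have hj0 : (0 : ℝ) ≤ j := by positivity
  rcases Nat.eq_zero_or_pos j with h1 | h1
  · -- only single petals
    have hs1 : s = k := by rw [h1] at hdm; omega
    rw [h1, hs1]
    obtain ⟨k', rfl⟩ : ∃ k', k = k' + 1 := ⟨k - 1, by omega⟩
    have := hsing k'
    constructor
    · push_cast
      rw [zero_mul, zero_add]
      exact this
    · push_cast
      have : (0 : ℝ) ≤ k' := by positivity
      linarith
  · obtain ⟨j', hj'⟩ : ∃ j', j = j' + 1 := ⟨j - 1, by omega⟩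
    have hjr : (1 : ℝ) ≤ j := by exact_mod_cast h1
    have h2 := hcop j'
    have h3 : ((j' : ℝ) + 1) = j := by rw [hj']; push_cast; ring
    rw [h3, ← hj'] at h2
    have h4 : 1 ≤ (j : ℝ) * X0 := by nlinarith
    rcases Nat.eq_zero_or_pos s with h5 | h5
    · rw [h5] at hdm ⊢
      rw [add_zero, mul_comm] at hdm
      rw [hdm] at h2
      constructor
      · simpa using h2
      · simpa using h4
    · obtain ⟨s', hs'⟩ : ∃ s', s = s' + 1 := ⟨s - 1, by omega⟩
      have h6 := Ex_add h4 (by
        have : (0 : ℝ) ≤ s' := by positivity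
        linarith) h2 (hsing s')
      have e1 : j * k0 + (s' + 1) = k := by rw [← hs', mul_comm]; exact hdm
      have e2 : (j : ℝ) * X0 + ((s' : ℝ) + 1) = j * X0 + s := by rw [hs']; push_cast; ring
      rw [e1, e2] at h6
      exact ⟨h6, by linarith⟩

/-- the number of members of a largest focal-free family -/
theorem gff_le_of_Ex {k : ℕ} {X : ℝ} (h : Ex k X) : ∃ C : ℝ, 0 < C ∧ ∀ n : ℕ,
    (gff (k + 1) n : ℝ) ≤ C * 2 ^ ((1 - 1 / X) * n) := by
  obtain ⟨C, hC, hb⟩ := h
  refine ⟨C, hC, fun n => ?_⟩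
  obtain ⟨F, hF, hFc⟩ := (gff_isGreatest (k + 1) n (by omega)).1
  rw [← hFc]
  exact hb n F (FF_of_focalFree hF)

lemma one_le_gff {r : ℕ} (hr : 2 ≤ r) (n : ℕ) : 1 ≤ gff r n := by
  apply (gff_isGreatest r n (by omega)).2
  refine ⟨{fun _ => false}, ?_, by simp⟩
  intro x hx a hfoc
  have h1 := hfoc.1
  have h2 : x ⟨0, by omega⟩ = x ⟨1, by omega⟩ := by
    have h3 := hx ⟨0, by omega⟩
    have h4 := hx ⟨1, by omega⟩
    rw [mem_singleton] at h3 h4
    rw [h3, h4]
  have := congrArg Fin.val (h1 h2)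
  simp at this

/-- a bound with a constant gives a bound of the growth rate -/
theorem sigmaPlus_le {r : ℕ} (hr : 2 ≤ r) {c : ℝ}
    (h : ∃ C : ℝ, 0 < C ∧ ∀ n : ℕ, (gff r n : ℝ) ≤ C * 2 ^ (c * n)) : sigmaPlus r ≤ c := by
  obtain ⟨C, hC, hb⟩ := h
  have hlim : Filter.Tendsto (fun n : ℕ => Real.logb 2 C / n + c) Filter.atTop (nhds c) := by
    have h1 : Filter.Tendsto (fun n : ℕ => Real.logb 2 C / n) Filter.atTop (nhds 0) :=
      tendsto_const_div_atTop_nhds_zero_nat _
    simpa using h1.add_const c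
  have hle : (fun n : ℕ => Real.logb 2 (gff r n) / n) ≤ᶠ[Filter.atTop]
      (fun n : ℕ => Real.logb 2 C / n + c) := by
    filter_upwards [Filter.eventually_ge_atTop 1] with n hn
    have hn0 : (0 : ℝ) < n := by exact_mod_cast hn
    have hg : (0 : ℝ) < gff r n := by exact_mod_cast one_le_gff hr n
    have h1 := Real.logb_le_logb_of_le (b := 2) (by norm_num) hg (hb n)
    rw [Real.logb_mul hC.ne' (by positivity), Real.logb_rpow (by norm_num) (by norm_num)] at h1
    rw [div_add' _ _ _ hn0.ne', div_le_div_iff_of_pos_right hn0]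
    exact h1
  have hcob : Filter.IsCoboundedUnder (· ≤ ·) Filter.atTop
      (fun n : ℕ => Real.logb 2 (gff r n) / n) := by
    apply Filter.IsBoundedUnder.isCoboundedUnder_le
    refine ⟨0, ?_⟩
    rw [Filter.eventually_map]
    filter_upwards with n
    have hg : (1 : ℝ) ≤ gff r n := by exact_mod_cast one_le_gff hr n
    have : 0 ≤ Real.logb 2 (gff r n) := Real.logb_nonneg (by norm_num) hg
    positivity
  calc sigmaPlus r ≤ Filter.limsup (fun n : ℕ => Real.logb 2 C / n + c) Filter.atTop :=
        Filter.limsup_le_limsup hle hcob hlim.isBoundedUnder_le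
    _ = c := hlim.limsup_eq

end Pool.Agent.Lib.MP_fa373d_co.Exp
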