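import Pool.Agent.Lib.MP_fa373d_co.ExpG

/-!
Exponential gain: the final bounds.
-/

namespace Pool.Agent.Lib.MP_fa373d_co.Exp

open Finset

/-- the value of `1 / (1 - rate)` obtained from `m` petals with gain `δ` -/
noncomputable def XX (m : ℕ) (δ : ℝ) (r : ℕ) : ℝ := (r : ℝ) - 1 - δ * (((r - 1) / m : ℕ) : ℝ)

theorem base_cases : ∀ p ∈ ([(3, 57 / 200), (4, 77 / 200), (5, 111 / 200), (7, 33 / 40),
    (40, 27 / 5)] : List (ℕ × ℝ)), Ex p.1 ((p.1 : ℝ) - p.2) ∧ 1 ≤ (p.1 : ℝ) - p.2 := by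
  intro p hp
  simp only [List.mem_cons, List.not_mem_nil, or_false] at hp
  rcases hp with rfl | rfl | rfl | rfl | rfl
  · refine ⟨?_, by norm_num⟩
    have h := Ex_three
    norm_num
    exact h
  · refine ⟨?_, by norm_num⟩
    have h := Ex_four
    norm_num
    exact h
  · refine ⟨?_, by norm_num⟩
    have h := Ex_five
    norm_num
    exact h
  · refine ⟨?_, by norm_num⟩
    have h := Ex_seven
    norm_num
    exact h
  · refine ⟨?_, by norm_num⟩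
    have h := Ex_forty
    norm_num
    exact h

/-- the bounds for all `r ≥ 2` -/
theorem all_bounds (r : ℕ) (hr : 2 ≤ r) (p : ℕ × ℝ)
    (hp : p ∈ ([(3, 57 / 200), (4, 77 / 200), (5, 111 / 200), (7, 33 / 40),
      (40, 27 / 5)] : List (ℕ × ℝ))) :
    1 ≤ XX p.1 p.2 r ∧
    (∃ C : ℝ, 0 < C ∧ ∀ n : ℕ, (gff r n : ℝ) ≤ C * 2 ^ ((1 - 1 / XX p.1 p.2 r) * n)) ∧
    sigmaPlus r ≤ 1 - 1 / XX p.1 p.2 r := by
  obtain ⟨h0, h1⟩ := base_cases p hp
  obtain ⟨k, rfl⟩ : ∃ k, r = k + 1 := ⟨r - 1, by omega⟩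
  have h2 := Ex_family h1 h0 k (by omega)
  have e : (k : ℝ) - ((p.1 : ℝ) - ((p.1 : ℝ) - p.2)) * ((k / p.1 : ℕ) : ℝ)
      = XX p.1 p.2 (k + 1) := by
    unfold XX
    rw [Nat.add_sub_cancel]
    push_cast
    ring
  rw [e] at h2
  have h3 := gff_le_of_Ex h2.1
  exact ⟨h2.2, h3, sigmaPlus_le hr h3⟩

/-- strict improvement for every `r ≥ 4` -/
theorem strict (r : ℕ) (hr : 4 ≤ r) : sigmaPlus r < ((r : ℝ) - 2) / ((r : ℝ) - 1) := by
  have h := all_bounds r (by omega) (3, 57 / 200) (by simp)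
  obtain ⟨h1, _, h3⟩ := h
  refine lt_of_le_of_lt h3 ?_
  have hr' : (4 : ℝ) ≤ r := by exact_mod_cast hr
  have hr1 : (0 : ℝ) < (r : ℝ) - 1 := by linarith
  have h4 : XX 3 (57 / 200) r < (r : ℝ) - 1 := by
    unfold XX
    have h5 : 1 ≤ (r - 1) / 3 := by omega
    have h6 : (1 : ℝ) ≤ (((r - 1) / 3 : ℕ) : ℝ) := by exact_mod_cast h5
    linarith
  have h5 : 1 / ((r : ℝ) - 1) < 1 / XX 3 (57 / 200) r :=
    one_div_lt_one_div_of_lt (by linarith) h4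
  have h6 : ((r : ℝ) - 2) / ((r : ℝ) - 1) = 1 - 1 / ((r : ℝ) - 1) := by
    field_simp
    ring
  rw [h6]
  simp only at h5 ⊢
  linarith

/-- the gain for large `r` -/
theorem large (r : ℕ) (hr : 1155 ≤ r) : sigmaPlus r ≤ 1 - 1.15 / ((r : ℝ) - 1) := by
  have h := all_bounds r (by omega) (40, 27 / 5) (by simp)
  obtain ⟨h1, _, h3⟩ := h
  refine h3.trans ?_
  have hr' : (1155 : ℝ) ≤ r := by exact_mod_cast hr
  have hr1 : (0 : ℝ) < (r : ℝ) - 1 := by linarith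
  have h5 : r - 1 ≤ 40 * ((r - 1) / 40) + 39 := by omega
  have h6 : ((r : ℝ) - 1) ≤ 40 * (((r - 1) / 40 : ℕ) : ℝ) + 39 := by
    have h7 : ((r - 1 : ℕ) : ℝ) ≤ ((40 * ((r - 1) / 40) + 39 : ℕ) : ℝ) := by exact_mod_cast h5
    rw [Nat.cast_sub (by omega)] at h7
    push_cast at h7
    exact h7
  have h8 : 1.15 * XX 40 (27 / 5) r ≤ (r : ℝ) - 1 := by
    unfold XX
    norm_num
    linarith
  have h9 : (0 : ℝ) < XX 40 (27 / 5) r := lt_of_lt_of_le one_pos h1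
  have h10 : 1.15 / ((r : ℝ) - 1) ≤ 1 / XX 40 (27 / 5) r := by
    rw [div_le_div_iff₀ hr1 h9]
    linarith
  simp only at h10 ⊢
  linarith

end Pool.Agent.Lib.MP_fa373d_co.Exp
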