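import Pool.Agent.Lib.MP_fa373d_co.Group

/-!
Many members have a partner: the greedy argument; the inequality for families without two petals.
-/

namespace Pool.Agent.Lib.MP_fa373d_co

open Finset

variable {ι : Type*} [Fintype ι] [DecidableEq ι]

lemma pc_mono {G F : Finset (ι → Bool)} (h : G ⊆ F) (L : Finset ι) (m : ℕ) (x : ι → Bool) :
    pc G L m x ≤ pc F L m x := by
  unfold pc
  apply Finset.card_le_card
  intro K hK
  simp only [mem_filter] at hK ⊢
  obtain ⟨h1, y, hy, h2⟩ := hK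
  exact ⟨h1, y, h hy, h2⟩

lemma greedy (F : Finset (ι → Bool)) (L : Finset ι) (m s : ℕ) (hm : 1 ≤ m)
    (hs : 8 * (m + 1) ≤ s) (hl : 8 * m ^ 2 ≤ L.card) (hexp : (s : ℝ) * (4 / 5) ^ m ≤ 3 / 4) :
    ∀ (N : ℕ) (F' : Finset (ι → Bool)), F'.card ≤ N → F' ⊆ F →
      (∀ x ∈ F', ∀ y ∈ F', x ≠ y → (∀ i ∉ L, x i = y i) → 2 * L.card ≤ 5 * (df L x y).card) →
      (L.card.choose m : ℝ) * (1 / 2) ^ m * ((s : ℝ) / 4)
        * ((F'.card : ℝ) - s * 2 ^ (Fintype.card ι - L.card)) ≤ ∑ x ∈ F', (pc F L m x : ℝ) := by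
  intro N
  induction N with
  | zero =>
    intro F' hN _ _
    have h0 : F' = ∅ := by
      rw [← Finset.card_eq_zero]; omega
    subst h0
    simp only [card_empty, Nat.cast_zero, zero_sub, sum_empty]
    have : (0 : ℝ) ≤ (L.card.choose m : ℝ) * (1 / 2) ^ m * ((s : ℝ) / 4)
        * (s * 2 ^ (Fintype.card ι - L.card)) := by positivity
    linarith
  | succ N ih =>
    intro F' hN hsub hsep
    rcases Nat.lt_or_ge (2 ^ (Fintype.card ι - L.card) * (s - 1)) F'.card with h | h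
    · obtain ⟨G, hGsub, hGc, hGL⟩ := pigeon F' L (s - 1) h
      have hGc' : G.card = s := by omega
      have hg := group_bound G L m hGL
        (fun x hx y hy hxy => hsep x (hGsub hx) y (hGsub hy) hxy (hGL x hx y hy)) hm
        (by omega) hl (by rw [hGc']; exact hexp)
      have hcard : (F' \ G).card = F'.card - s := by
        rw [card_sdiff_of_subset hGsub, hGc']
      have hle := Finset.card_le_card hGsub
      have hi := ih (F' \ G) (by omega) (sdiff_subset.trans hsub)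
        (fun x hx y hy => hsep x (sdiff_subset hx) y (sdiff_subset hy))
      rw [hcard, Nat.cast_sub (by omega)] at hi
      have hsum : ∑ x ∈ F', (pc F L m x : ℝ)
          = ∑ x ∈ F' \ G, (pc F L m x : ℝ) + ∑ x ∈ G, (pc F L m x : ℝ) :=
        (Finset.sum_sdiff hGsub).symm
      have hmono : ∑ x ∈ G, (pc G L m x : ℝ) ≤ ∑ x ∈ G, (pc F L m x : ℝ) := by
        apply Finset.sum_le_sum
        intro x _
        exact_mod_cast pc_mono (hGsub.trans hsub) L m x
      rw [hGc'] at hg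
      rw [hsum]
      nlinarith
    · have h1 : (F'.card : ℝ) ≤ s * 2 ^ (Fintype.card ι - L.card) := by
        have : F'.card ≤ 2 ^ (Fintype.card ι - L.card) * s :=
          h.trans (Nat.mul_le_mul_left _ (Nat.sub_le _ _))
        have h2 : (F'.card : ℝ) ≤ ((2 ^ (Fintype.card ι - L.card) * s : ℕ) : ℝ) := by
          exact_mod_cast this
        push_cast at h2
        linarith
      have h2 : (L.card.choose m : ℝ) * (1 / 2) ^ m * ((s : ℝ) / 4)
        * ((F'.card : ℝ) - s * 2 ^ (Fintype.card ι - L.card)) ≤ 0 := by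
        apply mul_nonpos_of_nonneg_of_nonpos
        · positivity
        · linarith
      have h3 : (0 : ℝ) ≤ ∑ x ∈ F', (pc F L m x : ℝ) := by positivity
      linarith

/-- members with a close partner -/
lemma close_bound {F : Finset (ι → Bool)} {L : Finset ι} {m s : ℕ} (hl : 20 * m ≤ L.card)
    (hl1 : 1 ≤ L.card)
    (hexp : (s : ℝ) / 4 ≤ (11 / 10) ^ m) {x y : ι → Bool} (hy : y ∈ F) (hxy : y ≠ x)
    (hL : ∀ i ∉ L, y i = x i) (hd : 5 * (df L x y).card < 2 * L.card) :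
    (L.card.choose m : ℝ) * (1 / 2) ^ m * ((s : ℝ) / 4) ≤ (pc F L m x : ℝ) := by
  have h1 := pc_ge m hy hxy hL
  have h1' : ((L.card - (df L x y).card).choose m : ℝ) ≤ (pc F L m x : ℝ) := by exact_mod_cast h1
  refine le_trans ?_ h1'
  set a := L.card - (df L x y).card with ha
  have ham : m ≤ a := by omega
  have hcg := choose_ge a L.card m ham
  have hl0 : (0 : ℝ) < L.card := by exact_mod_cast hl1
  have h3 : (11 / 20 : ℝ) * L.card ≤ (a : ℝ) - m := by
    have e1 : 3 * L.card ≤ 5 * a := by omega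
    have e2 : (3 : ℝ) * L.card ≤ 5 * a := by exact_mod_cast e1
    have e3 : (20 : ℝ) * m ≤ L.card := by exact_mod_cast hl
    linarith
  have h4 : ((11 / 20 : ℝ) * L.card) ^ m ≤ ((a : ℝ) - m) ^ m :=
    pow_le_pow_left₀ (by positivity) h3 m
  rw [mul_pow] at h4
  have h5 : (11 / 20 : ℝ) ^ m = (1 / 2) ^ m * (11 / 10) ^ m := by
    rw [← mul_pow]; norm_num
  have hc0 : (0 : ℝ) ≤ (L.card.choose m : ℝ) := by positivity
  have h6 : ((11 / 20 : ℝ) ^ m * (L.card.choose m : ℝ)) * (L.card : ℝ) ^ m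
      ≤ (a.choose m : ℝ) * (L.card : ℝ) ^ m := by
    calc ((11 / 20 : ℝ) ^ m * (L.card.choose m : ℝ)) * (L.card : ℝ) ^ m
        = ((11 / 20 : ℝ) ^ m * (L.card : ℝ) ^ m) * (L.card.choose m : ℝ) := by ring
      _ ≤ ((a : ℝ) - m) ^ m * (L.card.choose m : ℝ) := mul_le_mul_of_nonneg_right h4 hc0
      _ ≤ _ := hcg
  have h7 := le_of_mul_le_mul_right h6 (by positivity)
  calc (L.card.choose m : ℝ) * (1 / 2) ^ m * ((s : ℝ) / 4)
      ≤ (L.card.choose m : ℝ) * (1 / 2) ^ m * (11 / 10) ^ m :=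
        mul_le_mul_of_nonneg_left hexp (by positivity)
    _ = (11 / 20 : ℝ) ^ m * (L.card.choose m : ℝ) := by rw [h5]; ring
    _ ≤ _ := h7

/-- many members have a partner -/
lemma sum_pc_ge (F : Finset (ι → Bool)) (L : Finset ι) (m s : ℕ) (hm : 1 ≤ m)
    (hs : 8 * (m + 1) ≤ s) (hl : 8 * m ^ 2 ≤ L.card) (hl2 : 20 * m ≤ L.card)
    (hexp : (s : ℝ) * (4 / 5) ^ m ≤ 3 / 4) (hexp2 : (s : ℝ) / 4 ≤ (11 / 10) ^ m) :
    (L.card.choose m : ℝ) * (1 / 2) ^ m * ((s : ℝ) / 4)
        * ((F.card : ℝ) - s * 2 ^ (Fintype.card ι - L.card)) ≤ ∑ x ∈ F, (pc F L m x : ℝ) := by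
  classical
  set P : (ι → Bool) → Prop := fun x => ∃ y ∈ F, y ≠ x ∧ (∀ i ∉ L, y i = x i) ∧
    5 * (df L x y).card < 2 * L.card with hP
  set c : ℝ := (L.card.choose m : ℝ) * (1 / 2) ^ m * ((s : ℝ) / 4) with hc
  have hclose : c * ((F.filter P).card : ℝ) ≤ ∑ x ∈ F.filter P, (pc F L m x : ℝ) := by
    rw [mul_comm, ← nsmul_eq_mul, ← Finset.sum_const]
    apply Finset.sum_le_sum
    intro x hx
    rw [mem_filter] at hx
    obtain ⟨_, y, hy, hyx, hL, hd⟩ := hx
    exact close_bound hl2 (by omega) hexp2 hy hyx hL hd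
  have hfar := greedy F L m s hm hs hl hexp (F.filter (fun x => ¬ P x)).card
    (F.filter (fun x => ¬ P x)) le_rfl (filter_subset _ _) (by
      intro x hx y hy hxy hL
      rw [mem_filter] at hx hy
      by_contra hcon
      apply hx.2
      exact ⟨y, hy.1, fun h => hxy h.symm, fun i hi => (hL i hi).symm, by omega⟩)
  rw [← hc] at hfar
  have hsum := Finset.sum_filter_add_sum_filter_not F P (fun x => (pc F L m x : ℝ))
  have hcard : ((F.filter P).card : ℝ) + ((F.filter (fun x => ¬ P x)).card : ℝ) = F.card := by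
    exact_mod_cast Finset.card_filter_add_card_filter_not (s := F) P
  rw [← hsum, ← hcard]
  calc c * (((F.filter P).card : ℝ) + ((F.filter (fun x => ¬ P x)).card : ℝ)
        - s * 2 ^ (Fintype.card ι - L.card))
      = c * ((F.filter P).card : ℝ) + c * (((F.filter (fun x => ¬ P x)).card : ℝ)
        - s * 2 ^ (Fintype.card ι - L.card)) := by ring
    _ ≤ _ := add_le_add hclose hfar

/-- one level, for families without two petals -/
lemma level_lower {F : Finset (ι → Bool)} (hF : FF 2 F) (L : Finset ι) (m s : ℕ) (hm : 1 ≤ m)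
    (hs : 8 * (m + 1) ≤ s) (hl : 8 * m ^ 2 ≤ L.card) (hl2 : 20 * m ≤ L.card)
    (hexp : (s : ℝ) * (4 / 5) ^ m ≤ 3 / 4) (hexp2 : (s : ℝ) / 4 ≤ (11 / 10) ^ m) :
    (2 : ℝ) ^ (Fintype.card ι - L.card) * ((s : ℝ) / 4)
        * ((F.card : ℝ) - s * 2 ^ (Fintype.card ι - L.card))
      ≤ (∑ K ∈ L.powersetCard m, U F (L \ K)) / (L.card.choose m : ℝ) := by
  have hLn : L.card ≤ Fintype.card ι := Finset.card_le_univ L
  have hch : (0 : ℝ) < (L.card.choose m : ℝ) := by
    exact_mod_cast Nat.choose_pos (by omega)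
  rw [le_div_iff₀ hch]
  have h1 : ∑ K ∈ L.powersetCard m, (2 : ℝ) ^ (Fintype.card ι - L.card + m)
      * ((Bset F (L \ K)ᶜ).card : ℝ) ≤ ∑ K ∈ L.powersetCard m, U F (L \ K) := by
    apply Finset.sum_le_sum
    intro K hK
    rw [mem_powersetCard] at hK
    have := U_ge hF (L \ K)
    rw [card_sdiff_of_subset hK.1, hK.2] at this
    have e : Fintype.card ι - (L.card - m) = Fintype.card ι - L.card + m := by omega
    rw [e] at this
    exact this
  rw [← Finset.mul_sum] at h1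
  have h2 : ∑ K ∈ L.powersetCard m, ((Bset F (L \ K)ᶜ).card : ℝ) = ∑ x ∈ F, (pc F L m x : ℝ) := by
    exact_mod_cast sum_Bset F L m
  rw [h2] at h1
  have h3 := sum_pc_ge F L m s hm hs hl hl2 hexp hexp2
  refine le_trans ?_ h1
  calc (2 : ℝ) ^ (Fintype.card ι - L.card) * ((s : ℝ) / 4)
        * ((F.card : ℝ) - s * 2 ^ (Fintype.card ι - L.card)) * (L.card.choose m : ℝ)
      = (2 : ℝ) ^ (Fintype.card ι - L.card + m) * ((L.card.choose m : ℝ) * (1 / 2) ^ m
        * ((s : ℝ) / 4) * ((F.card : ℝ) - s * 2 ^ (Fintype.card ι - L.card))) := by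
        have : (2 : ℝ) ^ m * (1 / 2) ^ m = 1 := by
          rw [← mul_pow]; norm_num
        rw [pow_add]
        linear_combination (-(2 : ℝ) ^ (Fintype.card ι - L.card) * ((s : ℝ) / 4)
          * ((F.card : ℝ) - s * 2 ^ (Fintype.card ι - L.card)) * (L.card.choose m : ℝ)) * this
    _ ≤ _ := mul_le_mul_of_nonneg_left h3 (by positivity)

/-- the basic inequality for families without two petals -/
lemma base_ineq {F : Finset (ι → Bool)} (hF : FF 2 F) (L : Finset ι) (M s : ℕ) (hM : 1 ≤ M)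
    (hs : 8 * (2 * M + 1) ≤ s) (hl : 8 * (2 * M) ^ 2 ≤ L.card) (hl2 : 20 * (2 * M) ≤ L.card)
    (hexp : (s : ℝ) * (4 / 5) ^ M ≤ 3 / 4) (hexp2 : (s : ℝ) / 4 ≤ (11 / 10) ^ M) :
    (M : ℝ) * ((2 : ℝ) ^ (Fintype.card ι - L.card) * ((s : ℝ) / 4)
        * ((F.card : ℝ) - s * 2 ^ (Fintype.card ι - L.card))) ≤ 4 * 2 ^ (Fintype.card ι) := by
  have h := sum_levels F L (2 * M) (by omega)
  have hW : 0 ≤ 4 * ((∑ K ∈ L.powersetCard (2 * M), W F (L \ K)) / (L.card.choose (2 * M) : ℝ)) := by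
    apply mul_nonneg (by norm_num)
    apply div_nonneg _ (by positivity)
    exact Finset.sum_nonneg (fun K _ => W_nonneg F _)
  have h1 : ∑ m ∈ Finset.Ico M (2 * M),
      (∑ K ∈ L.powersetCard (m + 1), U F (L \ K)) / (L.card.choose (m + 1) : ℝ)
      ≤ ∑ m ∈ Finset.range (2 * M),
      (∑ K ∈ L.powersetCard (m + 1), U F (L \ K)) / (L.card.choose (m + 1) : ℝ) := by
    apply Finset.sum_le_sum_of_subset_of_nonneg
    · intro m hm
      rw [Finset.mem_Ico] at hm
      rw [Finset.mem_range]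
      exact hm.2
    · intro m _ _
      apply div_nonneg _ (by positivity)
      exact Finset.sum_nonneg (fun K _ => U_nonneg F _)
  have h2 : ∑ _m ∈ Finset.Ico M (2 * M), ((2 : ℝ) ^ (Fintype.card ι - L.card) * ((s : ℝ) / 4)
        * ((F.card : ℝ) - s * 2 ^ (Fintype.card ι - L.card)))
      ≤ ∑ m ∈ Finset.Ico M (2 * M),
      (∑ K ∈ L.powersetCard (m + 1), U F (L \ K)) / (L.card.choose (m + 1) : ℝ) := by
    apply Finset.sum_le_sum
    intro m hm
    rw [Finset.mem_Ico] at hm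
    apply level_lower hF L (m + 1) s (by omega) (by omega)
    · have : (m + 1) ^ 2 ≤ (2 * M) ^ 2 := Nat.pow_le_pow_left (by omega) 2
      omega
    · omega
    · refine le_trans ?_ hexp
      apply mul_le_mul_of_nonneg_left _ (by positivity)
      exact pow_le_pow_of_le_one (by norm_num) (by norm_num) (by omega)
    · refine le_trans hexp2 ?_
      exact pow_le_pow_right₀ (by norm_num) (by omega)
  rw [Finset.sum_const, Nat.card_Ico, nsmul_eq_mul] at h2
  have e : 2 * M - M = M := by omega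
  rw [e] at h2
  linarith

end Pool.Agent.Lib.MP_fa373d_co
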