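import Pool.Agent.Lib.MP_fa373d_co.Partner

/-!
The second moment estimate for a group of well separated members.
-/

namespace Pool.Agent.Lib.MP_fa373d_co

open Finset

variable {ι : Type*} [Fintype ι] [DecidableEq ι]

lemma bonf (N : ℕ) : (N : ℝ) - ((N : ℝ) * N - N) / 2 ≤ if 0 < N then 1 else 0 := by
  rcases Nat.lt_or_ge N 3 with h | h
  · interval_cases N <;> norm_num
  · rw [if_pos (by omega)]
    have : (3 : ℝ) ≤ N := by exact_mod_cast h
    nlinarith

omit [Fintype ι] [DecidableEq ι] in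
lemma plotkin (G : Finset (ι → Bool)) (L : Finset ι) :
    2 * (∑ x ∈ G, ∑ y ∈ G, ((df L x y).card : ℝ)) ≤ (L.card : ℝ) * (G.card : ℝ) ^ 2 := by
  have e : ∑ x ∈ G, ∑ y ∈ G, ((df L x y).card : ℝ)
      = ∑ i ∈ L, ∑ x ∈ G, ∑ y ∈ G, (if x i ≠ y i then (1 : ℝ) else 0) := by
    unfold df
    simp_rw [Finset.card_filter]
    push_cast
    rw [Finset.sum_comm (s := L) (t := G)]
    apply Finset.sum_congr rfl
    intro x _
    rw [Finset.sum_comm]
  rw [e, Finset.mul_sum]
  calc ∑ i ∈ L, 2 * ∑ x ∈ G, ∑ y ∈ G, (if x i ≠ y i then (1 : ℝ) else 0)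
      ≤ ∑ _i ∈ L, (G.card : ℝ) ^ 2 := by
        apply Finset.sum_le_sum
        intro i _
        set a : ℝ := ((G.filter (fun x => x i = true)).card : ℝ) with ha
        set b : ℝ := ((G.filter (fun x => x i = false)).card : ℝ) with hb
        have hab : a + b = G.card := by
          rw [ha, hb]
          have := Finset.card_filter_add_card_filter_not (s := G) (fun x => x i = true)
          simp only [Bool.not_eq_true] at this
          exact_mod_cast this
        have h1 : ∀ x : ι → Bool, ∑ y ∈ G, (if x i ≠ y i then (1 : ℝ) else 0)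
            = if x i = true then b else a := by
          intro x
          rw [← Finset.sum_filter, Finset.sum_const, nsmul_eq_mul, mul_one]
          cases hx : x i
          · simp only [Bool.false_eq_true, if_false, ha]
            congr 2
            ext y
            cases y i <;> simp
          · simp only [if_true, hb]
            congr 2
            ext y
            cases y i <;> simp
        rw [Finset.sum_congr rfl (fun x _ => h1 x), Finset.sum_ite, Finset.sum_const,
          Finset.sum_const, nsmul_eq_mul, nsmul_eq_mul]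
        have h2 : ((G.filter (fun x => ¬ (x i = true))).card : ℝ) = b := by
          rw [hb]; simp
        rw [h2, ← ha, ← hab]
        nlinarith [sq_nonneg (a - b)]
    _ = (L.card : ℝ) * (G.card : ℝ) ^ 2 := by
        rw [Finset.sum_const, nsmul_eq_mul]

omit [Fintype ι] in
/-- pairwise distances control the union of two difference sets -/
lemma df_union (L : Finset ι) (x y z : ι → Bool) :
    2 * (df L x y ∪ df L x z).card = (df L x y).card + (df L x z).card + (df L y z).card := by
  have e : df L x y ∪ df L x z = L.filter (fun i => x i ≠ y i ∨ x i ≠ z i) := by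
    unfold df; rw [Finset.filter_or]
  rw [e]
  unfold df
  simp_rw [Finset.card_filter]
  rw [Finset.mul_sum, ← Finset.sum_add_distrib, ← Finset.sum_add_distrib]
  apply Finset.sum_congr rfl
  intro i _
  cases x i <;> cases y i <;> cases z i <;> simp

/-- linear lower bound for the agreement probability -/
lemma choose_lin (d l m : ℕ) (hd : d ≤ l) (hl : 1 ≤ l) (hm : 1 ≤ m) :
    (l.choose m : ℝ) * (1 / 2) ^ m * (1 + m - 2 * m * (d + m) / l)
      ≤ ((l - d).choose m : ℝ) := by
  have hl0 : (0 : ℝ) < l := by exact_mod_cast hl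
  rcases Nat.lt_or_ge (l - d) m with h | h
  · rw [Nat.choose_eq_zero_of_lt h]
    have h1 : (l : ℝ) < d + m := by
      have : l < d + m := by omega
      exact_mod_cast this
    have h2 : 1 + (m : ℝ) - 2 * m * (d + m) / l ≤ 0 := by
      have hm1 : (1 : ℝ) ≤ m := by exact_mod_cast hm
      have : 2 * (m : ℝ) ≤ 2 * m * (d + m) / l := by
        rw [le_div_iff₀ hl0]
        nlinarith
      linarith
    have h3 : (0 : ℝ) ≤ (l.choose m : ℝ) * (1 / 2) ^ m := by positivity
    simpa using mul_nonpos_of_nonneg_of_nonpos h3 h2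
  · have hcg := choose_ge (l - d) l m h
    have hcast : ((l - d : ℕ) : ℝ) = (l : ℝ) - d := by
      rw [Nat.cast_sub hd]
    rw [hcast] at hcg
    have hlm : (0 : ℝ) < (l : ℝ) ^ m := by positivity
    have hge : (m : ℝ) ≤ (l : ℝ) - d := by
      rw [← hcast]; exact_mod_cast h
    set α : ℝ := 2 * ((l : ℝ) - d - m) / l - 1 with hα
    have hα1 : -1 ≤ α := by
      rw [hα]
      have : 0 ≤ 2 * ((l : ℝ) - d - m) / l := by
        apply div_nonneg _ hl0.le
        linarith
      linarith
    have hb := one_add_mul_le_pow (a := α) (by linarith) m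
    have e1 : 1 + (m : ℝ) * α = 1 + m - 2 * m * (d + m) / l := by
      rw [hα]; field_simp; ring
    have e2 : ((l : ℝ) - d - m) ^ m = (l : ℝ) ^ m * ((1 / 2) ^ m * (1 + α) ^ m) := by
      rw [← mul_pow, ← mul_pow]
      congr 1
      rw [hα]; field_simp; ring
    rw [e2] at hcg
    have hcg' : (l : ℝ) ^ m * (((1 / 2) ^ m * (1 + α) ^ m) * (l.choose m : ℝ))
        ≤ (l : ℝ) ^ m * ((l - d).choose m : ℝ) := by linarith
    have h4 := le_of_mul_le_mul_left hcg' hlm
    calc (l.choose m : ℝ) * (1 / 2) ^ m * (1 + m - 2 * m * (d + m) / l)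
        = (l.choose m : ℝ) * (1 / 2) ^ m * (1 + (m : ℝ) * α) := by rw [e1]
      _ ≤ (l.choose m : ℝ) * (1 / 2) ^ m * (1 + α) ^ m :=
          mul_le_mul_of_nonneg_left hb (by positivity)
      _ ≤ _ := by linarith

lemma choose_small (a l m : ℕ) (hal : 5 * a ≤ 2 * l) (hl : 1 ≤ l) :
    (a.choose m : ℝ) ≤ (2 / 5) ^ m * (l.choose m : ℝ) := by
  have hl0 : (0 : ℝ) < l := by exact_mod_cast hl
  have h := choose_le' a l m (by omega)
  have h' : (a.choose m : ℝ) * (l : ℝ) ^ m ≤ (a : ℝ) ^ m * (l.choose m : ℝ) := by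
    exact_mod_cast h
  have h2 : (a : ℝ) ^ m ≤ (2 / 5) ^ m * (l : ℝ) ^ m := by
    rw [← mul_pow]
    apply pow_le_pow_left₀ (by positivity)
    have : (5 : ℝ) * a ≤ 2 * l := by exact_mod_cast hal
    linarith
  have hlm : (0 : ℝ) < (l : ℝ) ^ m := by positivity
  have h3 : (a.choose m : ℝ) * (l : ℝ) ^ m ≤ ((2 / 5) ^ m * (l.choose m : ℝ)) * (l : ℝ) ^ m := by
    calc (a.choose m : ℝ) * (l : ℝ) ^ m ≤ (a : ℝ) ^ m * (l.choose m : ℝ) := h'
      _ ≤ ((2 / 5) ^ m * (l : ℝ) ^ m) * (l.choose m : ℝ) :=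
          mul_le_mul_of_nonneg_right h2 (by positivity)
      _ = _ := by ring
  exact le_of_mul_le_mul_right h3 hlm

lemma card_agree_on (L : Finset ι) (m : ℕ) (x y : ι → Bool) :
    ((L.powersetCard m).filter (fun K => ∀ i ∈ K, y i = x i)).card
      = (L.card - (df L x y).card).choose m := by
  rw [← card_avoid L (df L x y) m (filter_subset _ _)]
  congr 1
  apply Finset.filter_congr
  intro K hK
  rw [mem_powersetCard] at hK
  rw [Finset.disjoint_left]
  apply forall₂_congr
  intro i hi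
  simp only [df, mem_filter, hK.1 hi, true_and, not_not, ne_eq]
  exact eq_comm

lemma card_agree_on2 (L : Finset ι) (m : ℕ) (x y z : ι → Bool) :
    ((L.powersetCard m).filter (fun K => (∀ i ∈ K, y i = x i) ∧ (∀ i ∈ K, z i = x i))).card
      = (L.card - (df L x y ∪ df L x z).card).choose m := by
  rw [← card_avoid L (df L x y ∪ df L x z) m (union_subset (filter_subset _ _) (filter_subset _ _))]
  congr 1
  apply Finset.filter_congr
  intro K hK
  rw [mem_powersetCard] at hK
  rw [Finset.disjoint_left]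
  constructor
  · rintro ⟨h1, h2⟩ i hi hmem
    simp only [df, mem_union, mem_filter] at hmem
    rcases hmem with h | h
    · exact h.2 (h1 i hi).symm
    · exact h.2 (h2 i hi).symm
  · intro h
    constructor
    · intro i hi
      by_contra hne
      exact h hi (by simp only [df, mem_union, mem_filter]; exact Or.inl ⟨hK.1 hi, fun e => hne e.symm⟩)
    · intro i hi
      by_contra hne
      exact h hi (by simp only [df, mem_union, mem_filter]; exact Or.inr ⟨hK.1 hi, fun e => hne e.symm⟩)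

/-- partner count inside a group whose members agree off `L` -/
lemma pc_group {G : Finset (ι → Bool)} {L : Finset ι} (m : ℕ)
    (hL : ∀ x ∈ G, ∀ y ∈ G, ∀ i ∉ L, x i = y i) {x : ι → Bool} (hx : x ∈ G) :
    (pc G L m x : ℝ) = ∑ K ∈ L.powersetCard m,
      if 0 < ((G.erase x).filter (fun y => ∀ i ∈ K, y i = x i)).card then (1 : ℝ) else 0 := by
  unfold pc
  rw [Finset.card_filter]
  push_cast
  apply Finset.sum_congr rfl
  intro K hK
  rw [mem_powersetCard] at hK
  congr 1
  rw [Finset.card_pos, eq_iff_iff]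
  constructor
  · rintro ⟨y, hy, hyx, hag⟩
    refine ⟨y, ?_⟩
    rw [mem_filter, mem_erase]
    refine ⟨⟨hyx, hy⟩, fun i hi => hag i ?_⟩
    simp [hi]
  · rintro ⟨y, hy⟩
    rw [mem_filter, mem_erase] at hy
    refine ⟨y, hy.1.2, hy.1.1, ?_⟩
    intro i hi
    by_cases hiL : i ∈ L
    · have hiK : i ∈ K := by
        by_contra h
        simp [hiL, h] at hi
      exact hy.2 i hiK
    · exact hL y hy.1.2 x hx i hiL

/-- first moment for a single member -/
lemma first_moment (G : Finset (ι → Bool)) (L : Finset ι) (m : ℕ) (x : ι → Bool) :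
    ∑ K ∈ L.powersetCard m, (((G.erase x).filter (fun y => ∀ i ∈ K, y i = x i)).card : ℝ)
      = ∑ y ∈ G.erase x, ((L.card - (df L x y).card).choose m : ℝ) := by
  have : ∀ K : Finset ι, (((G.erase x).filter (fun y => ∀ i ∈ K, y i = x i)).card : ℝ)
      = ∑ y ∈ G.erase x, if (∀ i ∈ K, y i = x i) then (1 : ℝ) else 0 := by
    intro K; rw [Finset.card_filter]; push_cast; rfl
  simp_rw [this]
  rw [Finset.sum_comm]
  apply Finset.sum_congr rfl
  intro y _
  rw [← card_agree_on, Finset.card_filter]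
  push_cast
  rfl

/-- second moment for a single member -/
lemma second_moment (G : Finset (ι → Bool)) (L : Finset ι) (m : ℕ) (x : ι → Bool)
    (hsep : ∀ y ∈ G, ∀ z ∈ G, y ≠ z → 2 * L.card ≤ 5 * (df L y z).card) (hx : x ∈ G)
    (hl : 1 ≤ L.card) :
    ∑ K ∈ L.powersetCard m, ((((G.erase x).filter (fun y => ∀ i ∈ K, y i = x i)).card : ℝ)
        * (((G.erase x).filter (fun y => ∀ i ∈ K, y i = x i)).card : ℝ)
        - (((G.erase x).filter (fun y => ∀ i ∈ K, y i = x i)).card : ℝ))
      ≤ (G.card : ℝ) ^ 2 * ((2 / 5) ^ m * (L.card.choose m : ℝ)) := by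
  have h1 : ∀ K : Finset ι, (((G.erase x).filter (fun y => ∀ i ∈ K, y i = x i)).card : ℝ)
        * (((G.erase x).filter (fun y => ∀ i ∈ K, y i = x i)).card : ℝ)
        - (((G.erase x).filter (fun y => ∀ i ∈ K, y i = x i)).card : ℝ)
      = ∑ p ∈ (G.erase x).offDiag,
          if ((∀ i ∈ K, p.1 i = x i) ∧ (∀ i ∈ K, p.2 i = x i)) then (1 : ℝ) else 0 := by
    intro K
    set T := (G.erase x).filter (fun y => ∀ i ∈ K, y i = x i) with hT
    have e1 : ((T.offDiag.card : ℕ) : ℝ) = (T.card : ℝ) * T.card - T.card := by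
      rw [Finset.offDiag_card, Nat.cast_sub (Nat.le_mul_self _)]
      push_cast; rfl
    rw [← e1]
    have e2 : T.offDiag = (G.erase x).offDiag.filter
        (fun p => (∀ i ∈ K, p.1 i = x i) ∧ (∀ i ∈ K, p.2 i = x i)) := by
      ext ⟨a, b⟩
      simp only [hT, mem_offDiag, mem_filter]
      tauto
    rw [e2, Finset.card_filter]
    push_cast
    rfl
  simp_rw [h1]
  rw [Finset.sum_comm]
  have h2 : ∀ p ∈ (G.erase x).offDiag, ∑ K ∈ L.powersetCard m,
      (if ((∀ i ∈ K, p.1 i = x i) ∧ (∀ i ∈ K, p.2 i = x i)) then (1 : ℝ) else 0)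
      ≤ (2 / 5) ^ m * (L.card.choose m : ℝ) := by
    rintro ⟨y, z⟩ hp
    simp only [mem_offDiag, mem_erase] at hp
    have e : ∑ K ∈ L.powersetCard m,
        (if ((∀ i ∈ K, y i = x i) ∧ (∀ i ∈ K, z i = x i)) then (1 : ℝ) else 0)
        = (((L.card - (df L x y ∪ df L x z).card).choose m : ℕ) : ℝ) := by
      rw [← card_agree_on2, Finset.card_filter]
      push_cast
      rfl
    simp only
    rw [e]
    apply choose_small _ _ _ _ hl
    have hu := df_union L x y z
    have h3 := hsep x hx y hp.1.2 (fun h => hp.1.1 h.symm)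
    have h4 := hsep x hx z hp.2.1.2 (fun h => hp.2.1.1 h.symm)
    have h5 := hsep y hp.1.2 z hp.2.1.2 hp.2.2
    omega
  refine (Finset.sum_le_sum h2).trans ?_
  rw [Finset.sum_const, nsmul_eq_mul]
  apply mul_le_mul_of_nonneg_right _ (by positivity)
  have : (G.erase x).offDiag.card ≤ G.card ^ 2 := by
    rw [Finset.offDiag_card]
    have := Finset.card_le_card (Finset.erase_subset x G)
    calc _ ≤ (G.erase x).card * (G.erase x).card := Nat.sub_le _ _
      _ ≤ G.card * G.card := Nat.mul_le_mul this this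
      _ = _ := by ring
  exact_mod_cast this

/-- the group estimate -/
lemma group_bound (G : Finset (ι → Bool)) (L : Finset ι) (m : ℕ)
    (hL : ∀ x ∈ G, ∀ y ∈ G, ∀ i ∉ L, x i = y i)
    (hsep : ∀ x ∈ G, ∀ y ∈ G, x ≠ y → 2 * L.card ≤ 5 * (df L x y).card) (hm : 1 ≤ m)
    (hs : 8 * (m + 1) ≤ G.card) (hl : 8 * m ^ 2 ≤ L.card)
    (hexp : (G.card : ℝ) * (4 / 5) ^ m ≤ 3 / 4) :
    (L.card.choose m : ℝ) * (1 / 2) ^ m * ((G.card : ℝ) ^ 2 / 4) ≤ ∑ x ∈ G, (pc G L m x : ℝ) := by
  have hl1 : 1 ≤ L.card := by nlinarith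
  have hl0 : (0 : ℝ) < L.card := by exact_mod_cast hl1
  set c : ℝ := (L.card.choose m : ℝ) * (1 / 2) ^ m with hc
  have hc0 : 0 ≤ c := by positivity
  set s : ℝ := (G.card : ℝ) with hsdef
  have hs' : 8 * ((m : ℝ) + 1) ≤ s := by rw [hsdef]; exact_mod_cast hs
  have hl' : 8 * (m : ℝ) ^ 2 ≤ L.card := by exact_mod_cast hl
  -- pointwise Bonferroni
  have hpt : ∀ x ∈ G, ∑ y ∈ G.erase x, ((L.card - (df L x y).card).choose m : ℝ)
      - (s ^ 2 * ((2 / 5) ^ m * (L.card.choose m : ℝ))) / 2 ≤ (pc G L m x : ℝ) := by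
    intro x hx
    rw [pc_group m hL hx, ← first_moment]
    have h2 := second_moment G L m x hsep hx hl1
    have h3 : ∑ K ∈ L.powersetCard m,
        ((((G.erase x).filter (fun y => ∀ i ∈ K, y i = x i)).card : ℝ)
        - ((((G.erase x).filter (fun y => ∀ i ∈ K, y i = x i)).card : ℝ)
        * (((G.erase x).filter (fun y => ∀ i ∈ K, y i = x i)).card : ℝ)
        - (((G.erase x).filter (fun y => ∀ i ∈ K, y i = x i)).card : ℝ)) / 2)
        ≤ ∑ K ∈ L.powersetCard m,
      if 0 < ((G.erase x).filter (fun y => ∀ i ∈ K, y i = x i)).card then (1 : ℝ) else 0 :=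
      Finset.sum_le_sum (fun K _ => bonf _)
    rw [Finset.sum_sub_distrib, ← Finset.sum_div] at h3
    linarith
  -- first moment summed
  have hfirst : c * (s ^ 2 * (5 / 8)) ≤
      ∑ x ∈ G, ∑ y ∈ G.erase x, ((L.card - (df L x y).card).choose m : ℝ) := by
    have hlin : ∀ x ∈ G, ∀ y ∈ G.erase x,
        c * (1 + m - 2 * m * ((df L x y).card + m) / L.card)
          ≤ ((L.card - (df L x y).card).choose m : ℝ) := by
      intro x _ y _
      exact choose_lin _ _ _ (Finset.card_le_card (filter_subset _ _)) hl1 hm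
    have hsum : ∑ x ∈ G, ∑ y ∈ G.erase x, c * (1 + m - 2 * m * ((df L x y).card + m) / L.card)
        ≤ ∑ x ∈ G, ∑ y ∈ G.erase x, ((L.card - (df L x y).card).choose m : ℝ) :=
      Finset.sum_le_sum (fun x hx => Finset.sum_le_sum (fun y hy => hlin x hx y hy))
    refine le_trans ?_ hsum
    have hdiag : ∀ x ∈ G, ∑ y ∈ G.erase x, c * (1 + m - 2 * m * ((df L x y).card + m) / L.card)
        = ∑ y ∈ G, c * (1 + m - 2 * m * ((df L x y).card + m) / L.card)
          - c * (1 + m - 2 * m * (0 + m) / L.card) := by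
      intro x hx
      rw [← Finset.sum_erase_add G _ hx]
      have : df L x x = ∅ := by simp [df]
      rw [this]
      simp
    rw [Finset.sum_congr rfl hdiag, Finset.sum_sub_distrib]
    have hall : ∑ x ∈ G, ∑ y ∈ G, c * (1 + m - 2 * m * ((df L x y).card + m) / L.card)
        = c * (s ^ 2 * (1 + m - 2 * m * m / L.card)
          - (2 * m / L.card) * ∑ x ∈ G, ∑ y ∈ G, ((df L x y).card : ℝ)) := by
      have : ∀ x ∈ G, ∑ y ∈ G, c * (1 + m - 2 * m * ((df L x y).card + m) / L.card)
          = c * (s * (1 + m - 2 * m * m / L.card)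
            - (2 * m / L.card) * ∑ y ∈ G, ((df L x y).card : ℝ)) := by
        intro x _
        rw [← Finset.mul_sum]
        congr 1
        rw [Finset.mul_sum, hsdef, ← nsmul_eq_mul, ← Finset.sum_const, ← Finset.sum_sub_distrib]
        apply Finset.sum_congr rfl
        intro y _
        ring
      rw [Finset.sum_congr rfl this, ← Finset.mul_sum]
      congr 1
      rw [Finset.sum_sub_distrib, Finset.sum_const, ← Finset.mul_sum, nsmul_eq_mul]
      ring
    rw [hall, Finset.sum_const, nsmul_eq_mul, ← hsdef]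
    have hpl := plotkin G L
    rw [← hsdef] at hpl
    set P := ∑ x ∈ G, ∑ y ∈ G, ((df L x y).card : ℝ)
    have h1 : (2 * (m : ℝ) / L.card) * P ≤ m * s ^ 2 := by
      rw [div_mul_eq_mul_div, div_le_iff₀ hl0]
      have : (0 : ℝ) ≤ m := by positivity
      nlinarith
    have h2 : 2 * (m : ℝ) * m / L.card ≤ 1 / 4 := by
      rw [div_le_iff₀ hl0]
      nlinarith
    have h2' : 0 ≤ 2 * (m : ℝ) * m / L.card := by positivity
    have hs0 : 0 ≤ s := by rw [hsdef]; positivity
    have h3 : s * (1 + m - 2 * m * (0 + m) / L.card) ≤ s ^ 2 / 8 := by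
      have : 1 + (m : ℝ) - 2 * m * (0 + m) / L.card ≤ s / 8 := by
        rw [zero_add]; linarith
      calc s * (1 + m - 2 * m * (0 + m) / L.card) ≤ s * (s / 8) :=
            mul_le_mul_of_nonneg_left this hs0
        _ = s ^ 2 / 8 := by ring
    have h4 : s ^ 2 * (1 + m - 1 / 4) ≤ s ^ 2 * (1 + m - 2 * m * m / L.card) := by
      apply mul_le_mul_of_nonneg_left _ (by positivity)
      linarith
    have h5 : s ^ 2 * (5 / 8) ≤ (s ^ 2 * (1 + m - 2 * m * m / L.card)
          - (2 * m / L.card) * P) - s * (1 + m - 2 * m * (0 + m) / L.card) := by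
      linarith
    calc c * (s ^ 2 * (5 / 8)) ≤ c * ((s ^ 2 * (1 + m - 2 * m * m / L.card)
          - (2 * m / L.card) * P) - s * (1 + m - 2 * m * (0 + m) / L.card)) :=
          mul_le_mul_of_nonneg_left h5 hc0
      _ = _ := by ring
  have hfin : ∑ x ∈ G, (∑ y ∈ G.erase x, ((L.card - (df L x y).card).choose m : ℝ)
      - (s ^ 2 * ((2 / 5) ^ m * (L.card.choose m : ℝ))) / 2) ≤ ∑ x ∈ G, (pc G L m x : ℝ) :=
    Finset.sum_le_sum hpt
  rw [Finset.sum_sub_distrib, Finset.sum_const, nsmul_eq_mul, ← hsdef] at hfin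
  have hthird : s * ((s ^ 2 * ((2 / 5) ^ m * (L.card.choose m : ℝ))) / 2)
      ≤ c * (s ^ 2 * (3 / 8)) := by
    have e : s * ((s ^ 2 * ((2 / 5) ^ m * (L.card.choose m : ℝ))) / 2)
        = c * (s ^ 2 * ((s * (4 / 5) ^ m) / 2)) := by
      rw [hc]
      have : ((2 : ℝ) / 5) ^ m = (1 / 2) ^ m * (4 / 5) ^ m := by
        rw [← mul_pow]; norm_num
      rw [this]; ring
    rw [e]
    apply mul_le_mul_of_nonneg_left _ hc0
    apply mul_le_mul_of_nonneg_left _ (by positivity)
    linarith
  calc c * (s ^ 2 / 4) = c * (s ^ 2 * (5 / 8)) - c * (s ^ 2 * (3 / 8)) := by ring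
    _ ≤ _ := by linarith

end Pool.Agent.Lib.MP_fa373d_co
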