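import Pool.Agent.Lib.MP_fa373d_co.Step

/-!
The numerical part of the induction step, and the bound for every number of petals.
-/

namespace Pool.Agent.Lib.MP_fa373d_co

open Finset

lemma log_cond (c : ℝ) (q : ℕ) (hq : 1 ≤ q) :
    ∃ n0 : ℕ, ∀ n ≥ n0, ∀ m : ℕ, (2 : ℝ) ^ m ≤ ((n : ℝ) + 1) ^ (c / 3) → 11 * m ≤ n / q := by
  set b : ℝ := Real.log 2 / (22 * q) with hb
  have hlog : 0 < Real.log 2 := Real.log_pos (by norm_num)
  have hq0 : (0 : ℝ) < q := by exact_mod_cast hq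
  have hb0 : 0 < b := by positivity
  have h1 := (isLittleO_rpow_exp_pos_mul_atTop (c / 3) hb0).bound (c := 1) one_pos
  rw [Filter.eventually_atTop] at h1
  obtain ⟨x0, hx0⟩ := h1
  refine ⟨max (⌈x0⌉₊) (2 * q), ?_⟩
  intro n hn m hm
  have hn1 : x0 ≤ (n : ℝ) + 1 := by
    have h2 : ⌈x0⌉₊ ≤ n := (le_max_left _ _).trans hn
    have h3 : (⌈x0⌉₊ : ℝ) ≤ n := by exact_mod_cast h2
    have := Nat.le_ceil x0
    linarith
  have hn2 : 2 * q ≤ n := (le_max_right _ _).trans hn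
  have h4 := hx0 _ hn1
  rw [Real.norm_of_nonneg (by positivity), Real.norm_of_nonneg (by positivity), one_mul] at h4
  have h5 : (2 : ℝ) ^ m ≤ Real.exp (b * ((n : ℝ) + 1)) := hm.trans h4
  have h6 : (m : ℝ) * Real.log 2 ≤ b * ((n : ℝ) + 1) := by
    have := Real.log_le_log (by positivity) h5
    rw [Real.log_pow, Real.log_exp] at this
    exact this
  have h7 : 22 * (q : ℝ) * m ≤ (n : ℝ) + 1 := by
    rw [hb, div_mul_eq_mul_div, le_div_iff₀ (by positivity)] at h6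
    have : Real.log 2 * (22 * (q : ℝ) * m) ≤ Real.log 2 * ((n : ℝ) + 1) := by linarith
    exact le_of_mul_le_mul_left this hlog
  have h8 : 22 * q * m ≤ n + 1 := by exact_mod_cast h7
  rw [Nat.le_div_iff_mul_le (by omega)]
  rcases Nat.eq_zero_or_pos m with h0 | h0
  · subst h0; simp
  · have h9 : 22 * q ≤ n + 1 := by
      calc 22 * q = 22 * q * 1 := by ring
        _ ≤ 22 * q * m := Nat.mul_le_mul_left _ h0
        _ ≤ n + 1 := h8
    nlinarith

theorem bd_succ {k : ℕ} (hk : 2 ≤ k) {c : ℝ} (hc : 0 < c) (h : Bd k c) : Bd (k + 1) (c / 3) := by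
  obtain ⟨C, hC, hbd⟩ := h
  obtain ⟨n0, hn0⟩ := log_cond c (k + 1) (by omega)
  apply bd_of_large (C := 8 + C * 2 ^ c) (by omega) (by positivity) (by positivity)
    (max n0 (k + 1))
  intro n hn F hF
  have hnn0 : n0 ≤ n := (le_max_left _ _).trans hn
  have hnk : k + 1 ≤ n := (le_max_right _ _).trans hn
  set a := n / (k + 1) with ha
  have ha1 : 1 ≤ a := by
    rw [ha, Nat.le_div_iff_mul_le (by omega)]; omega
  have hx1 : (1 : ℝ) ≤ ((n : ℝ) + 1) ^ (c / 3) := by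
    apply Real.one_le_rpow _ (by positivity)
    have : (0 : ℝ) ≤ n := by positivity
    linarith
  obtain ⟨m, hm1, hm2⟩ := exists_nat_pow_near hx1 (by norm_num : (1 : ℝ) < 2)
  have h11 := hn0 n hnn0 m hm1
  rw [← ha] at h11
  have hale : a * (k + 1) ≤ n := Nat.div_mul_le_self n (k + 1)
  have hage : n < (a + 1) * (k + 1) := by
    have := Nat.lt_div_mul_add (a := n) (b := k + 1) (by omega)
    rw [← ha] at this
    linarith
  have h3a : 3 * a ≤ n := by
    calc 3 * a = a * 3 := by ring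
      _ ≤ a * (k + 1) := Nat.mul_le_mul_left _ (by omega)
      _ ≤ n := hale
  have key := step_ineq hF a m (by omega) h11 ha1 (fun F' hF' => hbd (n - a) F' hF')
  have hkr : (2 : ℝ) ≤ k := by exact_mod_cast hk
  have hn1 : (0 : ℝ) < (n : ℝ) + 1 := by positivity
  set X : ℝ := 2 ^ (((((k + 1 : ℕ) : ℝ) - 1) / ((k + 1 : ℕ) : ℝ)) * n) with hX
  have hXpos : 0 < X := by positivity
  have har : (a : ℝ) * (k + 1) ≤ n := by exact_mod_cast hale
  have hagr : (n : ℝ) < ((a : ℝ) + 1) * (k + 1) := by exact_mod_cast hage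
  -- (i)
  have hi : (2 : ℝ) ^ (n - (a + m)) * 2 ^ m ≤ 2 * X := by
    rw [← pow_add]
    have e : n - (a + m) + m = n - a := by omega
    rw [e]
    have e2 : (2 : ℝ) * X = 2 ^ (1 + ((((k + 1 : ℕ) : ℝ) - 1) / ((k + 1 : ℕ) : ℝ)) * n) := by
      rw [Real.rpow_add (by norm_num), Real.rpow_one]
    rw [e2, ← Real.rpow_natCast]
    apply Real.rpow_le_rpow_of_exponent_le (by norm_num)
    rw [Nat.cast_sub (by omega)]
    push_cast
    have e3 : 1 + ((k : ℝ) + 1 - 1) / (k + 1) * n = 1 + n - n / (k + 1) := by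
      field_simp; ring
    rw [e3]
    have : (n : ℝ) / (k + 1) ≤ a + 1 := by
      rw [div_le_iff₀ (by positivity)]
      exact hagr.le
    linarith
  -- (ii)
  have hii : (2 : ℝ) ^ a * 2 ^ ((((k : ℝ) - 1) / k) * ((n - a : ℕ) : ℝ)) ≤ X := by
    rw [← Real.rpow_natCast, ← Real.rpow_add (by norm_num)]
    apply Real.rpow_le_rpow_of_exponent_le (by norm_num)
    rw [Nat.cast_sub (by omega)]
    push_cast
    have e3 : (a : ℝ) + ((k : ℝ) - 1) / k * (n - a) = ((k : ℝ) - 1) / k * n + a / k := by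
      field_simp; ring
    have e4 : ((k : ℝ) + 1 - 1) / (k + 1) * n = ((k : ℝ) - 1) / k * n + (n / (k + 1)) / k := by
      field_simp; ring
    rw [e3, e4]
    have : (a : ℝ) ≤ n / (k + 1) := by
      rw [le_div_iff₀ (by positivity)]
      exact har
    have : (a : ℝ) / k ≤ (n / (k + 1)) / k := div_le_div_of_nonneg_right this (by positivity)
    linarith
  -- (iii)
  have hiii : (((n - a : ℕ) : ℝ) + 1) ^ (-c) ≤ 2 ^ c * ((n : ℝ) + 1) ^ (-c) := by
    have e : (2 : ℝ) ^ c * ((n : ℝ) + 1) ^ (-c) = (((n : ℝ) + 1) / 2) ^ (-c) := by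
      rw [Real.div_rpow (by positivity) (by norm_num), Real.rpow_neg (x := 2) (by norm_num)]
      field_simp
    rw [e]
    apply Real.rpow_le_rpow_of_nonpos (by positivity) _ (by linarith)
    rw [Nat.cast_sub (by omega)]
    have : (3 : ℝ) * a ≤ n := by exact_mod_cast h3a
    linarith
  -- (iv)
  have hiv : (1 : ℝ) ≤ ((n : ℝ) + 1) ^ (-(c / 3)) * (2 * 2 ^ m) := by
    rw [Real.rpow_neg (by positivity), inv_mul_eq_div, one_le_div (by positivity)]
    rw [pow_succ] at hm2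
    linarith
  have hv : (4 : ℝ) ^ m ≤ ((n : ℝ) + 1) ^ (2 * c / 3) := by
    have e : (4 : ℝ) ^ m = 2 ^ m * 2 ^ m := by rw [← mul_pow]; norm_num
    have e2 : ((n : ℝ) + 1) ^ (2 * c / 3) = ((n : ℝ) + 1) ^ (c / 3) * ((n : ℝ) + 1) ^ (c / 3) := by
      rw [← Real.rpow_add hn1]
      congr 1
      ring
    rw [e, e2]
    exact mul_le_mul hm1 hm1 (by positivity) (by positivity)
  -- first summand
  have hA : (2 : ℝ) * 2 ^ (n - (a + m)) ≤ 8 * (((n : ℝ) + 1) ^ (-(c / 3)) * X) := by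
    have h2m : (0 : ℝ) < 2 ^ m := by positivity
    have : ((2 : ℝ) * 2 ^ (n - (a + m))) * 2 ^ m
        ≤ (8 * (((n : ℝ) + 1) ^ (-(c / 3)) * X)) * 2 ^ m := by
      calc ((2 : ℝ) * 2 ^ (n - (a + m))) * 2 ^ m = 2 * (2 ^ (n - (a + m)) * 2 ^ m) := by ring
        _ ≤ 2 * (2 * X) := by linarith
        _ = (4 * X) * 1 := by ring
        _ ≤ (4 * X) * (((n : ℝ) + 1) ^ (-(c / 3)) * (2 * 2 ^ m)) :=
            mul_le_mul_of_nonneg_left hiv (by positivity)
        _ = _ := by ring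
    exact le_of_mul_le_mul_right this h2m
  -- second summand
  have hB : (4 : ℝ) ^ m * (2 ^ a * (C * (((n - a : ℕ) : ℝ) + 1) ^ (-c)
      * 2 ^ ((((k : ℝ) - 1) / k) * ((n - a : ℕ) : ℝ))))
      ≤ C * 2 ^ c * (((n : ℝ) + 1) ^ (-(c / 3)) * X) := by
    have e : ((n : ℝ) + 1) ^ (2 * c / 3) * ((n : ℝ) + 1) ^ (-c) = ((n : ℝ) + 1) ^ (-(c / 3)) := by
      rw [← Real.rpow_add hn1]
      congr 1
      ring
    calc (4 : ℝ) ^ m * (2 ^ a * (C * (((n - a : ℕ) : ℝ) + 1) ^ (-c)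
          * 2 ^ ((((k : ℝ) - 1) / k) * ((n - a : ℕ) : ℝ))))
        = (4 : ℝ) ^ m * C * (((n - a : ℕ) : ℝ) + 1) ^ (-c)
          * (2 ^ a * 2 ^ ((((k : ℝ) - 1) / k) * ((n - a : ℕ) : ℝ))) := by ring
      _ ≤ ((n : ℝ) + 1) ^ (2 * c / 3) * C * (2 ^ c * ((n : ℝ) + 1) ^ (-c)) * X := by
          apply mul_le_mul _ hii (by positivity) (by positivity)
          apply mul_le_mul _ hiii (by positivity) (by positivity)
          exact mul_le_mul_of_nonneg_right hv hC.le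
      _ = C * 2 ^ c * ((((n : ℝ) + 1) ^ (2 * c / 3) * ((n : ℝ) + 1) ^ (-c)) * X) := by ring
      _ = _ := by rw [e]
  calc (F.card : ℝ) ≤ _ := key
    _ ≤ 8 * (((n : ℝ) + 1) ^ (-(c / 3)) * X) + C * 2 ^ c * (((n : ℝ) + 1) ^ (-(c / 3)) * X) :=
        add_le_add hA hB
    _ = _ := by ring

/-- the bound for every number `k + 2` of petals -/
theorem bd_all (k : ℕ) : Bd (k + 2) (1 / (4 * 3 ^ k)) := by
  induction k with
  | zero => simpa using bd_two
  | succ k ih =>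
    have := bd_succ (by omega) (by positivity) ih
    have e : (1 / (4 * 3 ^ k) : ℝ) / 3 = 1 / (4 * 3 ^ (k + 1)) := by
      rw [pow_succ]; field_simp
    rw [e] at this
    exact this

end Pool.Agent.Lib.MP_fa373d_co
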