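import Pool.Agent.Lib.MP_fa373d_co.ExpG

/-!
Lower bound, structural part: families of members with pairwise disjoint differences from a
member, counted scale by scale.
-/

namespace Pool.Agent.Lib.MP_fa373d_co.Low

open Finset Exp

variable {n : ℕ}

/-- `Y` is a set of members of `F`, other than `x`, whose differences from `x` are pairwise
disjoint -/
def Pet (F : Finset (Fin n → Bool)) (x : Fin n → Bool) (Y : Finset (Fin n → Bool)) : Prop :=
  Y ⊆ F ∧ x ∉ Y ∧ ∀ y ∈ Y, ∀ z ∈ Y, y ≠ z → Disjoint (ds x y) (ds x z)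

/-- the number of pairwise disjoint differences of size at most `s` is at most `β` plus their
total size over `s` -/
def Sm (F : Finset (Fin n → Bool)) (s β : ℝ) : Prop :=
  ∀ x ∈ F, ∀ Y, Pet F x Y → (∀ y ∈ Y, ((ds x y).card : ℝ) ≤ s) →
    (Y.card : ℝ) ≤ β + (∑ y ∈ Y, ((ds x y).card : ℝ)) / s

/-- every member `x` has a set `J` of size at most `R` that contains half of every difference of
size at most `s` -/
def Lev (F : Finset (Fin n → Bool)) (s R : ℕ) : Prop :=
  ∀ x ∈ F, ∃ J : Finset (Fin n), J.card ≤ R ∧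
    ∀ y ∈ F, (ds x y).card ≤ s → (ds x y).card ≤ 2 * (ds x y ∩ J).card

/-- translation -/
def tl (v x : Fin n → Bool) : Fin n → Bool := fun i => xor (x i) (v i)

lemma ds_tl (v x y : Fin n → Bool) : ds (tl v x) (tl v y) = ds x y := by
  ext i
  rw [mem_ds, mem_ds]
  unfold tl
  cases x i <;> cases y i <;> cases v i <;> simp

lemma tl_inj (v : Fin n → Bool) : Function.Injective (tl v) := by
  intro x y h
  funext i
  have := congrFun h i
  unfold tl at this
  cases hx : x i <;> cases hy : y i <;> cases hv : v i <;> simp_all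

lemma ds_eq_empty {x y : Fin n → Bool} (h : (ds x y).card = 0) : y = x := by
  rw [Finset.card_eq_zero] at h
  funext i
  by_contra hne
  have : i ∈ ds x y := by rw [mem_ds]; exact fun h' => hne h'.symm
  rw [h] at this
  simp at this

lemma Sm.mono {F G : Finset (Fin n → Bool)} {s β : ℝ} (hF : Sm F s β) (v : Fin n → Bool)
    (hG : ∀ x ∈ G, tl v x ∈ F) : Sm G s β := by
  intro x hx Y hY hs
  have h1 := hF (tl v x) (hG x hx) (Y.image (tl v)) ?_ ?_
  · rw [Finset.card_image_of_injective _ (tl_inj v),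
      Finset.sum_image (fun a _ b _ h => tl_inj v h)] at h1
    simpa only [ds_tl] using h1
  · refine ⟨?_, ?_, ?_⟩
    · intro z hz
      rw [mem_image] at hz
      obtain ⟨y, hy, rfl⟩ := hz
      exact hG y (hY.1 hy)
    · intro h
      rw [mem_image] at h
      obtain ⟨y, hy, hyx⟩ := h
      exact hY.2.1 (tl_inj v hyx ▸ hy)
    · intro y' hy' z' hz' hne
      rw [mem_image] at hy' hz'
      obtain ⟨y, hy, rfl⟩ := hy'
      obtain ⟨z, hz, rfl⟩ := hz'
      rw [ds_tl, ds_tl]
      exact hY.2.2 y hy z hz (fun h => hne (by rw [h]))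
  · intro y' hy'
    rw [mem_image] at hy'
    obtain ⟨y, hy, rfl⟩ := hy'
    rw [ds_tl]
    exact hs y hy

/-- total size of disjoint sets with half in `J` -/
lemma mass_le {x : Fin n → Bool} {Y : Finset (Fin n → Bool)} {J : Finset (Fin n)}
    (hdis : ∀ y ∈ Y, ∀ z ∈ Y, y ≠ z → Disjoint (ds x y) (ds x z))
    (hJ : ∀ y ∈ Y, (ds x y).card ≤ 2 * (ds x y ∩ J).card) :
    ∑ y ∈ Y, (ds x y).card ≤ 2 * J.card := by
  calc ∑ y ∈ Y, (ds x y).card ≤ ∑ y ∈ Y, 2 * (ds x y ∩ J).card := Finset.sum_le_sum hJ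
    _ = 2 * ∑ y ∈ Y, (ds x y ∩ J).card := by rw [Finset.mul_sum]
    _ = 2 * (Y.biUnion (fun y => ds x y ∩ J)).card := by
        rw [Finset.card_biUnion]
        intro y hy z hz hne
        exact (hdis y hy z hz hne).mono Finset.inter_subset_left Finset.inter_subset_left
    _ ≤ 2 * J.card := by
        apply Nat.mul_le_mul_left
        apply Finset.card_le_card
        intro i hi
        rw [mem_biUnion] at hi
        obtain ⟨y, _, hy⟩ := hi
        exact (mem_inter.mp hy).2

lemma mass_le_univ {x : Fin n → Bool} {Y : Finset (Fin n → Bool)}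
    (hdis : ∀ y ∈ Y, ∀ z ∈ Y, y ≠ z → Disjoint (ds x y) (ds x z)) :
    ∑ y ∈ Y, (ds x y).card ≤ n := by
  calc ∑ y ∈ Y, (ds x y).card = (Y.biUnion (fun y => ds x y)).card := by
        rw [Finset.card_biUnion]
        intro y hy z hz hne
        exact hdis y hy z hz hne
    _ ≤ n := by
        have := Finset.card_le_univ (Y.biUnion (fun y => ds x y))
        rwa [Fintype.card_fin] at this

open Classical in
/-- the level step -/
lemma sm_step {F F' G : Finset (Fin n → Bool)} {s s' β' : ℝ} {s0 R : ℕ}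
    (hL : Lev F s0 R) (hs0 : ∀ m : ℕ, (m : ℝ) ≤ s → m ≤ s0) (hS : Sm F' s' β')
    (hs' : 0 < s') (hss : s' ≤ s) (v : Fin n → Bool) (hG : G ⊆ F)
    (hG' : ∀ x ∈ G, tl v x ∈ F') : Sm G s (β' + 2 * R * (1 / s' - 1 / s)) := by
  have hS' : Sm G s' β' := hS.mono v hG'
  intro x hx Y hY hs
  obtain ⟨J, hJR, hJ⟩ := hL x (hG hx)
  have hspos : 0 < s := lt_of_lt_of_le hs' hss
  -- total mass
  have hmass : (∑ y ∈ Y, ((ds x y).card : ℝ)) ≤ 2 * R := by
    have h1 := mass_le (J := J) hY.2.2 (fun y hy => hJ y (hG (hY.1 hy)) (hs0 _ (hs y hy)))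
    have h2 : ∑ y ∈ Y, (ds x y).card ≤ 2 * R := by omega
    exact_mod_cast h2
  set A := Y.filter (fun y => ((ds x y).card : ℝ) ≤ s') with hA
  set B := Y.filter (fun y => ¬ ((ds x y).card : ℝ) ≤ s') with hB
  have hAY : A ⊆ Y := Finset.filter_subset _ _
  have h1 := hS' x hx A ⟨hAY.trans hY.1, fun h => hY.2.1 (hAY h),
    fun y hy z hz hne => hY.2.2 y (hAY hy) z (hAY hz) hne⟩
    (fun y hy => (mem_filter.mp hy).2)
  have h2 : (B.card : ℝ) ≤ (∑ y ∈ B, ((ds x y).card : ℝ)) / s' := by
    rw [le_div_iff₀ hs']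
    have : ∑ y ∈ B, s' ≤ ∑ y ∈ B, ((ds x y).card : ℝ) := by
      apply Finset.sum_le_sum
      intro y hy
      exact (not_le.mp (mem_filter.mp hy).2).le
    rwa [Finset.sum_const, nsmul_eq_mul] at this
  have h3 : (A.card : ℝ) + B.card = Y.card := by
    exact_mod_cast Finset.card_filter_add_card_filter_not (s := Y) _
  have h4 : (∑ y ∈ A, ((ds x y).card : ℝ)) + ∑ y ∈ B, ((ds x y).card : ℝ)
      = ∑ y ∈ Y, ((ds x y).card : ℝ) := Finset.sum_filter_add_sum_filter_not _ _ _
  set M := ∑ y ∈ Y, ((ds x y).card : ℝ) with hM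
  have h5 : (Y.card : ℝ) ≤ β' + M / s' := by
    rw [← h3, ← h4, add_div]
    linarith
  have h6 : M / s' = M / s + M * (1 / s' - 1 / s) := by
    field_simp
    ring
  have h7 : 0 ≤ 1 / s' - 1 / s := by
    rw [sub_nonneg]
    exact one_div_le_one_div_of_le hs' hss
  have h8 : M * (1 / s' - 1 / s) ≤ 2 * R * (1 / s' - 1 / s) :=
    mul_le_mul_of_nonneg_right hmass h7
  linarith

open Classical in
/-- the top step -/
lemma ff_of_sm {F : Finset (Fin n → Bool)} {s β : ℝ} {k : ℕ} (hF : Sm F s β) (hs : 0 < s)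
    (hk : β + n / s < k) : FF k F := by
  intro x hx Y hYF hxY hYk hcon
  have hdis : ∀ y ∈ Y, ∀ z ∈ Y, y ≠ z → Disjoint (ds x y) (ds x z) := by
    intro y hy z hz hne
    rw [Finset.disjoint_left]
    intro i hi hi'
    rw [mem_ds] at hi hi'
    rcases hcon y hy z hz hne i with h | h
    · exact hi h.symm
    · exact hi' h.symm
  set A := Y.filter (fun y => ((ds x y).card : ℝ) ≤ s) with hA
  set B := Y.filter (fun y => ¬ ((ds x y).card : ℝ) ≤ s) with hB
  have hAY : A ⊆ Y := Finset.filter_subset _ _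
  have h1 := hF x hx A ⟨hAY.trans hYF, fun h => hxY (hAY h),
    fun y hy z hz hne => hdis y (hAY hy) z (hAY hz) hne⟩
    (fun y hy => (mem_filter.mp hy).2)
  have h2 : (B.card : ℝ) ≤ (∑ y ∈ B, ((ds x y).card : ℝ)) / s := by
    rw [le_div_iff₀ hs]
    have : ∑ y ∈ B, s ≤ ∑ y ∈ B, ((ds x y).card : ℝ) := by
      apply Finset.sum_le_sum
      intro y hy
      exact (not_le.mp (mem_filter.mp hy).2).le
    rwa [Finset.sum_const, nsmul_eq_mul] at this
  have h3 : (A.card : ℝ) + B.card = Y.card := by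
    exact_mod_cast Finset.card_filter_add_card_filter_not (s := Y) _
  have h4 : (∑ y ∈ A, ((ds x y).card : ℝ)) + ∑ y ∈ B, ((ds x y).card : ℝ)
      = ∑ y ∈ Y, ((ds x y).card : ℝ) := Finset.sum_filter_add_sum_filter_not _ _ _
  have h5 : ∑ y ∈ Y, ((ds x y).card : ℝ) ≤ n := by
    exact_mod_cast mass_le_univ hdis
  have h6 : (Y.card : ℝ) ≤ β + n / s := by
    have h7 : (∑ y ∈ Y, ((ds x y).card : ℝ)) / s ≤ n / s :=
      div_le_div_of_nonneg_right h5 hs.le
    rw [← h4, add_div] at h7
    linarith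
  rw [hYk] at h6
  linarith

/-- families without `k` petals are focal-free -/
lemma focalFree_of_FF {k : ℕ} {F : Finset (Fin n → Bool)} (hF : FF k F) :
    FocalFree (k + 1) n F := by
  intro x hx a hfoc
  obtain ⟨hinj, hcoord⟩ := hfoc
  refine hF (x a) (hx a) ((univ.erase a).image x) ?_ ?_ ?_ ?_
  · intro y hy
    rw [mem_image] at hy
    obtain ⟨j, _, rfl⟩ := hy
    exact hx j
  · intro h
    rw [mem_image] at h
    obtain ⟨j, hj, hja⟩ := h
    rw [mem_erase] at hj
    exact hj.1 (hinj hja)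
  · rw [Finset.card_image_of_injective _ hinj, card_erase_of_mem (mem_univ _), card_univ,
      Fintype.card_fin]
    rfl
  · intro y hy z hz hne i
    rw [mem_image] at hy hz
    obtain ⟨j, hj, rfl⟩ := hy
    obtain ⟨l, hl, rfl⟩ := hz
    rw [mem_erase] at hj hl
    by_contra hcon
    rw [not_or] at hcon
    have hjl : j ≠ l := fun h => hne (by rw [h])
    have h1 := hcoord i
    have h2 : (univ.filter (fun j : Fin (k + 1) => j ≠ a ∧ x j i = x a i))
        ⊆ ((univ.erase a).erase j).erase l := by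
      intro p hp
      rw [mem_filter] at hp
      rw [mem_erase, mem_erase, mem_erase]
      refine ⟨fun h => hcon.2 (h ▸ hp.2.2), fun h => hcon.1 (h ▸ hp.2.2), hp.2.1, mem_univ _⟩
    have h3 := Finset.card_le_card h2
    rw [card_erase_of_mem (mem_erase.mpr ⟨hjl.symm, mem_erase.mpr ⟨hl.1, mem_univ _⟩⟩),
      card_erase_of_mem (mem_erase.mpr ⟨hj.1, mem_univ _⟩),
      card_erase_of_mem (mem_univ _), card_univ, Fintype.card_fin] at h3
    have h4 : 2 ≤ k := by
      by_contra h
      have h5 : ({a, j, l} : Finset (Fin (k + 1))).card = 3 := by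
        rw [Finset.card_eq_three]
        exact ⟨a, j, l, hj.1.symm, hl.1.symm, hjl, rfl⟩
      have h6 := Finset.card_le_univ ({a, j, l} : Finset (Fin (k + 1)))
      rw [h5, Fintype.card_fin] at h6
      omega
    omega

open Classical in
/-- intersection with a translate -/
lemma exists_translate (F F' : Finset (Fin n → Bool)) :
    ∃ v : Fin n → Bool, F.card * F'.card ≤ 2 ^ n * (F.filter (fun x => tl v x ∈ F')).card := by
  by_contra hcon
  push Not at hcon
  have h1 : ∑ v : Fin n → Bool, (F.filter (fun x => tl v x ∈ F')).card = F.card * F'.card := by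
    have h2 : ∀ v : Fin n → Bool, (F.filter (fun x => tl v x ∈ F')).card
        = ∑ x ∈ F, if tl v x ∈ F' then 1 else 0 := by
      intro v
      rw [Finset.card_filter]
    simp_rw [h2]
    rw [Finset.sum_comm]
    have h3 : ∀ x ∈ F, ∑ v : Fin n → Bool, (if tl v x ∈ F' then 1 else 0) = F'.card := by
      intro x _
      rw [← Finset.card_filter]
      have h4 : univ.filter (fun v : Fin n → Bool => tl v x ∈ F') = F'.image (tl x) := by
        ext v
        rw [mem_filter, mem_image]
        constructor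
        · rintro ⟨_, h⟩
          refine ⟨tl v x, h, ?_⟩
          funext i
          unfold tl
          cases x i <;> cases v i <;> rfl
        · rintro ⟨y, hy, rfl⟩
          refine ⟨mem_univ _, ?_⟩
          have : tl (tl x y) x = y := by
            funext i
            unfold tl
            cases x i <;> cases y i <;> rfl
          rw [this]
          exact hy
      rw [h4, Finset.card_image_of_injective _ (tl_inj x)]
    rw [Finset.sum_congr rfl h3, Finset.sum_const, smul_eq_mul]
  have h5 : ∑ v : Fin n → Bool, 2 ^ n * (F.filter (fun x => tl v x ∈ F')).card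
      < ∑ _v : Fin n → Bool, F.card * F'.card :=
    Finset.sum_lt_sum_of_nonempty (univ_nonempty) (fun v _ => hcon v)
  rw [← Finset.mul_sum, h1, Finset.sum_const, Finset.card_univ, Fintype.card_fun,
    Fintype.card_bool, Fintype.card_fin, smul_eq_mul] at h5
  exact lt_irrefl _ h5

end Pool.Agent.Lib.MP_fa373d_co.Low
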