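import Pool.Agent.Lib.MP_fa373d_co.LowA

/-!
Lower bound: random centres.
-/

namespace Pool.Agent.Lib.MP_fa373d_co.Low

open Finset Exp

variable {n : ℕ}

/-- volume of a ball -/
def vol (n r : ℕ) : ℕ := ∑ j ∈ range (r + 1), n.choose j

lemma card_sphere (x : Fin n → Bool) (R : ℕ) :
    (univ.filter (fun u : Fin n → Bool => (ds x u).card = R)).card = n.choose R := by
  have h : (powersetCard R (univ : Finset (Fin n))).card = n.choose R := by
    rw [card_powersetCard, card_univ, Fintype.card_fin]
  rw [← h]
  apply Finset.card_nbij' (fun u => ds x u) (fun A => fl x A)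
  · intro u hu
    simp only [coe_filter, mem_univ, true_and, Set.mem_ofPred_eq] at hu
    exact mem_coe.mpr (mem_powersetCard.mpr ⟨subset_univ _, hu⟩)
  · intro A hA
    have hA' := mem_powersetCard.mp (mem_coe.mp hA)
    simp only [coe_filter, mem_univ, true_and, Set.mem_ofPred_eq]
    rw [ds_fl]
    exact hA'.2
  · intro u _
    exact fl_ds x u
  · intro A _
    exact ds_fl x A

lemma card_ball (x : Fin n → Bool) (r : ℕ) :
    (univ.filter (fun u : Fin n → Bool => (ds x u).card ≤ r)).card = vol n r := by
  unfold vol
  have h : univ.filter (fun u : Fin n → Bool => (ds x u).card ≤ r)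
      = (range (r + 1)).biUnion (fun j => univ.filter (fun u => (ds x u).card = j)) := by
    ext u
    simp only [mem_filter, mem_univ, true_and, mem_biUnion, mem_range]
    constructor
    · intro h
      exact ⟨_, by omega, rfl⟩
    · rintro ⟨j, hj, rfl⟩
      omega
  rw [h, Finset.card_biUnion]
  · apply Finset.sum_congr rfl
    intro j _
    exact card_sphere x j
  · intro i _ j _ hij
    change Disjoint _ _
    rw [Finset.disjoint_left]
    intro u hu hu'
    simp only [mem_filter, mem_univ, true_and] at hu hu'
    exact hij (hu.symm.trans hu')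

lemma ds_triangle (x y z : Fin n → Bool) : (ds x z).card ≤ (ds x y).card + (ds y z).card := by
  have h : ds x z ⊆ ds x y ∪ ds y z := by
    intro i hi
    rw [mem_union, mem_ds, mem_ds]
    rw [mem_ds] at hi
    by_contra hcon
    rw [not_or, not_not, not_not] at hcon
    exact hi (hcon.1.trans hcon.2)
  exact (Finset.card_le_card h).trans (Finset.card_union_le _ _)

lemma half_of_center {x y u : Fin n → Bool} (h : (ds x u).card = (ds y u).card) :
    (ds x y).card ≤ 2 * (ds x y ∩ ds x u).card := by
  have h1 : ds x y ∩ ds x u = ds x u \ ds y u := by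
    ext i
    rw [mem_inter, mem_sdiff, mem_ds, mem_ds, mem_ds]
    cases x i <;> cases y i <;> cases u i <;> simp
  have h2 : ds x y \ ds x u = ds y u \ ds x u := by
    ext i
    rw [mem_sdiff, mem_sdiff, mem_ds, mem_ds, mem_ds]
    cases x i <;> cases y i <;> cases u i <;> simp
  have h3 := Finset.card_inter_add_card_sdiff (ds x y) (ds x u)
  have h4 := Finset.card_inter_add_card_sdiff (ds x u) (ds y u)
  have h5 := Finset.card_inter_add_card_sdiff (ds y u) (ds x u)
  rw [Finset.inter_comm] at h5
  rw [h1, h2] at h3
  rw [h1]
  omega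

lemma pow_le_three (m : ℕ) : (m + 1) ^ m ≤ 3 * m ^ m := by
  rcases Nat.eq_zero_or_pos m with h | h
  · subst h; norm_num
  · have hm : (0 : ℝ) < m := by exact_mod_cast h
    have h1 : ((m : ℝ) + 1) / m ≤ Real.exp (1 / m) := by
      have := Real.add_one_le_exp (1 / (m : ℝ))
      have e : ((m : ℝ) + 1) / m = 1 / m + 1 := by field_simp; ring
      rw [e]
      exact this
    have h2 : (((m : ℝ) + 1) / m) ^ m ≤ Real.exp 1 := by
      calc (((m : ℝ) + 1) / m) ^ m ≤ (Real.exp (1 / m)) ^ m :=
            pow_le_pow_left₀ (by positivity) h1 m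
        _ = Real.exp 1 := by
            rw [← Real.exp_nat_mul]
            congr 1
            field_simp
    have h3 : Real.exp 1 < 3 := by
      have := Real.exp_one_lt_d9
      linarith
    have h4 : ((m : ℝ) + 1) ^ m ≤ 3 * (m : ℝ) ^ m := by
      rw [div_pow, div_le_iff₀ (by positivity)] at h2
      have h5 : (0 : ℝ) < (m : ℝ) ^ m := by positivity
      nlinarith
    exact_mod_cast h4

open Classical in
/-- random centres: a family of density about `C(n, R) / V(R + s)` in which the members at
distance at most `s` have a common centre at distance exactly `R` -/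
theorem exists_lev (n R s : ℕ) : ∃ F : Finset (Fin n → Bool), Lev F s R ∧
    2 ^ n * n.choose R ≤ 3 * vol n (R + s) * F.card := by
  obtain ⟨m, hm⟩ : ∃ m, vol n (R + s) = m + 1 := by
    refine ⟨vol n (R + s) - 1, ?_⟩
    have : 1 ≤ vol n (R + s) := by
      unfold vol
      have := Finset.single_le_sum (f := fun j => n.choose j) (fun _ _ => Nat.zero_le _)
        (mem_range.mpr (Nat.succ_pos (R + s)))
      simpa using this
    omega
  -- the families attached to colourings
  set good : ((Fin n → Bool) → Fin (m + 1)) → (Fin n → Bool) → (Fin n → Bool) → Prop :=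
    fun c x u => (ds x u).card = R ∧ ∀ w, (ds x w).card ≤ R + s → (c w = 0 ↔ w = u) with hgood
  set Fc : ((Fin n → Bool) → Fin (m + 1)) → Finset (Fin n → Bool) :=
    fun c => univ.filter (fun x => ∃ u, good c x u) with hFc
  have hlev : ∀ c, Lev (Fc c) s R := by
    intro c x hx
    rw [hFc, mem_filter] at hx
    obtain ⟨_, u, hu, hc⟩ := hx
    refine ⟨ds x u, hu.le, ?_⟩
    intro y hy hys
    rw [hFc, mem_filter] at hy
    obtain ⟨_, w, hw, hcw⟩ := hy
    have h1 : c w = 0 := (hcw w (by omega)).mpr rfl
    have h2 : (ds x w).card ≤ R + s := by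
      have := ds_triangle x y w
      omega
    have h3 : w = u := (hc w h2).mp h1
    subst h3
    exact half_of_center (hu.trans hw.symm)
  -- counting
  set N := Fintype.card (Fin n → Bool) with hN
  have hNm : m + 1 ≤ N := by
    rw [← hm, ← card_ball (fun _ => false) (R + s)]
    exact Finset.card_le_univ _
  have hcount : ∀ x u : Fin n → Bool, (ds x u).card = R →
      (univ.filter (fun c : (Fin n → Bool) → Fin (m + 1) => good c x u)).card
        = m ^ m * (m + 1) ^ (N - (m + 1)) := by
    intro x u hu
    set t : (Fin n → Bool) → Finset (Fin (m + 1)) := fun w =>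
      if (ds x w).card ≤ R + s then (if w = u then {0} else {0}ᶜ) else univ with ht
    have h1 : univ.filter (fun c : (Fin n → Bool) → Fin (m + 1) => good c x u)
        = Fintype.piFinset t := by
      ext c
      rw [mem_filter, Fintype.mem_piFinset]
      constructor
      · rintro ⟨_, _, hc⟩ w
        simp only [ht]
        by_cases h : (ds x w).card ≤ R + s
        · rw [if_pos h]
          by_cases h' : w = u
          · rw [if_pos h', mem_singleton]
            exact (hc w h).mpr h'
          · rw [if_neg h', mem_compl, mem_singleton]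
            exact fun h'' => h' ((hc w h).mp h'')
        · rw [if_neg h]; exact mem_univ _
      · intro hc
        refine ⟨mem_univ _, hu, ?_⟩
        intro w hw
        have := hc w
        simp only [ht] at this
        rw [if_pos hw] at this
        by_cases h' : w = u
        · rw [if_pos h', mem_singleton] at this
          exact ⟨fun _ => h', fun _ => this⟩
        · rw [if_neg h', mem_compl, mem_singleton] at this
          exact ⟨fun h => absurd h this, fun h => absurd h h'⟩
    rw [h1, Fintype.card_piFinset]
    set B := univ.filter (fun w : Fin n → Bool => (ds x w).card ≤ R + s) with hB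
    have hBc : B.card = m + 1 := by rw [hB, card_ball, hm]
    have huB : u ∈ B := by
      rw [hB, mem_filter]
      exact ⟨mem_univ _, by omega⟩
    have h2 : ∏ w, (t w).card = (∏ w ∈ B.erase u, (t w).card) * (t u).card
        * ∏ w ∈ Bᶜ, (t w).card := by
      rw [Finset.prod_erase_mul B _ huB, Finset.prod_mul_prod_compl]
    rw [h2]
    have h3 : ∏ w ∈ B.erase u, (t w).card = m ^ m := by
      have : ∀ w ∈ B.erase u, (t w).card = m := by
        intro w hw
        rw [mem_erase, hB, mem_filter] at hw
        simp only [ht]
        rw [if_pos hw.2.2, if_neg hw.1, card_compl, card_singleton, Fintype.card_fin]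
        rfl
      rw [Finset.prod_congr rfl this, Finset.prod_const, card_erase_of_mem huB, hBc]
      rfl
    have h4 : (t u).card = 1 := by
      simp only [ht]
      rw [if_pos (by omega), if_pos trivial, card_singleton]
    have h5 : ∏ w ∈ Bᶜ, (t w).card = (m + 1) ^ (N - (m + 1)) := by
      have : ∀ w ∈ Bᶜ, (t w).card = m + 1 := by
        intro w hw
        rw [mem_compl, hB, mem_filter, not_and] at hw
        simp only [ht]
        rw [if_neg (hw (mem_univ _)), card_univ, Fintype.card_fin]
      rw [Finset.prod_congr rfl this, Finset.prod_const, card_compl, hBc]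
    rw [h3, h4, h5, mul_one]
  have hFcard : ∀ c, (Fc c).card
      = ∑ x : Fin n → Bool, ∑ u ∈ univ.filter (fun u => (ds x u).card = R),
          if good c x u then 1 else 0 := by
    intro c
    rw [hFc, Finset.card_filter]
    apply Finset.sum_congr rfl
    intro x _
    by_cases h : ∃ u, good c x u
    · rw [if_pos h]
      obtain ⟨u, hu⟩ := h
      rw [Finset.sum_eq_single u]
      · rw [if_pos hu]
      · intro w hw hwu
        rw [mem_filter] at hw
        rw [if_neg]
        intro hgw
        apply hwu
        have h1 : c w = 0 := (hgw.2 w (by omega)).mpr rfl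
        exact (hu.2 w (by omega)).mp h1
      · intro hnu
        exfalso
        apply hnu
        rw [mem_filter]
        exact ⟨mem_univ _, hu.1⟩
    · rw [if_neg h]
      symm
      apply Finset.sum_eq_zero
      intro u _
      rw [if_neg (fun h' => h ⟨u, h'⟩)]
  have hsum : ∑ c, (Fc c).card = 2 ^ n * n.choose R * (m ^ m * (m + 1) ^ (N - (m + 1))) := by
    simp_rw [hFcard]
    rw [Finset.sum_comm]
    have h1 : ∀ x : Fin n → Bool, ∑ c : (Fin n → Bool) → Fin (m + 1),
        ∑ u ∈ univ.filter (fun u => (ds x u).card = R), (if good c x u then 1 else 0)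
        = n.choose R * (m ^ m * (m + 1) ^ (N - (m + 1))) := by
      intro x
      rw [Finset.sum_comm]
      have h2 : ∀ u ∈ univ.filter (fun u => (ds x u).card = R),
          ∑ c : (Fin n → Bool) → Fin (m + 1), (if good c x u then 1 else 0)
          = m ^ m * (m + 1) ^ (N - (m + 1)) := by
        intro u hu
        rw [mem_filter] at hu
        rw [← hcount x u hu.2, Finset.card_filter]
      rw [Finset.sum_congr rfl h2, Finset.sum_const, card_sphere, smul_eq_mul]
    rw [Finset.sum_congr rfl (fun x _ => h1 x), Finset.sum_const, card_univ, Fintype.card_fun,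
      Fintype.card_bool, Fintype.card_fin, smul_eq_mul, mul_assoc]
  -- averaging
  by_contra hcon
  push Not at hcon
  have h1 : ∀ c, 3 * (m + 1) * (Fc c).card < 2 ^ n * n.choose R := by
    intro c
    have := hcon (Fc c) (hlev c)
    rwa [hm] at this
  have h2 : ∑ c : (Fin n → Bool) → Fin (m + 1), 3 * (m + 1) * (Fc c).card
      < ∑ _c : (Fin n → Bool) → Fin (m + 1), 2 ^ n * n.choose R :=
    Finset.sum_lt_sum_of_nonempty univ_nonempty (fun c _ => h1 c)
  rw [← Finset.mul_sum, hsum, Finset.sum_const, card_univ, Fintype.card_fun, Fintype.card_fin,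
    ← hN, smul_eq_mul] at h2
  have h3 : (m + 1) ^ N = (m + 1) ^ m * ((m + 1) ^ (N - (m + 1)) * (m + 1)) := by
    rw [← pow_succ, ← pow_add]
    congr 1
    omega
  have h4 := pow_le_three m
  rw [h3] at h2
  have h5 : (m + 1) ^ m * ((m + 1) ^ (N - (m + 1)) * (m + 1)) * (2 ^ n * n.choose R)
      ≤ 3 * (m + 1) * (2 ^ n * n.choose R * (m ^ m * (m + 1) ^ (N - (m + 1)))) := by
    calc (m + 1) ^ m * ((m + 1) ^ (N - (m + 1)) * (m + 1)) * (2 ^ n * n.choose R)
        ≤ (3 * m ^ m) * ((m + 1) ^ (N - (m + 1)) * (m + 1)) * (2 ^ n * n.choose R) :=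
          Nat.mul_le_mul_right _ (Nat.mul_le_mul_right _ h4)
      _ = _ := by ring
  exact absurd h2 (not_lt.mpr h5)

end Pool.Agent.Lib.MP_fa373d_co.Low
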