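import Pool.Agent.Lib.MP_fa373d_co.LowB

/-!
Lower bound: densities, the recursion over the scales, and the geometric tail.
-/

namespace Pool.Agent.Lib.MP_fa373d_co.Low

open Finset Exp

/-! ### volumes -/

lemma choose_mono {n : ℕ} : ∀ r : ℕ, 2 * r ≤ n → ∀ j ≤ r, n.choose j ≤ n.choose r := by
  intro r
  induction r with
  | zero => intro _ j hj; rw [Nat.le_zero.mp hj]
  | succ r ih =>
    intro hr j hj
    rcases Nat.lt_or_ge j (r + 1) with h | h
    · refine (ih (by omega) j (by omega)).trans ?_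
      exact Nat.choose_le_succ_of_lt_half_left (by omega)
    · rw [le_antisymm hj h]

lemma vol_le {n r : ℕ} (hr : 2 * r ≤ n) : vol n r ≤ (n + 1) * n.choose r := by
  unfold vol
  calc ∑ j ∈ range (r + 1), n.choose j ≤ ∑ _j ∈ range (r + 1), n.choose r := by
        apply Finset.sum_le_sum
        intro j hj
        rw [mem_range] at hj
        exact choose_mono r hr j (by omega)
    _ = (r + 1) * n.choose r := by rw [Finset.sum_const, card_range, smul_eq_mul]
    _ ≤ (n + 1) * n.choose r := Nat.mul_le_mul_right _ (by omega)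

lemma choose_ratio (n R : ℕ) : ∀ s : ℕ, n.choose (R + s) * (R + 1) ^ s ≤ n.choose R * n ^ s := by
  intro s
  induction s with
  | zero => simp
  | succ s ih =>
    have h1 := Nat.choose_succ_right_eq n (R + s)
    have h2 : n.choose (R + s + 1) * (R + 1) ≤ n.choose (R + s) * n := by
      calc n.choose (R + s + 1) * (R + 1) ≤ n.choose (R + s + 1) * (R + s + 1) :=
            Nat.mul_le_mul_left _ (by omega)
        _ = n.choose (R + s) * (n - (R + s)) := h1
        _ ≤ _ := Nat.mul_le_mul_left _ (Nat.sub_le _ _)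
    calc n.choose (R + (s + 1)) * (R + 1) ^ (s + 1)
        = (n.choose (R + s + 1) * (R + 1)) * (R + 1) ^ s := by
          rw [← add_assoc, pow_succ]; ring
      _ ≤ (n.choose (R + s) * n) * (R + 1) ^ s := Nat.mul_le_mul_right _ h2
      _ = (n.choose (R + s) * (R + 1) ^ s) * n := by ring
      _ ≤ (n.choose R * n ^ s) * n := Nat.mul_le_mul_right _ ih
      _ = _ := by rw [pow_succ]; ring

lemma vol_le_rpow {n s : ℕ} {x : ℝ} (hx : 0 < x) (hx1 : x ≤ 1) :
    (vol n s : ℝ) * x ^ s ≤ (1 + x) ^ n := by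
  unfold vol
  push_cast
  rw [Finset.sum_mul]
  have h1 : ∀ j ∈ range (s + 1), (n.choose j : ℝ) * x ^ s ≤ (n.choose j : ℝ) * x ^ j := by
    intro j hj
    rw [mem_range] at hj
    apply mul_le_mul_of_nonneg_left _ (by positivity)
    exact pow_le_pow_of_le_one hx.le hx1 (by omega)
  refine (Finset.sum_le_sum h1).trans ?_
  have h2 : (1 + x) ^ n = ∑ j ∈ range (n + 1), (n.choose j : ℝ) * x ^ j := by
    rw [add_comm, add_pow]
    apply Finset.sum_congr rfl
    intro j _
    rw [one_pow, mul_one, mul_comm]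
  rw [h2]
  rcases Nat.le_total s n with h | h
  · apply Finset.sum_le_sum_of_subset_of_nonneg
    · intro j hj
      rw [mem_range] at hj ⊢
      omega
    · intro j _ _
      positivity
  · rw [← Finset.sum_subset (s₁ := range (n + 1)) (s₂ := range (s + 1))]
    · intro j hj
      rw [mem_range] at hj ⊢
      omega
    · intro j _ hj
      rw [mem_range, not_lt] at hj
      rw [Nat.choose_eq_zero_of_lt (by omega)]
      simp

/-! ### one level -/

lemma lev_density {n R s : ℕ} (hn : 1 ≤ n) (h : 2 * (R + s) ≤ n) :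
    ∃ F : Finset (Fin n → Bool), Lev F s R ∧
      (2 : ℝ) ^ n * (((R : ℝ) + 1) / n) ^ s ≤ 3 * (n + 1) * F.card := by
  obtain ⟨F, hF, hc⟩ := exists_lev n R s
  refine ⟨F, hF, ?_⟩
  have hn0 : (0 : ℝ) < n := by exact_mod_cast hn
  have hpos : 0 < n.choose R := Nat.choose_pos (by omega)
  have h1 : 2 ^ n * (R + 1) ^ s ≤ 3 * (n + 1) * F.card * n ^ s := by
    apply Nat.le_of_mul_le_mul_left _ hpos
    calc n.choose R * (2 ^ n * (R + 1) ^ s) = (2 ^ n * n.choose R) * (R + 1) ^ s := by ring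
      _ ≤ (3 * vol n (R + s) * F.card) * (R + 1) ^ s := Nat.mul_le_mul_right _ hc
      _ ≤ (3 * ((n + 1) * n.choose (R + s)) * F.card) * (R + 1) ^ s := by
          apply Nat.mul_le_mul_right
          apply Nat.mul_le_mul_right
          exact Nat.mul_le_mul_left _ (vol_le h)
      _ = 3 * (n + 1) * F.card * (n.choose (R + s) * (R + 1) ^ s) := by ring
      _ ≤ 3 * (n + 1) * F.card * (n.choose R * n ^ s) :=
          Nat.mul_le_mul_left _ (choose_ratio n R s)
      _ = _ := by ring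
  have h2 : (2 : ℝ) ^ n * ((R : ℝ) + 1) ^ s ≤ 3 * (n + 1) * F.card * (n : ℝ) ^ s := by
    exact_mod_cast h1
  rw [div_pow, ← mul_div_assoc, div_le_iff₀ (by positivity)]
  exact h2

/-- for all `n ≥ 1` there is a family of density about `exp (-c n)` in which the number of disjoint
differences of size at most `τ n` is at most `β` plus their total size over `τ n` -/
def S (c τ β : ℝ) : Prop := ∃ K : ℕ, ∀ n : ℕ, 1 ≤ n → ∃ F : Finset (Fin n → Bool),
  (2 : ℝ) ^ n * Real.exp (-(c * n)) ≤ (K * ((n : ℝ) + 1) ^ K) * F.card ∧ Sm F (τ * n) β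

lemma S.mono {c c' τ β β' : ℝ} (h : S c τ β) (hc : c ≤ c') (hβ : β ≤ β') : S c' τ β' := by
  obtain ⟨K, hK⟩ := h
  refine ⟨K, fun n hn => ?_⟩
  obtain ⟨F, hF, hS⟩ := hK n hn
  have hn0 : (0 : ℝ) ≤ n := by positivity
  refine ⟨F, le_trans ?_ hF, ?_⟩
  · apply mul_le_mul_of_nonneg_left _ (by positivity)
    apply Real.exp_le_exp.mpr
    nlinarith
  · intro x hx Y hY hs
    have := hS x hx Y hY hs
    linarith

lemma S_base {τ : ℝ} (h0 : 0 < τ) (h1 : τ ≤ 1) : S (τ * (1 + Real.log (1 / τ))) τ 0 := by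
  refine ⟨3, fun n hn => ?_⟩
  have hn0 : (0 : ℝ) < n := by exact_mod_cast hn
  obtain ⟨F, hL, hc⟩ := exists_lev n 0 ⌊τ * n⌋₊
  refine ⟨F, ?_, ?_⟩
  · rw [Nat.choose_zero_right, mul_one, zero_add] at hc
    have hc' : (2 : ℝ) ^ n ≤ 3 * vol n ⌊τ * n⌋₊ * F.card := by exact_mod_cast hc
    have hv := vol_le_rpow (n := n) (s := ⌊τ * n⌋₊) h0 h1
    have h2 : Real.exp (-(τ * Real.log (1 / τ) * n)) ≤ τ ^ ⌊τ * n⌋₊ := by
      have e1 : τ ^ ⌊τ * n⌋₊ = Real.exp (Real.log τ * ⌊τ * n⌋₊) := by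
        rw [← Real.rpow_natCast, Real.rpow_def_of_pos h0]
      rw [e1, Real.exp_le_exp, one_div, Real.log_inv]
      have h3 : (⌊τ * n⌋₊ : ℝ) ≤ τ * n := Nat.floor_le (by positivity)
      have h4 : Real.log τ ≤ 0 := Real.log_nonpos h0.le h1
      nlinarith
    have h3 : (1 + τ) ^ n ≤ Real.exp (τ * n) := by
      calc (1 + τ) ^ n ≤ (Real.exp τ) ^ n := by
            apply pow_le_pow_left₀ (by positivity)
            have := Real.add_one_le_exp τ
            linarith
        _ = Real.exp (τ * n) := by rw [← Real.exp_nat_mul, mul_comm]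
    -- vol ≤ exp(c n)
    have h4 : (vol n ⌊τ * n⌋₊ : ℝ) * Real.exp (-(τ * (1 + Real.log (1 / τ)) * n)) ≤ 1 := by
      have e : Real.exp (-(τ * (1 + Real.log (1 / τ)) * n))
          = Real.exp (-(τ * Real.log (1 / τ) * n)) * Real.exp (-(τ * n)) := by
        rw [← Real.exp_add]; congr 1; ring
      rw [e]
      calc (vol n ⌊τ * n⌋₊ : ℝ) * (Real.exp (-(τ * Real.log (1 / τ) * n)) * Real.exp (-(τ * n)))
          = ((vol n ⌊τ * n⌋₊ : ℝ) * Real.exp (-(τ * Real.log (1 / τ) * n)))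
            * Real.exp (-(τ * n)) := by ring
        _ ≤ ((vol n ⌊τ * n⌋₊ : ℝ) * τ ^ ⌊τ * n⌋₊) * Real.exp (-(τ * n)) := by
            apply mul_le_mul_of_nonneg_right _ (Real.exp_pos _).le
            exact mul_le_mul_of_nonneg_left h2 (by positivity)
        _ ≤ Real.exp (τ * n) * Real.exp (-(τ * n)) := by
            apply mul_le_mul_of_nonneg_right _ (Real.exp_pos _).le
            exact hv.trans h3
        _ = 1 := by rw [← Real.exp_add]; simp
    set E := Real.exp (-(τ * (1 + Real.log (1 / τ)) * n)) with hE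
    have hEpos : 0 < E := Real.exp_pos _
    calc (2 : ℝ) ^ n * E ≤ (3 * vol n ⌊τ * n⌋₊ * F.card) * E :=
          mul_le_mul_of_nonneg_right hc' hEpos.le
      _ = 3 * F.card * ((vol n ⌊τ * n⌋₊ : ℝ) * E) := by ring
      _ ≤ 3 * F.card * 1 := mul_le_mul_of_nonneg_left h4 (by positivity)
      _ = 3 * 1 * F.card := by ring
      _ ≤ ((3 : ℕ) * ((n : ℝ) + 1) ^ 3) * F.card := by
          push_cast
          apply mul_le_mul_of_nonneg_right _ (by positivity)
          have : (1 : ℝ) ≤ ((n : ℝ) + 1) ^ 3 := one_le_pow₀ (by linarith)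
          linarith
  · intro x hx Y hY hs
    have hYe : Y = ∅ := by
      by_contra hne
      obtain ⟨y, hy⟩ := Finset.nonempty_iff_ne_empty.mpr hne
      obtain ⟨J, hJ, hJ'⟩ := hL x hx
      have h5 : (ds x y).card ≤ ⌊τ * n⌋₊ := Nat.le_floor (hs y hy)
      have h6 := hJ' y (hY.1 hy) h5
      have h7 : (ds x y ∩ J).card ≤ J.card := Finset.card_le_card Finset.inter_subset_right
      have h8 : (ds x y).card = 0 := by omega
      have h9 := ds_eq_empty h8
      exact hY.2.1 (h9 ▸ hy)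
    rw [hYe]
    simp

lemma S_step {c τ' β' τ κ : ℝ} (h : S c τ' β') (h0 : 0 < τ') (h1 : τ' ≤ τ) (hκ : 0 < κ)
    (hκτ : κ + τ ≤ 1 / 2) :
    S (c + τ * Real.log (1 / κ)) τ (β' + 2 * κ * (1 / τ' - 1 / τ)) := by
  obtain ⟨K, hK⟩ := h
  refine ⟨3 * K + 1, fun n hn => ?_⟩
  have hn0 : (0 : ℝ) < n := by exact_mod_cast hn
  have hτ : 0 < τ := lt_of_lt_of_le h0 h1
  obtain ⟨F', hF', hS'⟩ := hK n hn
  have hfl1 : (⌊κ * n⌋₊ : ℝ) ≤ κ * n := Nat.floor_le (by positivity)
  have hfl2 : (⌊τ * n⌋₊ : ℝ) ≤ τ * n := Nat.floor_le (by positivity)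
  have hfl3 : κ * n < (⌊κ * n⌋₊ : ℝ) + 1 := Nat.lt_floor_add_one _
  obtain ⟨F, hL, hc⟩ := lev_density (n := n) (R := ⌊κ * n⌋₊) (s := ⌊τ * n⌋₊) hn (by
    have : (2 : ℝ) * ((⌊κ * n⌋₊ : ℝ) + ⌊τ * n⌋₊) ≤ n := by nlinarith
    exact_mod_cast this)
  obtain ⟨v, hv⟩ := exists_translate F F'
  classical
  set G := F.filter (fun x => tl v x ∈ F') with hG
  have hv' : (F.card : ℝ) * F'.card ≤ 2 ^ n * G.card := by
    have : F.card * F'.card ≤ 2 ^ n * G.card := by
      convert hv using 3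
    exact_mod_cast this
  refine ⟨G, ?_, ?_⟩
  · have hκ1 : κ ≤ 1 := by linarith
    have h2 : Real.exp (-(τ * Real.log (1 / κ) * n)) ≤ (((⌊κ * n⌋₊ : ℝ) + 1) / n) ^ ⌊τ * n⌋₊ := by
      have h3 : Real.exp (-(τ * Real.log (1 / κ) * n)) ≤ κ ^ ⌊τ * n⌋₊ := by
        have e1 : κ ^ ⌊τ * n⌋₊ = Real.exp (Real.log κ * ⌊τ * n⌋₊) := by
          rw [← Real.rpow_natCast, Real.rpow_def_of_pos hκ]
        rw [e1, Real.exp_le_exp, one_div, Real.log_inv]
        have h4 : Real.log κ ≤ 0 := Real.log_nonpos hκ.le hκ1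
        nlinarith
      refine h3.trans ?_
      apply pow_le_pow_left₀ hκ.le
      rw [le_div_iff₀ hn0]
      exact hfl3.le
    have h5 : (2 : ℝ) ^ n * Real.exp (-(τ * Real.log (1 / κ) * n)) ≤ 3 * (n + 1) * F.card :=
      (mul_le_mul_of_nonneg_left h2 (by positivity)).trans hc
    have e : Real.exp (-((c + τ * Real.log (1 / κ)) * n))
        = Real.exp (-(c * n)) * Real.exp (-(τ * Real.log (1 / κ) * n)) := by
      rw [← Real.exp_add]; congr 1; ring
    rw [e]
    have h2n : (0 : ℝ) < 2 ^ n := by positivity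
    apply le_of_mul_le_mul_left _ h2n
    calc (2 : ℝ) ^ n * (2 ^ n * (Real.exp (-(c * n)) * Real.exp (-(τ * Real.log (1 / κ) * n))))
        = (2 ^ n * Real.exp (-(c * n))) * (2 ^ n * Real.exp (-(τ * Real.log (1 / κ) * n))) := by
          ring
      _ ≤ ((K * ((n : ℝ) + 1) ^ K) * F'.card) * (3 * (n + 1) * F.card) :=
          mul_le_mul hF' h5 (by positivity) (by positivity)
      _ = (3 * K * ((n : ℝ) + 1) ^ (K + 1)) * (F.card * F'.card) := by
          rw [pow_succ]; ring
      _ ≤ (3 * K * ((n : ℝ) + 1) ^ (K + 1)) * (2 ^ n * G.card) :=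
          mul_le_mul_of_nonneg_left hv' (by positivity)
      _ ≤ (((3 * K + 1 : ℕ) : ℝ) * ((n : ℝ) + 1) ^ (3 * K + 1)) * (2 ^ n * G.card) := by
          apply mul_le_mul_of_nonneg_right _ (by positivity)
          apply mul_le_mul _ _ (by positivity) (by positivity)
          · push_cast; linarith
          · exact pow_le_pow_right₀ (by linarith) (by omega)
      _ = _ := by ring
  · have h3 := sm_step (s := τ * n) (s' := τ' * n) hL
      (fun m hm => Nat.le_floor hm) hS' (by positivity)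
      (mul_le_mul_of_nonneg_right h1 hn0.le) v (G := G) (Finset.filter_subset _ _)
      (fun x hx => (mem_filter.mp hx).2)
    intro x hx Y hY hs
    refine (h3 x hx Y hY hs).trans ?_
    have h4 : 2 * (⌊κ * n⌋₊ : ℝ) * (1 / (τ' * n) - 1 / (τ * n)) ≤ 2 * κ * (1 / τ' - 1 / τ) := by
      have h5 : 0 ≤ 1 / τ' - 1 / τ := by
        rw [sub_nonneg]
        exact one_div_le_one_div_of_le h0 h1
      have e : 2 * κ * (1 / τ' - 1 / τ) = 2 * (κ * n) * (1 / (τ' * n) - 1 / (τ * n)) := by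
        field_simp
      have e2 : 1 / (τ' * n) - 1 / (τ * n) = (1 / τ' - 1 / τ) / n := by
        field_simp
      rw [e, e2]
      have h6 : 0 ≤ (1 / τ' - 1 / τ) / n := div_nonneg h5 hn0.le
      nlinarith
    linarith

/-- the geometric tail -/
lemma S_tail (L : ℕ) : ∀ τ κ : ℝ, 0 < τ → 0 < κ → κ + τ ≤ 1 / 2 →
    S (4 / 3 * τ * (Real.log (1 / κ) + Real.log 2)
      + τ / 4 ^ L * (1 + Real.log (1 / (τ / 4 ^ L)))) τ (12 * κ / τ) := by
  induction L with
  | zero =>
    intro τ κ hτ hκ h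
    have h1 := S_base hτ (by linarith)
    apply h1.mono
    · rw [pow_zero, div_one]
      have h2 : 0 ≤ Real.log (1 / κ) := by
        apply Real.log_nonneg
        rw [le_div_iff₀ hκ]
        linarith
      have h3 : 0 ≤ Real.log 2 := Real.log_nonneg (by norm_num)
      have : 0 ≤ 4 / 3 * τ * (Real.log (1 / κ) + Real.log 2) := by positivity
      linarith
    · positivity
  | succ L ih =>
    intro τ κ hτ hκ h
    have h1 := ih (τ / 4) (κ / 8) (by positivity) (by positivity) (by linarith)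
    have h2 := S_step (τ := τ) (κ := κ) h1 (by positivity) (by linarith) hκ h
    apply h2.mono
    · have e1 : τ / 4 / 4 ^ L = τ / 4 ^ (L + 1) := by rw [pow_succ]; field_simp
      have e2 : Real.log (1 / (κ / 8)) = Real.log (1 / κ) + 3 * Real.log 2 := by
        have : (1 : ℝ) / (κ / 8) = 1 / κ * 2 ^ 3 := by field_simp; norm_num
        rw [this, Real.log_mul (by positivity) (by positivity), Real.log_pow]
        norm_num
      rw [e1, e2]
      apply le_of_eq
      ring
    · apply le_of_eq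
      field_simp
      ring

end Pool.Agent.Lib.MP_fa373d_co.Low
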