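import Pool.Agent.Lib.MP_fa373d_co.LowC
import Pool.Agent.Lib.MP_fa373d_co.ExpH

/-!
Lower bound: the choice of the scales and the final bounds.
-/

namespace Pool.Agent.Lib.MP_fa373d_co

/-- the lower exponential growth rate of `gff r n`, that is
`liminf_{n → ∞} (1/n) log_2 (gff r n)` -/
noncomputable def sigmaMinus (r : ℕ) : ℝ :=
  Filter.liminf (fun n : ℕ => Real.logb 2 (gff r n) / n) Filter.atTop

end Pool.Agent.Lib.MP_fa373d_co

namespace Pool.Agent.Lib.MP_fa373d_co.Low

open Finset Exp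

/-- the cost of the last level tends to zero -/
lemma exists_small {τ ε : ℝ} (hε : 0 < ε) :
    ∃ L : ℕ, τ / 4 ^ L * (1 + Real.log (1 / (τ / 4 ^ L))) ≤ ε := by
  have h1 : Filter.Tendsto (fun L : ℕ => τ / 4 ^ L) Filter.atTop (nhds 0) := by
    have h2 : Filter.Tendsto (fun L : ℕ => τ * (1 / 4 : ℝ) ^ L) Filter.atTop (nhds (τ * 0)) :=
      (tendsto_pow_atTop_nhds_zero_of_lt_one (by norm_num) (by norm_num)).const_mul τ
    rw [mul_zero] at h2
    refine h2.congr (fun L => ?_)
    rw [one_div, inv_pow, ← div_eq_mul_inv]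
  have h3 : Continuous (fun x : ℝ => x - x * Real.log x) :=
    continuous_id.sub Real.continuous_mul_log
  have h4 := (h3.tendsto 0).comp h1
  simp only [zero_mul, sub_zero] at h4
  have h5 := (h4.eventually (gt_mem_nhds hε)).exists
  obtain ⟨L, hL⟩ := h5
  refine ⟨L, ?_⟩
  simp only [Function.comp] at hL
  rw [one_div, Real.log_inv]
  linarith

/-- the choice of the scales -/
lemma params (k : ℕ) (hk : 10 ≤ k) : ∃ c τ β : ℝ, S c τ β ∧ 0 < τ ∧ β + 1 / τ < k ∧
    c < 9.8 * Real.log 2 / k := by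
  have hk0 : (0 : ℝ) < k := by exact_mod_cast (by omega : 0 < k)
  have hk10 : (10 : ℝ) ≤ k := by exact_mod_cast hk
  have hl2 : 0 < Real.log 2 := Real.log_pos (by norm_num)
  obtain ⟨L, hL⟩ := exists_small (τ := 0.0099 / k) (ε := 0.001 * Real.log 2 / k) (by positivity)
  have hk1 : (1 : ℝ) / k ≤ 1 / 10 := one_div_le_one_div_of_le (by norm_num) hk10
  have e1 : (0.0099 : ℝ) / k = 0.0099 * (1 / k) := by ring
  have e2 : (0.1529 : ℝ) / k = 0.1529 * (1 / k) := by ring
  have e3 : (1.2578 : ℝ) / k = 1.2578 * (1 / k) := by ring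
  have hpos : (0 : ℝ) < 1 / k := by positivity
  have hk2 : (k : ℝ)⁻¹ ≤ 1 / 10 := by rw [← one_div]; exact hk1
  have t1 := S_tail L (0.0099 / k) (1 / 2 ^ 19) (by positivity) (by positivity)
    (by rw [e1]; norm_num; linarith)
  have t2 := S_step (τ := 0.1529 / k) (κ := 1 / 2 ^ 13) t1 (by positivity)
    (by rw [e1, e2]; nlinarith) (by positivity) (by rw [e2]; norm_num; linarith)
  have t3 := S_step (τ := 1.2578 / k) (κ := 1 / 2 ^ 6) t2 (by positivity)
    (by rw [e3, e2]; nlinarith) (by positivity) (by rw [e3]; norm_num; linarith)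
  refine ⟨_, _, _, t3, by positivity, ?_, ?_⟩
  · have e : 12 * (1 / 2 ^ 19) / (0.0099 / (k : ℝ))
        + 2 * (1 / 2 ^ 13) * (1 / (0.0099 / (k : ℝ)) - 1 / (0.1529 / (k : ℝ)))
        + 2 * (1 / 2 ^ 6) * (1 / (0.1529 / (k : ℝ)) - 1 / (1.2578 / (k : ℝ)))
        + 1 / (1.2578 / (k : ℝ))
        = (12 * (1 / 2 ^ 19) / 0.0099 + 2 * (1 / 2 ^ 13) * (1 / 0.0099 - 1 / 0.1529)
          + 2 * (1 / 2 ^ 6) * (1 / 0.1529 - 1 / 1.2578) + 1 / 1.2578) * k := by
      field_simp
    rw [e]
    have : (12 * (1 / 2 ^ 19) / 0.0099 + 2 * (1 / 2 ^ 13) * (1 / 0.0099 - 1 / 0.1529)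
          + 2 * (1 / 2 ^ 6) * (1 / 0.1529 - 1 / 1.2578) + 1 / 1.2578 : ℝ) < 1 := by norm_num
    nlinarith
  · have l1 : Real.log (1 / (1 / 2 ^ 19)) = 19 * Real.log 2 := by
      rw [one_div_one_div, Real.log_pow]; norm_num
    have l2 : Real.log (1 / (1 / 2 ^ 13)) = 13 * Real.log 2 := by
      rw [one_div_one_div, Real.log_pow]; norm_num
    have l3 : Real.log (1 / (1 / 2 ^ 6)) = 6 * Real.log 2 := by
      rw [one_div_one_div, Real.log_pow]; norm_num
    rw [l1, l2, l3]
    refine lt_of_le_of_lt (b := 4 / 3 * (0.0099 / (k : ℝ)) * (19 * Real.log 2 + Real.log 2)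
      + 0.001 * Real.log 2 / k + 0.1529 / k * (13 * Real.log 2)
      + 1.2578 / k * (6 * Real.log 2)) (by linarith) ?_
    have e : 4 / 3 * (0.0099 / (k : ℝ)) * (19 * Real.log 2 + Real.log 2)
      + 0.001 * Real.log 2 / k + 0.1529 / k * (13 * Real.log 2)
      + 1.2578 / k * (6 * Real.log 2) = (4 / 3 * 0.0099 * 20 + 0.001 + 0.1529 * 13 + 1.2578 * 6)
        * (Real.log 2 / k) := by ring
    have e' : 9.8 * Real.log 2 / k = 9.8 * (Real.log 2 / k) := by ring
    rw [e, e']
    apply mul_lt_mul_of_pos_right _ (by positivity)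
    norm_num

/-- the lower bound for the largest focal-free families -/
theorem gff_ge (k : ℕ) (hk : 2 ≤ k) : ∃ c : ℝ, 0 < c ∧ ∀ n : ℕ,
    c * 2 ^ ((1 - 9.8 / (k : ℝ)) * n) ≤ gff (k + 1) n := by
  have hk0 : (0 : ℝ) < k := by exact_mod_cast (by omega : 0 < k)
  rcases Nat.lt_or_ge k 10 with h | h
  · refine ⟨1, one_pos, fun n => ?_⟩
    rw [one_mul]
    have h1 : (1 : ℝ) ≤ gff (k + 1) n := by exact_mod_cast one_le_gff (by omega) n
    refine le_trans ?_ h1
    apply Real.rpow_le_one_of_one_le_of_nonpos (by norm_num)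
    apply mul_nonpos_of_nonpos_of_nonneg _ (by positivity)
    rw [sub_nonpos, le_div_iff₀ hk0]
    have : (k : ℝ) ≤ 9 := by exact_mod_cast (by omega : k ≤ 9)
    linarith
  · obtain ⟨c, τ, β, ⟨K, hK⟩, hτ, hβ, hc⟩ := params k h
    set ε := 9.8 * Real.log 2 / k - c with hε
    have hεpos : 0 < ε := by rw [hε]; linarith
    set A : ℝ := K * (K.factorial / ε ^ K * Real.exp ε) + 1 with hA
    have hApos : 1 ≤ A := by
      rw [hA]
      have : 0 ≤ (K : ℝ) * (K.factorial / ε ^ K * Real.exp ε) := by positivity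
      linarith
    refine ⟨1 / A, by positivity, fun n => ?_⟩
    have h1g : (1 : ℝ) ≤ gff (k + 1) n := by exact_mod_cast one_le_gff (by omega) n
    rcases Nat.eq_zero_or_pos n with h0 | hn
    · subst h0
      rw [Nat.cast_zero, mul_zero, Real.rpow_zero, mul_one]
      refine le_trans ?_ h1g
      rw [div_le_one (by positivity)]
      exact hApos
    · have hn0 : (0 : ℝ) < n := by exact_mod_cast hn
      obtain ⟨F, hF, hS⟩ := hK n hn
      have hFF : FF k F := ff_of_sm hS (by positivity) (by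
        have : (n : ℝ) / (τ * n) = 1 / τ := by field_simp
        rw [this]
        exact hβ)
      have hle : F.card ≤ gff (k + 1) n :=
        (gff_isGreatest (k + 1) n (by omega)).2 ⟨F, focalFree_of_FF hFF, rfl⟩
      have hle' : (F.card : ℝ) ≤ gff (k + 1) n := by exact_mod_cast hle
      -- polynomial against exponential
      have h2 : ((n : ℝ) + 1) ^ K ≤ K.factorial / ε ^ K * Real.exp ε * Real.exp (ε * n) := by
        have h3 := Real.pow_div_factorial_le_exp (ε * ((n : ℝ) + 1)) (by positivity) K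
        rw [div_le_iff₀ (by positivity), mul_pow] at h3
        have e : Real.exp (ε * ((n : ℝ) + 1)) = Real.exp ε * Real.exp (ε * n) := by
          rw [← Real.exp_add]; congr 1; ring
        rw [e] at h3
        have h4 : (0 : ℝ) < ε ^ K := by positivity
        rw [div_mul_eq_mul_div, div_mul_eq_mul_div, le_div_iff₀ h4]
        linarith
      have h3 : (K : ℝ) * ((n : ℝ) + 1) ^ K ≤ A * Real.exp (ε * n) := by
        calc (K : ℝ) * ((n : ℝ) + 1) ^ K
            ≤ K * (K.factorial / ε ^ K * Real.exp ε * Real.exp (ε * n)) :=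
              mul_le_mul_of_nonneg_left h2 (by positivity)
          _ ≤ A * Real.exp (ε * n) := by
              rw [hA]
              have := Real.exp_pos (ε * n)
              nlinarith
      have e2 : (2 : ℝ) ^ ((1 - 9.8 / (k : ℝ)) * n) * Real.exp (ε * n)
          = 2 ^ n * Real.exp (-(c * n)) := by
        rw [← Real.rpow_natCast 2 n, Real.rpow_def_of_pos (by norm_num : (0 : ℝ) < 2),
          Real.rpow_def_of_pos (by norm_num : (0 : ℝ) < 2), ← Real.exp_add, ← Real.exp_add, hε]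
        congr 1
        field_simp
        ring
      have h4 : (2 : ℝ) ^ ((1 - 9.8 / (k : ℝ)) * n) * Real.exp (ε * n)
          ≤ A * Real.exp (ε * n) * gff (k + 1) n := by
        rw [e2]
        calc (2 : ℝ) ^ n * Real.exp (-(c * n)) ≤ (K * ((n : ℝ) + 1) ^ K) * F.card := hF
          _ ≤ (K * ((n : ℝ) + 1) ^ K) * gff (k + 1) n :=
              mul_le_mul_of_nonneg_left hle' (by positivity)
          _ ≤ A * Real.exp (ε * n) * gff (k + 1) n :=
              mul_le_mul_of_nonneg_right h3 (by positivity)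
      have h5 : (2 : ℝ) ^ ((1 - 9.8 / (k : ℝ)) * n) ≤ A * gff (k + 1) n := by
        apply le_of_mul_le_mul_right _ (Real.exp_pos (ε * n))
        calc (2 : ℝ) ^ ((1 - 9.8 / (k : ℝ)) * n) * Real.exp (ε * n)
            ≤ A * Real.exp (ε * n) * gff (k + 1) n := h4
          _ = _ := by ring
      rw [one_div, inv_mul_le_iff₀ (by positivity)]
      exact h5

lemma gff_le_two_pow {r : ℕ} (hr : 1 ≤ r) (n : ℕ) : gff r n ≤ 2 ^ n := by
  obtain ⟨F, _, hF⟩ := (gff_isGreatest r n hr).1
  rw [← hF]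
  have := Finset.card_le_univ F
  rwa [Fintype.card_fun, Fintype.card_bool, Fintype.card_fin] at this

lemma seq_le_one {r : ℕ} (hr : 2 ≤ r) (n : ℕ) : Real.logb 2 (gff r n) / n ≤ 1 := by
  rcases Nat.eq_zero_or_pos n with h | h
  · subst h; simp
  · have hn0 : (0 : ℝ) < n := by exact_mod_cast h
    rw [div_le_one hn0]
    have hg : (0 : ℝ) < gff r n := by exact_mod_cast one_le_gff hr n
    have h1 : (gff r n : ℝ) ≤ 2 ^ (n : ℝ) := by
      rw [Real.rpow_natCast]
      exact_mod_cast gff_le_two_pow (by omega) n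
    have h2 := Real.logb_le_logb_of_le (b := 2) (by norm_num) hg h1
    rwa [Real.logb_rpow (by norm_num) (by norm_num)] at h2

lemma seq_nonneg {r : ℕ} (hr : 2 ≤ r) (n : ℕ) : 0 ≤ Real.logb 2 (gff r n) / n := by
  have hg : (1 : ℝ) ≤ gff r n := by exact_mod_cast one_le_gff hr n
  have : 0 ≤ Real.logb 2 (gff r n) := Real.logb_nonneg (by norm_num) hg
  positivity

lemma bdd_above {r : ℕ} (hr : 2 ≤ r) : Filter.IsBoundedUnder (· ≤ ·) Filter.atTop
    (fun n : ℕ => Real.logb 2 (gff r n) / n) := by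
  refine ⟨1, ?_⟩
  rw [Filter.eventually_map]
  filter_upwards with n
  exact seq_le_one hr n

lemma bdd_below {r : ℕ} (hr : 2 ≤ r) : Filter.IsBoundedUnder (· ≥ ·) Filter.atTop
    (fun n : ℕ => Real.logb 2 (gff r n) / n) := by
  refine ⟨0, ?_⟩
  rw [Filter.eventually_map]
  filter_upwards with n
  exact seq_nonneg hr n

theorem sigmaMinus_le_sigmaPlus {r : ℕ} (hr : 2 ≤ r) : sigmaMinus r ≤ sigmaPlus r :=
  Filter.liminf_le_limsup (bdd_above hr) (bdd_below hr)

/-- a lower bound with a constant gives a bound of the growth rate -/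
theorem le_sigmaMinus {r : ℕ} (hr : 2 ≤ r) {θ : ℝ}
    (h : ∃ c : ℝ, 0 < c ∧ ∀ n : ℕ, c * 2 ^ (θ * n) ≤ gff r n) : θ ≤ sigmaMinus r := by
  obtain ⟨c, hc, hb⟩ := h
  have hlim : Filter.Tendsto (fun n : ℕ => Real.logb 2 c / n + θ) Filter.atTop (nhds θ) := by
    have h1 : Filter.Tendsto (fun n : ℕ => Real.logb 2 c / n) Filter.atTop (nhds 0) :=
      tendsto_const_div_atTop_nhds_zero_nat _
    simpa using h1.add_const θ
  have hle : (fun n : ℕ => Real.logb 2 c / n + θ) ≤ᶠ[Filter.atTop]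
      (fun n : ℕ => Real.logb 2 (gff r n) / n) := by
    filter_upwards [Filter.eventually_ge_atTop 1] with n hn
    have hn0 : (0 : ℝ) < n := by exact_mod_cast hn
    have h1 := Real.logb_le_logb_of_le (b := 2) (by norm_num) (by positivity) (hb n)
    rw [Real.logb_mul hc.ne' (by positivity), Real.logb_rpow (by norm_num) (by norm_num)] at h1
    rw [div_add' _ _ _ hn0.ne', div_le_div_iff_of_pos_right hn0]
    exact h1
  calc θ = Filter.liminf (fun n : ℕ => Real.logb 2 c / n + θ) Filter.atTop :=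
        hlim.liminf_eq.symm
    _ ≤ sigmaMinus r :=
        Filter.liminf_le_liminf hle hlim.isBoundedUnder_ge (bdd_above hr).isCoboundedUnder_ge

end Pool.Agent.Lib.MP_fa373d_co.Low
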