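import Pool.Agent.Lib.MP_fa373d_co.LowD

/-!
Lower bound: the final statements.
-/

namespace Pool.Agent.Lib.MP_fa373d_co.Low

open Finset Exp

/-- the four bounds for every `r ≥ 3` -/
theorem bounds (r : ℕ) (hr : 3 ≤ r) :
    (∃ c : ℝ, 0 < c ∧ ∀ n : ℕ, c * 2 ^ ((1 - 9.8 / ((r : ℝ) - 1)) * n) ≤ gff r n) ∧
    1 - 9.8 / ((r : ℝ) - 1) ≤ sigmaMinus r ∧ sigmaMinus r ≤ sigmaPlus r ∧
    sigmaPlus r ≤ 1 - 1 / ((r : ℝ) - 1) := by
  obtain ⟨k, rfl⟩ : ∃ k, r = k + 1 := ⟨r - 1, by omega⟩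
  have e : ((k + 1 : ℕ) : ℝ) - 1 = k := by push_cast; ring
  rw [e]
  have h1 := gff_ge k (by omega)
  refine ⟨h1, le_sigmaMinus (by omega) h1, sigmaMinus_le_sigmaPlus (by omega), ?_⟩
  obtain ⟨h2, _, h3⟩ := all_bounds (k + 1) (by omega) (3, 57 / 200) (by simp)
  refine h3.trans ?_
  have h4 : XX 3 (57 / 200) (k + 1) ≤ k := by
    unfold XX
    rw [e]
    have : (0 : ℝ) ≤ (((k + 1 - 1) / 3 : ℕ) : ℝ) := by positivity
    linarith
  have h5 : 1 / (k : ℝ) ≤ 1 / XX 3 (57 / 200) (k + 1) :=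
    one_div_le_one_div_of_le (lt_of_lt_of_le one_pos h2) h4
  simp only at h5 ⊢
  linarith

/-- comparison with the random bound -/
theorem beats (r : ℕ) (hr : 892 ≤ r) : 1 - Real.logb 2 r / ((r : ℝ) - 1) < sigmaMinus r := by
  obtain ⟨_, h, _, _⟩ := bounds r (by omega)
  refine lt_of_lt_of_le ?_ h
  have hr' : (892 : ℝ) ≤ r := by exact_mod_cast hr
  have h1 : (9.8 : ℝ) < Real.logb 2 r := by
    rw [Real.lt_logb_iff_rpow_lt (by norm_num) (by linarith)]
    refine lt_of_lt_of_le ?_ hr'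
    have h2 : ((2 : ℝ) ^ (9.8 : ℝ)) ^ (5 : ℕ) < (892 : ℝ) ^ (5 : ℕ) := by
      rw [← Real.rpow_natCast, ← Real.rpow_mul (by norm_num)]
      have : (9.8 : ℝ) * (5 : ℕ) = (49 : ℕ) := by norm_num
      rw [this, Real.rpow_natCast]
      norm_num
    exact lt_of_pow_lt_pow_left₀ 5 (by norm_num) h2
  have h3 : 9.8 / ((r : ℝ) - 1) < Real.logb 2 r / ((r : ℝ) - 1) :=
    div_lt_div_of_pos_right h1 (by linarith)
  linarith

/-- the distance of the rates from `1` has order `1 / r` -/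
theorem order :
    (fun r : ℕ => 1 - sigmaMinus r) =Θ[Filter.atTop] (fun r : ℕ => 1 / (r : ℝ)) ∧
    (fun r : ℕ => 1 - sigmaPlus r) =Θ[Filter.atTop] (fun r : ℕ => 1 / (r : ℝ)) := by
  have key : ∀ f : ℕ → ℝ, (∀ r : ℕ, 3 ≤ r → 1 / ((r : ℝ) - 1) ≤ f r ∧ f r ≤ 9.8 / ((r : ℝ) - 1)) →
      f =Θ[Filter.atTop] (fun r : ℕ => 1 / (r : ℝ)) := by
    intro f hf
    constructor
    · apply Asymptotics.IsBigO.of_bound (9.8 * 2)
      filter_upwards [Filter.eventually_ge_atTop 3] with r hr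
      obtain ⟨h1, h2⟩ := hf r hr
      have hr' : (3 : ℝ) ≤ r := by exact_mod_cast hr
      have h3 : 0 ≤ 1 / ((r : ℝ) - 1) := div_nonneg zero_le_one (by linarith)
      rw [Real.norm_of_nonneg (h3.trans h1), Real.norm_of_nonneg (by positivity)]
      refine h2.trans ?_
      rw [mul_one_div, div_le_div_iff₀ (by linarith) (by linarith)]
      linarith
    · apply Asymptotics.IsBigO.of_bound 1
      filter_upwards [Filter.eventually_ge_atTop 3] with r hr
      obtain ⟨h1, h2⟩ := hf r hr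
      have hr' : (3 : ℝ) ≤ r := by exact_mod_cast hr
      have h3 : 0 ≤ 1 / ((r : ℝ) - 1) := div_nonneg zero_le_one (by linarith)
      rw [Real.norm_of_nonneg (h3.trans h1), Real.norm_of_nonneg (by positivity), one_mul]
      refine le_trans ?_ h1
      exact one_div_le_one_div_of_le (by linarith) (by linarith)
  constructor
  · apply key
    intro r hr
    obtain ⟨_, h2, h3, h4⟩ := bounds r hr
    constructor <;> linarith
  · apply key
    intro r hr
    obtain ⟨_, h2, h3, h4⟩ := bounds r hr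
    constructor <;> linarith

end Pool.Agent.Lib.MP_fa373d_co.Low
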