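import Pool.Agent.Lib.MP_fa373d_co.Potential

/-!
Members with a partner; binomial estimates; pigeonhole.
-/

namespace Pool.Agent.Lib.MP_fa373d_co

open Finset

variable {ι : Type*} [Fintype ι] [DecidableEq ι]

/-- members of `F` having another member of `F` that agrees with them on `R` -/
def Bset (F : Finset (ι → Bool)) (R : Finset ι) : Finset (ι → Bool) :=
  F.filter (fun x => ∃ y ∈ F, y ≠ x ∧ ∀ i ∈ R, y i = x i)

/-- the set of coordinates in `L` where `x` and `y` differ -/
def df (L : Finset ι) (x y : ι → Bool) : Finset ι := L.filter (fun i => x i ≠ y i)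

/-- number of `m`-subsets `K` of `L` such that `x` has a partner agreeing off `L \ K` -/
def pc (F : Finset (ι → Bool)) (L : Finset ι) (m : ℕ) (x : ι → Bool) : ℕ :=
  ((L.powersetCard m).filter (fun K => ∃ y ∈ F, y ≠ x ∧ ∀ i ∈ (L \ K)ᶜ, y i = x i)).card

lemma card_agree (S : Finset ι) (x : ι → Bool) :
    ((univ : Finset (ι → Bool)).filter (fun w => ∀ i ∈ S, w i = x i)).card
      = 2 ^ (Fintype.card ι - S.card) := by
  have e : (univ : Finset (ι → Bool)).filter (fun w => ∀ i ∈ S, w i = x i)
      = Fintype.piFinset (fun i => if i ∈ S then {x i} else (univ : Finset Bool)) := by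
    ext w
    simp only [mem_filter, mem_univ, true_and, Fintype.mem_piFinset]
    apply forall_congr'
    intro i
    by_cases hi : i ∈ S <;> simp [hi]
  rw [e, Fintype.card_piFinset]
  have e2 : ∀ i : ι, (if i ∈ S then {x i} else (univ : Finset Bool)).card
      = if i ∈ Sᶜ then 2 else 1 := by
    intro i
    by_cases hi : i ∈ S <;> simp [hi]
  rw [Finset.prod_congr rfl (fun i _ => e2 i), Finset.prod_ite_mem, Finset.univ_inter,
    Finset.prod_const, Finset.card_compl]

lemma unique_of_partner {F : Finset (ι → Bool)} (hF : FF 2 F) {S : Finset ι} {x : ι → Bool}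
    (hx : x ∈ Bset F Sᶜ) {w : ι → Bool} (hw : ∀ i ∈ S, w i = x i) : cnt F S w = 1 := by
  rw [Bset, mem_filter] at hx
  obtain ⟨hxF, y, hyF, hyx, hy⟩ := hx
  rw [cnt, card_eq_one]
  refine ⟨x, ?_⟩
  ext z
  simp only [mem_filter, mem_singleton]
  constructor
  · rintro ⟨hz, hzw⟩
    by_contra hzx
    have hzS : ∀ i ∈ S, z i = x i := fun i hi => (hzw i hi).trans (hw i hi)
    have hzy : z ≠ y := by
      rintro rfl
      apply hzx
      funext i
      by_cases hi : i ∈ S
      · exact hzS i hi
      · exact hy i (by simpa using hi)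
    have key : ∀ i, y i = x i ∨ z i = x i := by
      intro i
      by_cases hi : i ∈ S
      · exact Or.inr (hzS i hi)
      · exact Or.inl (hy i (by simpa using hi))
    apply hF x hxF {y, z}
    · intro u hu
      simp only [mem_insert, mem_singleton] at hu
      rcases hu with rfl | rfl <;> assumption
    · simp only [mem_insert, mem_singleton, not_or]
      exact ⟨fun h => hyx h.symm, fun h => hzx h.symm⟩
    · rw [card_insert_of_notMem (by simpa using fun h => hzy h.symm), card_singleton]
    · intro a ha b hb hab i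
      simp only [mem_insert, mem_singleton] at ha hb
      rcases ha with rfl | rfl <;> rcases hb with rfl | rfl
      · exact absurd rfl hab
      · exact key i
      · exact (key i).symm
      · exact absurd rfl hab
  · rintro rfl
    exact ⟨hxF, fun i hi => (hw i hi).symm⟩

/-- lower bound for `U` through members with a partner, for families without two petals -/
lemma U_ge {F : Finset (ι → Bool)} (hF : FF 2 F) (S : Finset ι) :
    (2 : ℝ) ^ (Fintype.card ι - S.card) * ((Bset F Sᶜ).card : ℝ) ≤ U F S := by
  have hU : U F S = (((univ : Finset (ι → Bool)).filter (fun w => cnt F S w = 1)).card : ℝ) := by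
    unfold U
    rw [Finset.card_filter]
    push_cast
    rfl
  rw [hU]
  have hsub : (Bset F Sᶜ).biUnion
      (fun x => (univ : Finset (ι → Bool)).filter (fun w => ∀ i ∈ S, w i = x i))
      ⊆ (univ : Finset (ι → Bool)).filter (fun w => cnt F S w = 1) := by
    intro w hw
    simp only [mem_biUnion, mem_filter, mem_univ, true_and] at hw ⊢
    obtain ⟨x, hx, hxw⟩ := hw
    exact unique_of_partner hF hx hxw
  have hcard := Finset.card_le_card hsub
  rw [Finset.card_biUnion] at hcard
  · rw [Finset.sum_congr rfl (fun x _ => card_agree S x), Finset.sum_const, smul_eq_mul] at hcard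
    calc (2 : ℝ) ^ (Fintype.card ι - S.card) * ((Bset F Sᶜ).card : ℝ)
        = (((Bset F Sᶜ).card * 2 ^ (Fintype.card ι - S.card) : ℕ) : ℝ) := by
          push_cast; ring
      _ ≤ _ := by exact_mod_cast hcard
  · intro x hx y hy hxy
    change Disjoint _ _
    rw [Finset.disjoint_left]
    intro w hwx hwy
    simp only [mem_filter, mem_univ, true_and] at hwx hwy
    have h1 := unique_of_partner hF hx hwx
    rw [cnt, card_eq_one] at h1
    obtain ⟨a, ha⟩ := h1
    have hxa : x ∈ ({a} : Finset (ι → Bool)) := by
      rw [← ha, mem_filter]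
      exact ⟨(mem_filter.mp hx).1, fun i hi => (hwx i hi).symm⟩
    have hya : y ∈ ({a} : Finset (ι → Bool)) := by
      rw [← ha, mem_filter]
      exact ⟨(mem_filter.mp hy).1, fun i hi => (hwy i hi).symm⟩
    rw [mem_singleton] at hxa hya
    exact hxy (hxa.trans hya.symm)

/-- double counting of the partner relation -/
lemma sum_Bset (F : Finset (ι → Bool)) (L : Finset ι) (m : ℕ) :
    ∑ K ∈ L.powersetCard m, (Bset F (L \ K)ᶜ).card = ∑ x ∈ F, pc F L m x := by
  unfold Bset pc
  simp_rw [Finset.card_filter]
  rw [Finset.sum_comm]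

omit [Fintype ι] in
/-- the number of `m`-subsets of `L` on which nothing of `D` lies -/
lemma card_avoid (L D : Finset ι) (m : ℕ) (hD : D ⊆ L) :
    ((L.powersetCard m).filter (fun K => Disjoint K D)).card = (L.card - D.card).choose m := by
  have : (L.powersetCard m).filter (fun K => Disjoint K D) = (L \ D).powersetCard m := by
    ext K
    simp only [mem_filter, mem_powersetCard]
    constructor
    · rintro ⟨⟨h1, h2⟩, h3⟩
      refine ⟨?_, h2⟩
      intro i hi
      exact mem_sdiff.mpr ⟨h1 hi, fun h => (Finset.disjoint_left.mp h3) hi h⟩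
    · rintro ⟨h1, h2⟩
      refine ⟨⟨h1.trans sdiff_subset, h2⟩, ?_⟩
      rw [Finset.disjoint_left]
      intro i hi h
      exact (mem_sdiff.mp (h1 hi)).2 h
  rw [this, card_powersetCard, card_sdiff_of_subset hD]

/-- a partner at distance `d` in `L` gives at least `choose (l - d) m` -/
lemma pc_ge {F : Finset (ι → Bool)} {L : Finset ι} (m : ℕ) {x y : ι → Bool} (hy : y ∈ F)
    (hxy : y ≠ x) (hL : ∀ i ∉ L, y i = x i) :
    (L.card - (df L x y).card).choose m ≤ pc F L m x := by
  rw [← card_avoid L (df L x y) m (filter_subset _ _)]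
  unfold pc
  apply Finset.card_le_card
  intro K hK
  simp only [mem_filter] at hK ⊢
  refine ⟨hK.1, y, hy, hxy, ?_⟩
  intro i hi
  by_cases hiL : i ∈ L
  · have hiK : i ∈ K := by
      by_contra h
      simp [hiL, h] at hi
    by_contra hne
    exact (Finset.disjoint_left.mp hK.2) hiK (by
      simp only [df, mem_filter]; exact ⟨hiL, fun h => hne h.symm⟩)
  · exact hL i hiL

lemma choose_ge (a l m : ℕ) (ham : m ≤ a) :
    ((a : ℝ) - m) ^ m * (l.choose m : ℝ) ≤ (a.choose m : ℝ) * (l : ℝ) ^ m := by
  have hf : (0 : ℝ) < (m.factorial : ℝ) := by exact_mod_cast Nat.factorial_pos m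
  have h1 : (l.choose m : ℝ) * m.factorial ≤ (l : ℝ) ^ m := by
    have := Nat.descFactorial_le_pow l m
    rw [Nat.descFactorial_eq_factorial_mul_choose] at this
    have h : ((m.factorial * l.choose m : ℕ) : ℝ) ≤ ((l ^ m : ℕ) : ℝ) := by exact_mod_cast this
    push_cast at h
    linarith
  have h2 : ((a : ℝ) - m) ^ m ≤ (a.choose m : ℝ) * m.factorial := by
    have := Nat.pow_sub_le_descFactorial a m
    rw [Nat.descFactorial_eq_factorial_mul_choose] at this
    have h : (((a + 1 - m) ^ m : ℕ) : ℝ) ≤ ((m.factorial * a.choose m : ℕ) : ℝ) := by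
      exact_mod_cast this
    push_cast at h
    have h3 : ((a : ℝ) - m) ^ m ≤ (((a + 1 - m : ℕ)) : ℝ) ^ m := by
      apply pow_le_pow_left₀
      · have : (m : ℝ) ≤ a := by exact_mod_cast ham
        linarith
      · rw [Nat.cast_sub (by omega)]
        push_cast
        linarith
    linarith
  have h4 : ((a : ℝ) - m) ^ m * ((l.choose m : ℝ) * m.factorial)
      ≤ ((a.choose m : ℝ) * m.factorial) * (l : ℝ) ^ m := by
    apply mul_le_mul h2 h1 (by positivity) (by positivity)
  have h5 : (((a : ℝ) - m) ^ m * (l.choose m : ℝ)) * m.factorial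
      ≤ ((a.choose m : ℝ) * (l : ℝ) ^ m) * m.factorial := by linarith
  exact le_of_mul_le_mul_right h5 hf

lemma choose_le' (a l m : ℕ) (hal : a ≤ l) :
    (a.choose m) * l ^ m ≤ a ^ m * (l.choose m) := by
  have h : a.descFactorial m * l ^ m ≤ a ^ m * l.descFactorial m := by
    induction m with
    | zero => simp
    | succ m ih =>
      rw [Nat.descFactorial_succ, Nat.descFactorial_succ, pow_succ, pow_succ]
      have h1 : (a - m) * l ≤ a * (l - m) := by
        rcases Nat.lt_or_ge a m with h | h
        · rw [Nat.sub_eq_zero_of_le h.le]; simp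
        · obtain ⟨b, rfl⟩ := Nat.exists_eq_add_of_le h
          obtain ⟨c, rfl⟩ := Nat.exists_eq_add_of_le hal
          have e1 : m + b - m = b := by omega
          have e2 : m + b + c - m = b + c := by omega
          rw [e1, e2]
          nlinarith [Nat.zero_le (m * c)]
      calc (a - m) * a.descFactorial m * (l ^ m * l)
          = ((a - m) * l) * (a.descFactorial m * l ^ m) := by ring
        _ ≤ (a * (l - m)) * (a ^ m * l.descFactorial m) := Nat.mul_le_mul h1 ih
        _ = a ^ m * a * ((l - m) * l.descFactorial m) := by ring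
  rw [Nat.descFactorial_eq_factorial_mul_choose, Nat.descFactorial_eq_factorial_mul_choose] at h
  have hf : 0 < m.factorial := Nat.factorial_pos m
  have h' : m.factorial * (a.choose m * l ^ m) ≤ m.factorial * (a ^ m * l.choose m) := by
    nlinarith
  exact Nat.le_of_mul_le_mul_left h' hf

/-- pigeonhole on the patterns outside `L` -/
lemma pigeon (F : Finset (ι → Bool)) (L : Finset ι) (s : ℕ)
    (h : 2 ^ (Fintype.card ι - L.card) * s < F.card) :
    ∃ G ⊆ F, G.card = s + 1 ∧ ∀ x ∈ G, ∀ y ∈ G, ∀ i ∉ L, x i = y i := by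
  classical
  have h2 : (univ : Finset ({i // i ∉ L} → Bool)).card * s < F.card := by
    have : (univ : Finset ({i // i ∉ L} → Bool)).card = 2 ^ (Fintype.card ι - L.card) := by
      rw [Finset.card_univ, Fintype.card_fun, Fintype.card_bool]
      congr 1
      rw [Fintype.card_subtype_compl]
      simp
    rw [this]; exact h
  obtain ⟨p, _, hp⟩ := Finset.exists_lt_card_fiber_of_mul_lt_card_of_maps_to
    (f := fun (x : ι → Bool) (i : {i // i ∉ L}) => x i.1) (t := univ) (s := F) (n := s)
    (fun x _ => mem_univ _) h2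
  obtain ⟨G, hG, hGc⟩ := Finset.exists_subset_card_eq (Nat.succ_le_of_lt hp)
  refine ⟨G, hG.trans (filter_subset _ _), hGc, ?_⟩
  intro x hx y hy i hi
  have h1 := (mem_filter.mp (hG hx)).2
  have h3 := (mem_filter.mp (hG hy)).2
  have := congrFun (h1.trans h3.symm) ⟨i, hi⟩
  exact this

end Pool.Agent.Lib.MP_fa373d_co
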