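import Mathlib

/-!
Focal-free families: the potential `W` and the one-step gain.
-/

namespace Pool.Agent.Lib.MP_fa373d_co

open Finset

variable {ι : Type*} [Fintype ι] [DecidableEq ι]

/-- `F` contains no member `x` together with `k` further members whose difference sets with `x`
are pairwise disjoint. -/
def FF (k : ℕ) (F : Finset (ι → Bool)) : Prop :=
  ∀ x ∈ F, ∀ Y ⊆ F, x ∉ Y → Y.card = k →
    ¬ (∀ y ∈ Y, ∀ z ∈ Y, y ≠ z → ∀ i, y i = x i ∨ z i = x i)

/-- number of members of `F` that agree with `w` on `S` -/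
def cnt (F : Finset (ι → Bool)) (S : Finset ι) (w : ι → Bool) : ℕ :=
  (F.filter (fun x => ∀ i ∈ S, x i = w i)).card

/-- the potential -/
noncomputable def W (F : Finset (ι → Bool)) (S : Finset ι) : ℝ :=
  ∑ w : ι → Bool, 1 / (1 + (cnt F S w : ℝ))

/-- the number of patterns that are met by exactly one member on `S` (with multiplicity) -/
noncomputable def U (F : Finset (ι → Bool)) (S : Finset ι) : ℝ :=
  ∑ w : ι → Bool, if cnt F S w = 1 then (1 : ℝ) else 0

/-- flip coordinate `i` -/
def flip (i : ι) (w : ι → Bool) : ι → Bool := Function.update w i (!(w i))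

omit [Fintype ι] in
lemma flip_invol (i : ι) : Function.Involutive (flip (ι := ι) i) := by
  intro w
  funext j
  unfold flip
  by_cases h : j = i
  · subst h; simp
  · simp [h]

lemma cnt_insert (F : Finset (ι → Bool)) (S : Finset ι) (i : ι) (hi : i ∉ S) (w : ι → Bool) :
    cnt F (insert i S) w + cnt F (insert i S) (flip i w) = cnt F S w := by
  unfold cnt
  have h1 : F.filter (fun x => ∀ j ∈ insert i S, x j = w j)
      = (F.filter (fun x => ∀ j ∈ S, x j = w j)).filter (fun x => x i = w i) := by
    ext x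
    simp only [mem_filter, mem_insert, forall_eq_or_imp]
    tauto
  have h2 : F.filter (fun x => ∀ j ∈ insert i S, x j = flip i w j)
      = (F.filter (fun x => ∀ j ∈ S, x j = w j)).filter (fun x => ¬ (x i = w i)) := by
    ext x
    simp only [mem_filter, mem_insert, forall_eq_or_imp]
    have e1 : (x i = flip i w i) ↔ ¬ (x i = w i) := by
      simp only [flip, Function.update_self]
      cases x i <;> cases w i <;> simp
    have e2 : (∀ j ∈ S, x j = flip i w j) ↔ (∀ j ∈ S, x j = w j) := by
      apply forall₂_congr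
      intro j hj
      have : j ≠ i := fun h => hi (h ▸ hj)
      simp [flip, this]
    rw [e1, e2]
    tauto
  rw [h1, h2]
  exact Finset.card_filter_add_card_filter_not _

lemma phi_ineq (a b : ℕ) :
    2 * (1 / (1 + ((a + b : ℕ) : ℝ))) + (if a + b = 1 then (1 : ℝ) else 0) / 2
      ≤ 1 / (1 + (a : ℝ)) + 1 / (1 + (b : ℝ)) := by
  by_cases h : a + b = 1
  · rw [if_pos h]
    rcases Nat.eq_zero_or_pos a with ha | ha
    · have hb : b = 1 := by omega
      subst ha hb; norm_num
    · have hb : b = 0 := by omega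
      have ha' : a = 1 := by omega
      subst ha' hb; norm_num
  · rw [if_neg h]
    have h1 : 1 / (1 + ((a + b : ℕ) : ℝ)) ≤ 1 / (1 + (a : ℝ)) := by
      apply one_div_le_one_div_of_le
      · positivity
      · push_cast
        have : (0 : ℝ) ≤ b := by positivity
        linarith
    have h2 : 1 / (1 + ((a + b : ℕ) : ℝ)) ≤ 1 / (1 + (b : ℝ)) := by
      apply one_div_le_one_div_of_le
      · positivity
      · push_cast
        have : (0 : ℝ) ≤ a := by positivity
        linarith
    linarith

/-- the one-step gain -/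
lemma W_insert (F : Finset (ι → Bool)) (S : Finset ι) (i : ι) (hi : i ∉ S) :
    W F S + U F S / 4 ≤ W F (insert i S) := by
  have e : W F (insert i S) = ∑ w : ι → Bool, 1 / (1 + (cnt F (insert i S) (flip i w) : ℝ)) := by
    unfold W
    exact (Equiv.sum_comp (flip_invol i).toPerm
      (fun w => 1 / (1 + (cnt F (insert i S) w : ℝ)))).symm
  have h : 2 * W F S + U F S / 2 ≤ W F (insert i S) + W F (insert i S) := by
    nth_rewrite 2 [e]
    unfold W U
    rw [Finset.mul_sum, Finset.sum_div, ← Finset.sum_add_distrib, ← Finset.sum_add_distrib]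
    apply Finset.sum_le_sum
    intro w _
    have := phi_ineq (cnt F (insert i S) w) (cnt F (insert i S) (flip i w))
    rw [cnt_insert F S i hi w] at this
    exact this
  linarith

lemma W_nonneg (F : Finset (ι → Bool)) (S : Finset ι) : 0 ≤ W F S := by
  unfold W
  positivity

lemma W_le (F : Finset (ι → Bool)) (S : Finset ι) : W F S ≤ 2 ^ (Fintype.card ι) := by
  unfold W
  calc ∑ w : ι → Bool, 1 / (1 + (cnt F S w : ℝ)) ≤ ∑ _w : ι → Bool, (1 : ℝ) := by
        apply Finset.sum_le_sum
        intro w _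
        rw [div_le_one (by positivity)]
        have : (0 : ℝ) ≤ cnt F S w := by positivity
        linarith
    _ = 2 ^ (Fintype.card ι) := by simp

lemma U_nonneg (F : Finset (ι → Bool)) (S : Finset ι) : 0 ≤ U F S := by
  unfold U
  apply Finset.sum_nonneg
  intro w _
  split_ifs <;> norm_num

/-- double counting -/
lemma double_count {α : Type*} [DecidableEq α] (L : Finset α) (m : ℕ) (f : Finset α → ℝ) :
    ∑ K ∈ L.powersetCard (m + 1), ∑ i ∈ K, f (K.erase i)
      = ((L.card - m : ℕ) : ℝ) * ∑ K ∈ L.powersetCard m, f K := by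
  have h1 : ((L.card - m : ℕ) : ℝ) * ∑ K ∈ L.powersetCard m, f K
      = ∑ K ∈ L.powersetCard m, ∑ _i ∈ L \ K, f K := by
    rw [Finset.mul_sum]
    apply Finset.sum_congr rfl
    intro K hK
    rw [mem_powersetCard] at hK
    rw [Finset.sum_const, nsmul_eq_mul, Finset.card_sdiff_of_subset hK.1, hK.2]
  rw [h1, Finset.sum_sigma', Finset.sum_sigma']
  refine Finset.sum_bij' (fun p _ => ⟨p.1.erase p.2, p.2⟩) (fun p _ => ⟨insert p.2 p.1, p.2⟩)
    ?_ ?_ ?_ ?_ ?_
  · rintro ⟨K, i⟩ h
    simp only [mem_sigma, mem_powersetCard, mem_sdiff, mem_erase] at h ⊢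
    refine ⟨⟨(erase_subset _ _).trans h.1.1, ?_⟩, h.1.1 h.2, fun h' => h'.1 rfl⟩
    rw [card_erase_of_mem h.2, h.1.2]; rfl
  · rintro ⟨K, i⟩ h
    simp only [mem_sigma, mem_powersetCard, mem_sdiff] at h ⊢
    refine ⟨⟨insert_subset h.2.1 h.1.1, ?_⟩, mem_insert_self _ _⟩
    rw [card_insert_of_notMem h.2.2, h.1.2]
  · rintro ⟨K, i⟩ h
    simp only [mem_sigma] at h
    simp [insert_erase h.2]
  · rintro ⟨K, i⟩ h
    simp only [mem_sigma, mem_sdiff] at h
    simp [erase_insert h.2.2]
  · rintro ⟨K, i⟩ h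
    rfl

/-- the drop of the averaged potential, one level -/
lemma level_step (F : Finset (ι → Bool)) (L : Finset ι) (m : ℕ) :
    ((m : ℝ) + 1) * (∑ K ∈ L.powersetCard (m + 1), W F (L \ K)
        + (∑ K ∈ L.powersetCard (m + 1), U F (L \ K)) / 4)
      ≤ ((L.card - m : ℕ) : ℝ) * ∑ K ∈ L.powersetCard m, W F (L \ K) := by
  rw [← double_count L m (fun K => W F (L \ K))]
  rw [Finset.sum_div, ← Finset.sum_add_distrib, Finset.mul_sum]
  apply Finset.sum_le_sum
  intro K hK
  rw [mem_powersetCard] at hK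
  have : ((m : ℝ) + 1) * (W F (L \ K) + U F (L \ K) / 4)
      = ∑ _i ∈ K, (W F (L \ K) + U F (L \ K) / 4) := by
    rw [Finset.sum_const, nsmul_eq_mul, hK.2]; push_cast; ring
  rw [this]
  apply Finset.sum_le_sum
  intro i hi
  have e : L \ K.erase i = insert i (L \ K) := by
    ext j
    simp only [mem_sdiff, mem_erase, mem_insert]
    by_cases hj : j = i
    · subst hj; simp [hK.1 hi]
    · simp [hj]
  rw [e]
  exact W_insert F (L \ K) i (by simp [hi])

/-- average of `U` over the `m`-subsets removed from `L`, summed over the levels `1..M` -/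
lemma sum_levels (F : Finset (ι → Bool)) (L : Finset ι) (M : ℕ) (hM : M ≤ L.card) :
    ∑ m ∈ Finset.range M, (∑ K ∈ L.powersetCard (m + 1), U F (L \ K)) / (L.card.choose (m + 1) : ℝ)
      + 4 * ((∑ K ∈ L.powersetCard M, W F (L \ K)) / (L.card.choose M : ℝ))
      ≤ 4 * 2 ^ (Fintype.card ι) := by
  induction M with
  | zero =>
    simp only [Finset.range_zero, Finset.sum_empty, Finset.powersetCard_zero, Finset.sum_singleton,
      Finset.sdiff_empty, Nat.choose_zero_right, Nat.cast_one, div_one, zero_add]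
    have := W_le F L
    linarith
  | succ M ih =>
    have ih' := ih (by omega)
    rw [Finset.sum_range_succ]
    have hs := level_step F L M
    have hc1 : (0 : ℝ) < (L.card.choose (M + 1) : ℝ) := by
      exact_mod_cast Nat.choose_pos hM
    have hc0 : (0 : ℝ) < (L.card.choose M : ℝ) := by
      exact_mod_cast Nat.choose_pos (by omega : M ≤ L.card)
    have hrel : (L.card.choose (M + 1) : ℝ) * ((M : ℝ) + 1)
        = (L.card.choose M : ℝ) * ((L.card - M : ℕ) : ℝ) := by
      exact_mod_cast Nat.choose_succ_right_eq L.card M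
    set A := ∑ K ∈ L.powersetCard (M + 1), W F (L \ K)
    set B := ∑ K ∈ L.powersetCard (M + 1), U F (L \ K)
    set D := ∑ K ∈ L.powersetCard M, W F (L \ K)
    have key : A / (L.card.choose (M + 1) : ℝ) + (B / (L.card.choose (M + 1) : ℝ)) / 4
        ≤ D / (L.card.choose M : ℝ) := by
      have e : A / (L.card.choose (M + 1) : ℝ) + (B / (L.card.choose (M + 1) : ℝ)) / 4
          = (A + B / 4) / (L.card.choose (M + 1) : ℝ) := by ring
      rw [e, div_le_div_iff₀ hc1 hc0]
      have hm : (0 : ℝ) < (M : ℝ) + 1 := by positivity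
      have h3 : (A + B / 4) * (L.card.choose M : ℝ) * ((M : ℝ) + 1)
          ≤ D * (L.card.choose (M + 1) : ℝ) * ((M : ℝ) + 1) := by
        calc (A + B / 4) * (L.card.choose M : ℝ) * ((M : ℝ) + 1)
            = (((M : ℝ) + 1) * (A + B / 4)) * (L.card.choose M : ℝ) := by ring
          _ ≤ (((L.card - M : ℕ) : ℝ) * D) * (L.card.choose M : ℝ) :=
              mul_le_mul_of_nonneg_right hs hc0.le
          _ = D * ((L.card.choose M : ℝ) * ((L.card - M : ℕ) : ℝ)) := by ring
          _ = D * (L.card.choose (M + 1) : ℝ) * ((M : ℝ) + 1) := by rw [← hrel]; ring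
      exact le_of_mul_le_mul_right h3 hm
    linarith

end Pool.Agent.Lib.MP_fa373d_co
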