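import Pool.Agent.Lib.MP_fa373d_co.Base

/-!
The induction step: from `k` petals to `k + 1` petals.
-/

namespace Pool.Agent.Lib.MP_fa373d_co

open Finset

section general

variable {ι : Type*} [Fintype ι] [DecidableEq ι]

/-- the members with a partner off `L` and with a fixed pattern on `L` -/
def fib (F : Finset (ι → Bool)) (L : Finset ι) (w : ι → Bool) : Finset (ι → Bool) :=
  (Bset F Lᶜ).filter (fun x => ∀ i ∈ L, x i = w i)

lemma mem_fib {F : Finset (ι → Bool)} {L : Finset ι} {w x : ι → Bool} :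
    x ∈ fib F L w ↔ x ∈ Bset F Lᶜ ∧ ∀ i ∈ L, x i = w i := by
  rw [fib, mem_filter]

/-- the members with a partner off `L` and with a fixed pattern on `L` have one petal less -/
lemma FF_fibre {k : ℕ} {F : Finset (ι → Bool)} (hF : FF (k + 1) F) (L : Finset ι)
    (w : ι → Bool) : FF k (fib F L w) := by
  intro x hx Y hY hxY hYc hdis
  rw [mem_fib, Bset, mem_filter] at hx
  obtain ⟨⟨hxF, y, hyF, hyx, hy⟩, hxw⟩ := hx
  have hYF : Y ⊆ F := fun z hz => by
    have := hY hz
    rw [mem_fib, Bset, mem_filter] at this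
    exact this.1.1
  have hYL : ∀ z ∈ Y, ∀ i ∈ L, z i = x i := by
    intro z hz i hi
    have := hY hz
    rw [mem_fib] at this
    rw [this.2 i hi, hxw i hi]
  have hyY : y ∉ Y := by
    intro h
    apply hyx
    funext i
    by_cases hi : i ∈ L
    · exact hYL y h i hi
    · exact hy i (by simpa using hi)
  have key : ∀ z ∈ Y, ∀ i, y i = x i ∨ z i = x i := by
    intro z hz i
    by_cases hi : i ∈ L
    · exact Or.inr (hYL z hz i hi)
    · exact Or.inl (hy i (by simpa using hi))
  apply hF x hxF (insert y Y)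
  · exact insert_subset hyF hYF
  · simp only [mem_insert, not_or]
    exact ⟨fun h => hyx h.symm, hxY⟩
  · rw [card_insert_of_notMem hyY, hYc]
  · intro a ha b hb hab i
    rw [mem_insert] at ha hb
    rcases ha with rfl | ha <;> rcases hb with rfl | hb
    · exact absurd rfl hab
    · exact key b hb i
    · exact (key a ha i).symm
    · exact hdis a ha b hb hab i

omit [Fintype ι] in
/-- restriction along an injection outside whose range all members agree -/
lemma FF_restrict {κ : Type*} [Fintype κ] [DecidableEq κ] {k : ℕ} {F : Finset (ι → Bool)}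
    (hF : FF k F) (g : κ → ι)
    (hagree : ∀ x ∈ F, ∀ y ∈ F, ∀ i ∉ Set.range g, x i = y i) :
    FF k (F.image (fun x => x ∘ g)) ∧ (F.image (fun x => x ∘ g)).card = F.card := by
  have hinj : Set.InjOn (fun x : ι → Bool => x ∘ g) (F : Set (ι → Bool)) := by
    intro x hx y hy h
    funext i
    by_cases hi : i ∈ Set.range g
    · obtain ⟨j, rfl⟩ := hi
      exact congrFun h j
    · exact hagree x hx y hy i hi
  refine ⟨?_, Finset.card_image_of_injOn hinj⟩
  intro x hx Y hY hxY hYc hdis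
  rw [mem_image] at hx
  obtain ⟨x', hx', rfl⟩ := hx
  have hY' : ((F.filter (fun z => z ∘ g ∈ Y)).image (fun x => x ∘ g)) = Y := by
    ext z
    simp only [mem_image, mem_filter]
    constructor
    · rintro ⟨a, ⟨_, h⟩, rfl⟩; exact h
    · intro hz
      have := hY hz
      rw [mem_image] at this
      obtain ⟨a, ha, rfl⟩ := this
      exact ⟨a, ⟨ha, hz⟩, rfl⟩
  apply hF x' hx' (F.filter (fun z => z ∘ g ∈ Y)) (filter_subset _ _)
  · rw [mem_filter]
    exact fun h => hxY h.2
  · rw [← hYc]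
    conv_rhs => rw [← hY']
    rw [Finset.card_image_of_injOn]
    exact hinj.mono (by intro z hz; exact (mem_filter.mp hz).1)
  · intro a ha b hb hab i
    rw [mem_filter] at ha hb
    by_cases hi : i ∈ Set.range g
    · obtain ⟨j, rfl⟩ := hi
      exact hdis _ ha.2 _ hb.2 (fun h => hab (hinj ha.1 hb.1 h)) j
    · exact Or.inl (hagree a ha.1 x' hx' i hi)

/-- the members without a partner at distance at most `2/3 |L|` are few -/
lemma far_few (F : Finset (ι → Bool)) (L : Finset ι)
    (hfar : ∀ x ∈ F, ∀ y ∈ F, x ≠ y → (∀ i ∉ L, x i = y i) → 2 * L.card < 3 * (df L x y).card) :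
    F.card ≤ 2 ^ (Fintype.card ι - L.card) * 2 := by
  by_contra hcon
  rw [not_le] at hcon
  obtain ⟨G, hG, hGc, hGL⟩ := pigeon F L 2 hcon
  rw [Finset.card_eq_three] at hGc
  obtain ⟨x, y, z, hxy, hxz, hyz, rfl⟩ := hGc
  have hx : x ∈ ({x, y, z} : Finset (ι → Bool)) := by simp
  have hy : y ∈ ({x, y, z} : Finset (ι → Bool)) := by simp
  have hz : z ∈ ({x, y, z} : Finset (ι → Bool)) := by simp
  have h1 := hfar x (hG hx) y (hG hy) hxy (hGL x hx y hy)
  have h2 := hfar x (hG hx) z (hG hz) hxz (hGL x hx z hz)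
  have h3 := hfar y (hG hy) z (hG hz) hyz (hGL y hy z hz)
  have hu := df_union L x y z
  have h4 : (df L x y ∪ df L x z).card ≤ L.card :=
    Finset.card_le_card (union_subset (filter_subset _ _) (filter_subset _ _))
  omega

lemma near_bound {F : Finset (ι → Bool)} {L : Finset ι} {m : ℕ} (hl : 12 * m ≤ L.card)
    (hl1 : 1 ≤ L.card) {x y : ι → Bool} (hy : y ∈ F) (hxy : y ≠ x)
    (hL : ∀ i ∉ L, y i = x i) (hd : 3 * (df L x y).card ≤ 2 * L.card) :
    (L.card.choose m : ℝ) * (1 / 4) ^ m ≤ (pc F L m x : ℝ) := by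
  have h1 := pc_ge m hy hxy hL
  have h1' : ((L.card - (df L x y).card).choose m : ℝ) ≤ (pc F L m x : ℝ) := by exact_mod_cast h1
  refine le_trans ?_ h1'
  set a := L.card - (df L x y).card with ha
  have ham : m ≤ a := by omega
  have hcg := choose_ge a L.card m ham
  have hl0 : (0 : ℝ) < L.card := by exact_mod_cast hl1
  have h3 : (1 / 4 : ℝ) * L.card ≤ (a : ℝ) - m := by
    have e1 : L.card ≤ 3 * a := by omega
    have e2 : (L.card : ℝ) ≤ 3 * a := by exact_mod_cast e1
    have e3 : (12 : ℝ) * m ≤ L.card := by exact_mod_cast hl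
    linarith
  have h4 : ((1 / 4 : ℝ) * L.card) ^ m ≤ ((a : ℝ) - m) ^ m :=
    pow_le_pow_left₀ (by positivity) h3 m
  rw [mul_pow] at h4
  have hc0 : (0 : ℝ) ≤ (L.card.choose m : ℝ) := by positivity
  have h6 : ((L.card.choose m : ℝ) * (1 / 4 : ℝ) ^ m) * (L.card : ℝ) ^ m
      ≤ (a.choose m : ℝ) * (L.card : ℝ) ^ m := by
    calc ((L.card.choose m : ℝ) * (1 / 4 : ℝ) ^ m) * (L.card : ℝ) ^ m
        = ((1 / 4 : ℝ) ^ m * (L.card : ℝ) ^ m) * (L.card.choose m : ℝ) := by ring
      _ ≤ ((a : ℝ) - m) ^ m * (L.card.choose m : ℝ) := mul_le_mul_of_nonneg_right h4 hc0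
      _ ≤ _ := hcg
  exact le_of_mul_le_mul_right h6 (by positivity)

lemma sum_pc_ge' (F : Finset (ι → Bool)) (L : Finset ι) (m : ℕ) (hl : 12 * m ≤ L.card)
    (hl1 : 1 ≤ L.card) :
    (L.card.choose m : ℝ) * (1 / 4) ^ m
        * ((F.card : ℝ) - 2 * 2 ^ (Fintype.card ι - L.card)) ≤ ∑ x ∈ F, (pc F L m x : ℝ) := by
  classical
  set P : (ι → Bool) → Prop := fun x => ∃ y ∈ F, y ≠ x ∧ (∀ i ∉ L, y i = x i) ∧
    3 * (df L x y).card ≤ 2 * L.card with hP
  set c : ℝ := (L.card.choose m : ℝ) * (1 / 4) ^ m with hc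
  have hclose : c * ((F.filter P).card : ℝ) ≤ ∑ x ∈ F.filter P, (pc F L m x : ℝ) := by
    rw [mul_comm, ← nsmul_eq_mul, ← Finset.sum_const]
    apply Finset.sum_le_sum
    intro x hx
    rw [mem_filter] at hx
    obtain ⟨_, y, hy, hyx, hL, hd⟩ := hx
    exact near_bound hl hl1 hy hyx hL hd
  have hfar := far_few (F.filter (fun x => ¬ P x)) L (by
      intro x hx y hy hxy hL
      rw [mem_filter] at hx hy
      by_contra hcon
      apply hx.2
      exact ⟨y, hy.1, fun h => hxy h.symm, fun i hi => (hL i hi).symm, by omega⟩)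
  have hfar' : ((F.filter (fun x => ¬ P x)).card : ℝ) ≤ 2 * 2 ^ (Fintype.card ι - L.card) := by
    have : ((F.filter (fun x => ¬ P x)).card : ℝ)
        ≤ ((2 ^ (Fintype.card ι - L.card) * 2 : ℕ) : ℝ) := by exact_mod_cast hfar
    push_cast at this
    linarith
  have hsum := Finset.sum_filter_add_sum_filter_not F P (fun x => (pc F L m x : ℝ))
  have hcard : ((F.filter P).card : ℝ) + ((F.filter (fun x => ¬ P x)).card : ℝ) = F.card := by
    exact_mod_cast Finset.card_filter_add_card_filter_not (s := F) P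
  have hnn : (0 : ℝ) ≤ ∑ x ∈ F.filter (fun x => ¬ P x), (pc F L m x : ℝ) := by positivity
  rw [← hsum]
  have hc0 : 0 ≤ c := by positivity
  calc c * ((F.card : ℝ) - 2 * 2 ^ (Fintype.card ι - L.card))
      ≤ c * ((F.filter P).card : ℝ) := by
        apply mul_le_mul_of_nonneg_left _ hc0
        linarith
    _ ≤ _ := by linarith

end general

/-- the number of members with a partner off `L` -/
lemma Bset_le {k n : ℕ} {F : Finset (Fin n → Bool)} (hF : FF (k + 1) F) (L : Finset (Fin n))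
    {G : ℝ} (hG : ∀ F' : Finset (Fin (n - L.card) → Bool), FF k F' → (F'.card : ℝ) ≤ G) :
    ((Bset F Lᶜ).card : ℝ) ≤ 2 ^ L.card * G := by
  classical
  have hLc : (Lᶜ).card = n - L.card := by rw [card_compl, Fintype.card_fin]
  have hfib : ∀ w : Fin n → Bool,
      ((fib F L w).card : ℝ) ≤ G := by
    intro w
    have h1 := FF_fibre hF L w
    have h2 := FF_restrict h1 (fun j => (Lᶜ).orderEmbOfFin hLc j) (by
      intro x hx y hy i hi
      have hi' : i ∈ L := by
        by_contra hcon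
        apply hi
        have : (i : Fin n) ∈ ((Lᶜ : Finset (Fin n)) : Set (Fin n)) := by simpa using hcon
        rw [← Finset.range_orderEmbOfFin Lᶜ hLc] at this
        exact this
      rw [mem_fib] at hx hy
      rw [hx.2 i hi', hy.2 i hi'])
    have h3 := hG _ h2.1
    rw [h2.2] at h3
    exact h3
  have hmaps : ∀ x ∈ Bset F Lᶜ, (fun (j : {i // i ∈ L}) => x j.1)
      ∈ (univ : Finset ({i // i ∈ L} → Bool)) := fun x _ => mem_univ _
  rw [Finset.card_eq_sum_card_fiberwise hmaps]
  push_cast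
  calc ∑ b : ({i // i ∈ L} → Bool),
        (((Bset F Lᶜ).filter (fun x => (fun (j : {i // i ∈ L}) => x j.1) = b)).card : ℝ)
      ≤ ∑ _b : ({i // i ∈ L} → Bool), G := by
        apply Finset.sum_le_sum
        intro b _
        refine le_trans ?_ (hfib (fun i => if h : i ∈ L then b ⟨i, h⟩ else false))
        have : ((Bset F Lᶜ).filter (fun x => (fun (j : {i // i ∈ L}) => x j.1) = b))
            ⊆ fib F L (fun i => if h : i ∈ L then b ⟨i, h⟩ else false) := by
          intro x hx
          rw [mem_filter] at hx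
          rw [mem_fib]
          refine ⟨hx.1, fun i hi => ?_⟩
          rw [dif_pos hi, ← hx.2]
        exact_mod_cast Finset.card_le_card this
    _ = 2 ^ L.card * G := by
        rw [Finset.sum_const, Finset.card_univ, nsmul_eq_mul]
        simp

/-- the inequality behind the step -/
lemma step_ineq {k n : ℕ} {F : Finset (Fin n → Bool)} (hF : FF (k + 1) F) (a m : ℕ)
    (ham : a + m ≤ n) (h11 : 11 * m ≤ a) (ha : 1 ≤ a)
    {G : ℝ} (hG : ∀ F' : Finset (Fin (n - a) → Bool), FF k F' → (F'.card : ℝ) ≤ G) :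
    (F.card : ℝ) ≤ 2 * 2 ^ (n - (a + m)) + 4 ^ m * (2 ^ a * G) := by
  obtain ⟨L, _, hL⟩ := Finset.exists_subset_card_eq
    (s := (univ : Finset (Fin n))) (n := a + m) (by rw [card_univ, Fintype.card_fin]; exact ham)
  have h1 := sum_pc_ge' F L m (by omega) (by omega)
  have h2 : ∑ K ∈ L.powersetCard m, ((Bset F (L \ K)ᶜ).card : ℝ) = ∑ x ∈ F, (pc F L m x : ℝ) := by
    exact_mod_cast sum_Bset F L m
  have h3 : ∑ K ∈ L.powersetCard m, ((Bset F (L \ K)ᶜ).card : ℝ)
      ≤ (L.card.choose m : ℝ) * (2 ^ a * G) := by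
    rw [← card_powersetCard, ← nsmul_eq_mul, ← Finset.sum_const]
    apply Finset.sum_le_sum
    intro K hK
    rw [mem_powersetCard] at hK
    have hc : (L \ K).card = a := by rw [card_sdiff_of_subset hK.1, hK.2, hL]; omega
    have := Bset_le hF (L \ K) (G := G) (by rw [hc]; exact hG)
    rw [hc] at this
    exact this
  rw [← h2] at h1
  have h4 := h1.trans h3
  rw [Fintype.card_fin, hL] at h4
  have hch : (0 : ℝ) < ((a + m).choose m : ℝ) := by exact_mod_cast Nat.choose_pos (by omega)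
  have h5 : (1 / 4 : ℝ) ^ m * ((F.card : ℝ) - 2 * 2 ^ (n - (a + m))) ≤ 2 ^ a * G := by
    have : ((a + m).choose m : ℝ) * ((1 / 4 : ℝ) ^ m * ((F.card : ℝ) - 2 * 2 ^ (n - (a + m))))
        ≤ ((a + m).choose m : ℝ) * (2 ^ a * G) := by linarith
    exact le_of_mul_le_mul_left this hch
  have h6 : (4 : ℝ) ^ m * (1 / 4) ^ m = 1 := by rw [← mul_pow]; norm_num
  have h7 : (F.card : ℝ) - 2 * 2 ^ (n - (a + m)) ≤ 4 ^ m * (2 ^ a * G) := by
    calc (F.card : ℝ) - 2 * 2 ^ (n - (a + m))
        = 4 ^ m * ((1 / 4 : ℝ) ^ m * ((F.card : ℝ) - 2 * 2 ^ (n - (a + m)))) := by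
          rw [← mul_assoc, h6, one_mul]
      _ ≤ _ := mul_le_mul_of_nonneg_left h5 (by positivity)
  linarith

end Pool.Agent.Lib.MP_fa373d_co
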