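import Mathlib

/-!
Three-point counts in the union of two layers of the cube (`r = 3`).
-/

namespace Pool.Agent.Lib.MP_fa373d_co.Thr

open Finset

/-- `Y` is between `X` and `Z` -/
def Btw {α : Type*} [DecidableEq α] (Y X Z : Finset α) : Prop :=
  Disjoint (symmDiff Y X) (symmDiff Y Z)

instance {α : Type*} [DecidableEq α] (Y X Z : Finset α) : Decidable (Btw Y X Z) := by
  unfold Btw; infer_instance

/-- the number of triples with given sizes -/
def gcount (m a b c : ℕ) : ℕ :=
  ∑ p ∈ range (a + 1), if a ≤ b + p ∧ p ≤ c then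
    a.choose p * (m - a).choose (b + p - a) * (m - (b + 2 * p - a)).choose (c - p) else 0

variable {m : ℕ}

/-- the number of the `Z` with `Y` between `X` and `Z` -/
lemma inner_count (Y X : Finset (Fin m)) (c : ℕ) :
    ((powersetCard c univ).filter fun Z => Btw Y X Z).card ≤
      if (Y \ X).card ≤ c then
        (m - ((Y \ X).card + (X \ Y).card)).choose (c - (Y \ X).card) else 0 := by
  have hsub : ∀ Z, Btw Y X Z → Y \ X ⊆ Z := by
    intro Z h i hi
    by_contra hZ
    rw [mem_sdiff] at hi
    unfold Btw at h
    rw [Finset.disjoint_left] at h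
    refine h (a := i) ?_ ?_
    · rw [mem_symmDiff]; exact Or.inl hi
    · rw [mem_symmDiff]; exact Or.inl ⟨hi.1, hZ⟩
  have hdis : ∀ Z, Btw Y X Z → ∀ i ∈ X \ Y, i ∉ Z := by
    intro Z h i hi hZ
    rw [mem_sdiff] at hi
    unfold Btw at h
    rw [Finset.disjoint_left] at h
    refine h (a := i) ?_ ?_
    · rw [mem_symmDiff]; exact Or.inr hi
    · rw [mem_symmDiff]; exact Or.inr ⟨hZ, hi.2⟩
  split_ifs with hc
  · have h1 : (powersetCard (c - (Y \ X).card) (((Y \ X) ∪ (X \ Y))ᶜ)).card =
        (m - ((Y \ X).card + (X \ Y).card)).choose (c - (Y \ X).card) := by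
      rw [card_powersetCard, card_compl, Fintype.card_fin, card_union_of_disjoint]
      exact disjoint_sdiff_sdiff
    rw [← h1]
    apply Finset.card_le_card_of_injOn (fun Z => Z \ (Y \ X))
    · intro Z hZ
      rw [mem_coe, mem_filter, mem_powersetCard] at hZ
      rw [mem_coe, mem_powersetCard]
      refine ⟨fun i hi => ?_, ?_⟩
      · rw [mem_compl, mem_union, not_or]
        rw [mem_sdiff] at hi
        exact ⟨hi.2, fun h => hdis Z hZ.2 i h hi.1⟩
      · rw [card_sdiff_of_subset (hsub Z hZ.2), hZ.1.2]
    · intro Z hZ Z' hZ' h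
      rw [mem_coe, mem_filter, mem_powersetCard] at hZ hZ'
      have e1 := sdiff_union_of_subset (hsub Z hZ.2)
      have e2 := sdiff_union_of_subset (hsub Z' hZ'.2)
      rw [← e1, ← e2]
      simp only at h
      rw [h]
  · rw [Nat.le_zero, Finset.card_eq_zero, Finset.filter_eq_empty_iff]
    intro Z hZ hb
    rw [mem_powersetCard] at hZ
    apply hc
    rw [← hZ.2]
    exact card_le_card (hsub Z hb)

/-- the number of the pairs with `Y` between them -/
lemma pair_count (Y : Finset (Fin m)) (b c : ℕ) :
    (((powersetCard b univ) ×ˢ (powersetCard c univ)).filter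
      fun t : Finset (Fin m) × Finset (Fin m) => Btw Y t.1 t.2).card ≤ gcount m Y.card b c := by
  classical
  have h1 : (((powersetCard b univ) ×ˢ (powersetCard c univ)).filter
      fun t : Finset (Fin m) × Finset (Fin m) => Btw Y t.1 t.2).card =
      ∑ X ∈ powersetCard b (univ : Finset (Fin m)),
        ((powersetCard c univ).filter fun Z => Btw Y X Z).card := by
    rw [Finset.card_filter, Finset.sum_product]
    refine Finset.sum_congr rfl fun X _ => ?_
    rw [Finset.card_filter]
  rw [h1]
  have h2 : ∀ X ∈ powersetCard b (univ : Finset (Fin m)), (Y \ X).card ∈ range (Y.card + 1) := by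
    intro X _
    rw [mem_range]
    exact Nat.lt_succ_of_le (card_le_card sdiff_subset)
  rw [← Finset.sum_fiberwise_of_maps_to h2]
  unfold gcount
  refine Finset.sum_le_sum fun p hp => ?_
  have h3 : ∀ X ∈ (powersetCard b (univ : Finset (Fin m))).filter (fun X => (Y \ X).card = p),
      Y.card ≤ b + p ∧ (X \ Y).card = b + p - Y.card := by
    intro X hX
    rw [mem_filter, mem_powersetCard] at hX
    have e1 := Finset.card_sdiff_add_card_inter Y X
    have e2 := Finset.card_sdiff_add_card_inter X Y
    rw [Finset.inter_comm] at e2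
    rw [hX.2] at e1
    rw [hX.1.2] at e2
    omega
  have h4 : ((powersetCard b (univ : Finset (Fin m))).filter (fun X => (Y \ X).card = p)).card ≤
      Y.card.choose p * (m - Y.card).choose (b + p - Y.card) := by
    have e : (powersetCard p Y ×ˢ powersetCard (b + p - Y.card) Yᶜ).card =
        Y.card.choose p * (m - Y.card).choose (b + p - Y.card) := by
      rw [card_product, card_powersetCard, card_powersetCard, card_compl, Fintype.card_fin]
    rw [← e]
    apply Finset.card_le_card_of_injOn (fun X => (Y \ X, X \ Y))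
    · intro X hX
      have h5 := h3 X hX
      rw [mem_coe, mem_filter, mem_powersetCard] at hX
      rw [mem_coe, mem_product, mem_powersetCard, mem_powersetCard]
      refine ⟨⟨sdiff_subset, hX.2⟩, fun i hi => ?_, h5.2⟩
      rw [mem_compl]
      exact (mem_sdiff.1 hi).2
    · intro X _ X' _ h
      simp only [Prod.mk.injEq] at h
      have e1 : ∀ W : Finset (Fin m), W = (Y \ (Y \ W)) ∪ (W \ Y) := by
        intro W
        ext i
        simp only [mem_union, mem_sdiff, not_and, not_not]
        tauto
      rw [e1 X, e1 X', h.1, h.2]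
  by_cases hcond : Y.card ≤ b + p ∧ p ≤ c
  · rw [if_pos hcond]
    calc ∑ X ∈ (powersetCard b (univ : Finset (Fin m))).filter (fun X => (Y \ X).card = p),
          ((powersetCard c univ).filter fun Z => Btw Y X Z).card
        ≤ ∑ X ∈ (powersetCard b (univ : Finset (Fin m))).filter (fun X => (Y \ X).card = p),
          (m - (b + 2 * p - Y.card)).choose (c - p) := by
          refine Finset.sum_le_sum fun X hX => ?_
          have h5 := h3 X hX
          have h6 := (mem_filter.1 hX).2
          refine (inner_count Y X c).trans ?_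
          rw [h6, h5.2, if_pos hcond.2]
          have : p + (b + p - Y.card) = b + 2 * p - Y.card := by omega
          rw [this]
      _ = ((powersetCard b (univ : Finset (Fin m))).filter (fun X => (Y \ X).card = p)).card *
          (m - (b + 2 * p - Y.card)).choose (c - p) := by rw [sum_const, smul_eq_mul]
      _ ≤ _ := Nat.mul_le_mul_right _ h4
  · rw [if_neg hcond]
    apply le_of_eq
    refine Finset.sum_eq_zero fun X hX => ?_
    have h5 := h3 X hX
    have h6 := (mem_filter.1 hX).2
    have h7 := inner_count Y X c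
    rw [h6, if_neg (fun h => hcond ⟨h5.1, h⟩)] at h7
    exact Nat.le_zero.1 h7

/-- the union of the layers `14` and `21` of `{0,1}^36` -/
def LA : Finset (Finset (Fin 36)) := powersetCard 14 univ ∪ powersetCard 21 univ

lemma card_LA : LA.card = 9364199760 := by
  unfold LA
  rw [card_union_of_disjoint, card_powersetCard, card_powersetCard, card_univ, Fintype.card_fin]
  · norm_num [Nat.choose]
  · rw [Finset.disjoint_left]
    intro X h1 h2
    rw [mem_powersetCard] at h1 h2
    omega

set_option linter.constructorNameAsVariable false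

lemma g1 : gcount 36 14 14 14 = 608117957519649 := by
  unfold gcount
  simp [Finset.sum_range_succ, Nat.choose]

lemma g2 : gcount 36 14 14 21 = 1069651111978592 := by
  unfold gcount
  simp [Finset.sum_range_succ, Nat.choose]

lemma g3 : gcount 36 14 21 14 = 1069651111978592 := by
  unfold gcount
  simp [Finset.sum_range_succ, Nat.choose]

lemma g4 : gcount 36 14 21 21 = 26345067687796 := by
  unfold gcount
  simp [Finset.sum_range_succ, Nat.choose]

lemma g5 : gcount 36 21 14 14 = 4955185145040 := by
  unfold gcount
  simp [Finset.sum_range_succ, Nat.choose]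

lemma g6 : gcount 36 21 14 21 = 729307576349040 := by
  unfold gcount
  simp [Finset.sum_range_succ, Nat.choose]

lemma g7 : gcount 36 21 21 14 = 729307576349040 := by
  unfold gcount
  simp [Finset.sum_range_succ, Nat.choose]

lemma g8 : gcount 36 21 21 21 = 1288805028778753 := by
  unfold gcount
  simp [Finset.sum_range_succ, Nat.choose]

/-- the triples of `LA` with `Y` between `X` and `Z` -/
lemma card_triples : ((LA ×ˢ (LA ×ˢ LA)).filter
    fun t : Finset (Fin 36) × Finset (Fin 36) × Finset (Fin 36) => Btw t.1 t.2.1 t.2.2).card ≤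
      25854995098755848640433680 := by
  classical
  have h1 : ∀ a b c : ℕ, ((powersetCard a univ ×ˢ (powersetCard b univ ×ˢ powersetCard c univ)).filter
      fun t : Finset (Fin 36) × Finset (Fin 36) × Finset (Fin 36) => Btw t.1 t.2.1 t.2.2).card ≤
        (36 : ℕ).choose a * gcount 36 a b c := by
    intro a b c
    rw [Finset.card_filter, Finset.sum_product]
    calc ∑ Y ∈ powersetCard a (univ : Finset (Fin 36)), ∑ t ∈ powersetCard b univ ×ˢ
          powersetCard c (univ : Finset (Fin 36)), (if Btw Y t.1 t.2 then 1 else 0)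
        ≤ ∑ Y ∈ powersetCard a (univ : Finset (Fin 36)), gcount 36 a b c := by
          refine Finset.sum_le_sum fun Y hY => ?_
          rw [← Finset.card_filter]
          have := pair_count Y b c
          rw [(mem_powersetCard.1 hY).2] at this
          exact this
      _ = _ := by rw [sum_const, smul_eq_mul, card_powersetCard, card_univ, Fintype.card_fin]
  have h2 : (LA ×ˢ (LA ×ˢ LA)).filter
      (fun t : Finset (Fin 36) × Finset (Fin 36) × Finset (Fin 36) => Btw t.1 t.2.1 t.2.2) ⊆
      ({14, 21} ×ˢ ({14, 21} ×ˢ {14, 21}) : Finset (ℕ × ℕ × ℕ)).biUnion fun u =>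
        (powersetCard u.1 univ ×ˢ (powersetCard u.2.1 univ ×ˢ powersetCard u.2.2 univ)).filter
          fun t : Finset (Fin 36) × Finset (Fin 36) × Finset (Fin 36) => Btw t.1 t.2.1 t.2.2 := by
    intro t ht
    rw [mem_filter, mem_product, mem_product] at ht
    have h3 : ∀ X ∈ LA, X.card ∈ ({14, 21} : Finset ℕ) := by
      intro X hX
      unfold LA at hX
      rw [mem_union, mem_powersetCard, mem_powersetCard] at hX
      rw [mem_insert, mem_singleton]
      rcases hX with h | h
      · exact Or.inl h.2
      · exact Or.inr h.2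
    rw [mem_biUnion]
    refine ⟨(t.1.card, t.2.1.card, t.2.2.card), ?_, ?_⟩
    · rw [mem_product, mem_product]
      exact ⟨h3 _ ht.1.1, h3 _ ht.1.2.1, h3 _ ht.1.2.2⟩
    · rw [mem_filter, mem_product, mem_product, mem_powersetCard, mem_powersetCard,
        mem_powersetCard]
      exact ⟨⟨⟨subset_univ _, rfl⟩, ⟨subset_univ _, rfl⟩, ⟨subset_univ _, rfl⟩⟩, ht.2⟩
  refine (Finset.card_le_card h2).trans (Finset.card_biUnion_le.trans ?_)
  refine (Finset.sum_le_sum fun u _ => h1 u.1 u.2.1 u.2.2).trans ?_
  have h4 : ∑ u ∈ ({14, 21} ×ˢ ({14, 21} ×ˢ {14, 21}) : Finset (ℕ × ℕ × ℕ)),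
      (36 : ℕ).choose u.1 * gcount 36 u.1 u.2.1 u.2.2 = 25854995098755848640433680 := by
    rw [Finset.sum_product]
    simp only [Finset.sum_product]
    rw [Finset.sum_pair (by norm_num)]
    simp only [Finset.sum_pair (show (14 : ℕ) ≠ 21 by norm_num)]
    rw [g1, g2, g3, g4, g5, g6, g7, g8]
    norm_num [Nat.choose]
  exact h4.le

end Pool.Agent.Lib.MP_fa373d_co.Thr
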