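import Mathlib

/-!
A set without bad triples (deletion method).
-/

namespace Pool.Agent.Lib.MP_fa373d_co.Thr

open Finset

variable {Ω : Type} [Fintype Ω] [DecidableEq Ω]

/-- the number of functions with three given values -/
lemma card_three {s : ℕ} (i j l : Fin s) (hij : i ≠ j) (hil : i ≠ l) (hjl : j ≠ l) (a b c : Ω) :
    (univ.filter fun f : Fin s → Ω => f i = a ∧ f j = b ∧ f l = c).card *
      Fintype.card Ω ^ 3 = Fintype.card Ω ^ s := by
  classical
  set t : Fin s → Finset Ω := fun q =>
    if q = i then {a} else if q = j then {b} else if q = l then {c} else univ with ht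
  have h1 : (univ.filter fun f : Fin s → Ω => f i = a ∧ f j = b ∧ f l = c) =
      Fintype.piFinset t := by
    ext f
    rw [mem_filter, Fintype.mem_piFinset]
    constructor
    · rintro ⟨_, h1, h2, h3⟩ q
      rw [ht]
      simp only
      split_ifs with g1 g2 g3
      · rw [mem_singleton, g1, h1]
      · rw [mem_singleton, g2, h2]
      · rw [mem_singleton, g3, h3]
      · exact mem_univ _
    · intro h
      refine ⟨mem_univ _, ?_, ?_, ?_⟩
      · have := h i
        rw [ht] at this
        simpa using this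
      · have := h j
        rw [ht] at this
        simp only [if_neg hij.symm, if_true] at this
        exact mem_singleton.1 this
      · have := h l
        rw [ht] at this
        simp only [if_neg hil.symm, if_neg hjl.symm, if_true] at this
        exact mem_singleton.1 this
  rw [h1, Fintype.card_piFinset]
  have h2 : ∀ q : Fin s, (t q).card = if q ∈ ({i, j, l} : Finset (Fin s)) then 1
      else Fintype.card Ω := by
    intro q
    rw [ht]
    simp only [mem_insert, mem_singleton]
    by_cases g1 : q = i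
    · simp [g1]
    · by_cases g2 : q = j
      · simp [g2, hij.symm]
      · by_cases g3 : q = l
        · simp [g3, hil.symm, hjl.symm]
        · simp [g1, g2, g3, card_univ]
  rw [Finset.prod_congr rfl fun q _ => h2 q, Finset.prod_ite, Finset.prod_const_one, one_mul,
    Finset.prod_const, ← pow_add]
  congr 1
  have h3 : (univ.filter fun q : Fin s => ¬ q ∈ ({i, j, l} : Finset (Fin s))) =
      ({i, j, l} : Finset (Fin s))ᶜ := by
    ext q
    simp
  rw [h3, card_compl, Fintype.card_fin]
  have h4 : ({i, j, l} : Finset (Fin s)).card = 3 := by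
    rw [Finset.card_eq_three]
    exact ⟨i, j, l, hij, hil, hjl, rfl⟩
  rw [h4]
  have h5 := Finset.card_le_univ ({i, j, l} : Finset (Fin s))
  rw [h4, Fintype.card_fin] at h5
  omega

/-- the deletion method -/
lemma exists_free (Bad : Ω → Ω → Ω → Prop) [∀ y x z, Decidable (Bad y x z)]
    (hdeg : ∀ y z, Bad y y z) {T s : ℕ}
    (hT : (univ.filter fun t : Ω × Ω × Ω => Bad t.1 t.2.1 t.2.2).card ≤ T) (hs : 6 ≤ s)
    (hN : 2 * s ^ 2 * T ≤ Fintype.card Ω ^ 3) (hpos : 0 < Fintype.card Ω) :
    ∃ F : Finset Ω, s ≤ 2 * F.card ∧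
      ∀ y ∈ F, ∀ x ∈ F, ∀ z ∈ F, y ≠ x → y ≠ z → x ≠ z → ¬ Bad y x z := by
  classical
  set N := Fintype.card Ω with hNdef
  set D : Finset (Fin s × Fin s × Fin s) :=
    univ.filter fun t => t.1 ≠ t.2.1 ∧ t.1 ≠ t.2.2 ∧ t.2.1 ≠ t.2.2 with hD
  set B : (Fin s → Ω) → Finset (Fin s × Fin s × Fin s) :=
    fun f => D.filter fun t => Bad (f t.1) (f t.2.1) (f t.2.2) with hB
  have key : ∃ f : Fin s → Ω, 2 * (B f).card ≤ s := by
    by_contra hcon
    push Not at hcon
    have h1 : ∑ f : Fin s → Ω, (B f).card * N ^ 3 ≤ s ^ 3 * T * N ^ s := by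
      have e1 : ∀ f : Fin s → Ω, (B f).card * N ^ 3 =
          ∑ t ∈ D, (if Bad (f t.1) (f t.2.1) (f t.2.2) then N ^ 3 else 0) := by
        intro f
        rw [hB]
        simp only
        rw [Finset.card_filter, Finset.sum_mul]
        refine Finset.sum_congr rfl fun t _ => ?_
        split_ifs <;> simp
      simp only [e1]
      rw [Finset.sum_comm]
      have e2 : ∀ t ∈ D, ∑ f : Fin s → Ω,
          (if Bad (f t.1) (f t.2.1) (f t.2.2) then N ^ 3 else 0) ≤ T * N ^ s := by
        intro t ht
        rw [hD, mem_filter] at ht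
        obtain ⟨_, g1, g2, g3⟩ := ht
        set BB : Finset (Ω × Ω × Ω) := univ.filter fun t : Ω × Ω × Ω => Bad t.1 t.2.1 t.2.2
          with hBB
        have e3 : ∑ f : Fin s → Ω, (if Bad (f t.1) (f t.2.1) (f t.2.2) then N ^ 3 else 0) =
            (univ.filter fun f : Fin s → Ω => Bad (f t.1) (f t.2.1) (f t.2.2)).card * N ^ 3 := by
          rw [Finset.card_filter, Finset.sum_mul]
          refine Finset.sum_congr rfl fun f _ => ?_
          split_ifs <;> simp
        rw [e3]
        have e4 : (univ.filter fun f : Fin s → Ω => Bad (f t.1) (f t.2.1) (f t.2.2)) =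
            BB.biUnion fun u => univ.filter fun f : Fin s → Ω =>
              f t.1 = u.1 ∧ f t.2.1 = u.2.1 ∧ f t.2.2 = u.2.2 := by
          ext f
          rw [mem_filter, mem_biUnion]
          constructor
          · rintro ⟨_, h⟩
            refine ⟨(f t.1, f t.2.1, f t.2.2), ?_, ?_⟩
            · rw [hBB, mem_filter]
              exact ⟨mem_univ _, h⟩
            · rw [mem_filter]
              exact ⟨mem_univ _, rfl, rfl, rfl⟩
          · rintro ⟨u, hu, hf⟩
            rw [mem_filter] at hf
            rw [hBB, mem_filter] at hu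
            refine ⟨mem_univ _, ?_⟩
            rw [hf.2.1, hf.2.2.1, hf.2.2.2]
            exact hu.2
        rw [e4]
        calc (BB.biUnion fun u => univ.filter fun f : Fin s → Ω =>
              f t.1 = u.1 ∧ f t.2.1 = u.2.1 ∧ f t.2.2 = u.2.2).card * N ^ 3
            ≤ (∑ u ∈ BB, (univ.filter fun f : Fin s → Ω =>
              f t.1 = u.1 ∧ f t.2.1 = u.2.1 ∧ f t.2.2 = u.2.2).card) * N ^ 3 :=
              Nat.mul_le_mul_right _ Finset.card_biUnion_le
          _ = ∑ u ∈ BB, N ^ s := by
              rw [Finset.sum_mul]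
              refine Finset.sum_congr rfl fun u _ => ?_
              exact card_three t.1 t.2.1 t.2.2 g1 g2 g3 u.1 u.2.1 u.2.2
          _ = BB.card * N ^ s := by rw [sum_const, smul_eq_mul]
          _ ≤ T * N ^ s := Nat.mul_le_mul_right _ hT
      calc ∑ t ∈ D, ∑ f : Fin s → Ω, (if Bad (f t.1) (f t.2.1) (f t.2.2) then N ^ 3 else 0)
          ≤ ∑ t ∈ D, T * N ^ s := Finset.sum_le_sum e2
        _ = D.card * (T * N ^ s) := by rw [sum_const, smul_eq_mul]
        _ ≤ s ^ 3 * (T * N ^ s) := by
            apply Nat.mul_le_mul_right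
            refine (Finset.card_le_univ D).trans (le_of_eq ?_)
            rw [Fintype.card_prod, Fintype.card_prod, Fintype.card_fin]
            ring
        _ = _ := by ring
    have h2 : ∑ f : Fin s → Ω, (s + 1) * N ^ 3 ≤ ∑ f : Fin s → Ω, 2 * ((B f).card * N ^ 3) := by
      refine Finset.sum_le_sum fun f _ => ?_
      have := hcon f
      calc (s + 1) * N ^ 3 ≤ (2 * (B f).card) * N ^ 3 := Nat.mul_le_mul_right _ this
        _ = _ := by ring
    have h2' : N ^ s * ((s + 1) * N ^ 3) ≤ 2 * ∑ f : Fin s → Ω, (B f).card * N ^ 3 := by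
      calc N ^ s * ((s + 1) * N ^ 3) = ∑ f : Fin s → Ω, (s + 1) * N ^ 3 := by
            rw [sum_const, card_univ, Fintype.card_fun, Fintype.card_fin, smul_eq_mul]
        _ ≤ ∑ f : Fin s → Ω, 2 * ((B f).card * N ^ 3) := h2
        _ = _ := by rw [Finset.mul_sum]
    have h3 : N ^ s * ((s + 1) * N ^ 3) ≤ N ^ s * (s * N ^ 3) := by
      calc N ^ s * ((s + 1) * N ^ 3) ≤ 2 * (s ^ 3 * T * N ^ s) :=
            h2'.trans (Nat.mul_le_mul_left _ h1)
        _ = N ^ s * (s * (2 * s ^ 2 * T)) := by ring
        _ ≤ N ^ s * (s * N ^ 3) := by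
            apply Nat.mul_le_mul_left
            exact Nat.mul_le_mul_left _ hN
    have h4 := Nat.le_of_mul_le_mul_left h3 (pow_pos hpos s)
    have h5 := Nat.le_of_mul_le_mul_right h4 (pow_pos hpos 3)
    omega
  obtain ⟨f, hf⟩ := key
  set I : Finset (Fin s) := ((B f).image fun t => t.1)ᶜ with hI
  have hIc : s ≤ 2 * I.card := by
    rw [hI, card_compl, Fintype.card_fin]
    have := Finset.card_image_le (s := B f) (f := fun t => t.1)
    omega
  have hno : ∀ i ∈ I, ∀ j ∈ I, ∀ l ∈ I, i ≠ j → i ≠ l → j ≠ l → ¬ Bad (f i) (f j) (f l) := by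
    intro i hi j _ l _ h1 h2 h3 hb
    rw [hI, mem_compl] at hi
    apply hi
    rw [mem_image]
    refine ⟨(i, j, l), ?_, rfl⟩
    rw [hB]
    simp only
    rw [mem_filter, hD, mem_filter]
    exact ⟨⟨mem_univ _, h1, h2, h3⟩, hb⟩
  have hinj : Set.InjOn f I := by
    intro i hi j hj hij
    by_contra hne
    have h3 : 2 < I.card := by omega
    obtain ⟨l, hl, hl'⟩ : ∃ l ∈ I, l ∉ ({i, j} : Finset (Fin s)) := by
      by_contra hcon
      push Not at hcon
      have h6 := Finset.card_le_card (show I ⊆ {i, j} from fun l hl => hcon l hl)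
      have h7 : ({i, j} : Finset (Fin s)).card ≤ 2 := Finset.card_le_two
      omega
    rw [mem_insert, mem_singleton, not_or] at hl'
    refine hno i hi j hj l hl hne (fun h => hl'.1 h.symm) (fun h => hl'.2 h.symm) ?_
    rw [hij]
    exact hdeg _ _
  refine ⟨I.image f, ?_, ?_⟩
  · rw [Finset.card_image_of_injOn hinj]
    exact hIc
  · intro y hy x hx z hz h1 h2 h3
    rw [mem_image] at hy hx hz
    obtain ⟨i, hi, rfl⟩ := hy
    obtain ⟨j, hj, rfl⟩ := hx
    obtain ⟨l, hl, rfl⟩ := hz
    exact hno i hi j hj l hl (fun h => h1 (by rw [h])) (fun h => h2 (by rw [h]))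
      (fun h => h3 (by rw [h]))

end Pool.Agent.Lib.MP_fa373d_co.Thr
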