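import Pool.Agent.Lib.MP_fa373d_co.LowE
import Pool.Agent.Lib.MP_fa373d_co.ThrA
import Pool.Agent.Lib.MP_fa373d_co.ThrB

/-!
The lower bound for `r = 3`.
-/

namespace Pool.Agent.Lib.MP_fa373d_co.Thr

open Finset Exp

/-- words over the alphabet `LA` -/
abbrev Wd (k : ℕ) : Type := Fin k → {X : Finset (Fin 36) // X ∈ LA}

/-- every letter of `y` is between the letters of `x` and `z` -/
def Bad {k : ℕ} (y x z : Wd k) : Prop := ∀ a, Btw (y a).1 (x a).1 (z a).1

instance {k : ℕ} (y x z : Wd k) : Decidable (Bad y x z) := by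
  unfold Bad; infer_instance

lemma card_Wd (k : ℕ) : Fintype.card (Wd k) = 9364199760 ^ k := by
  rw [Fintype.card_fun, Fintype.card_coe, card_LA, Fintype.card_fin]

lemma card_bad (k : ℕ) :
    (univ.filter fun t : Wd k × Wd k × Wd k => Bad t.1 t.2.1 t.2.2).card ≤
      25854995098755848640433680 ^ k := by
  classical
  set B := (LA ×ˢ (LA ×ˢ LA)).filter
    (fun t : Finset (Fin 36) × Finset (Fin 36) × Finset (Fin 36) => Btw t.1 t.2.1 t.2.2) with hB
  have h1 : (Fintype.piFinset fun _ : Fin k => B).card = B.card ^ k := by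
    rw [Fintype.card_piFinset, prod_const, card_univ, Fintype.card_fin]
  refine le_trans ?_ (Nat.pow_le_pow_left card_triples k)
  rw [← hB, ← h1]
  apply Finset.card_le_card_of_injOn (fun t a => ((t.1 a).1, (t.2.1 a).1, (t.2.2 a).1))
  · intro t ht
    rw [mem_coe, mem_filter] at ht
    rw [mem_coe, Fintype.mem_piFinset]
    intro a
    rw [hB, mem_filter, mem_product, mem_product]
    exact ⟨⟨(t.1 a).2, (t.2.1 a).2, (t.2.2 a).2⟩, ht.2 a⟩
  · intro t _ t' _ h
    have h2 : ∀ a, t.1 a = t'.1 a ∧ t.2.1 a = t'.2.1 a ∧ t.2.2 a = t'.2.2 a := by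
      intro a
      have := congrFun h a
      simp only [Prod.mk.injEq] at this
      exact ⟨Subtype.ext this.1, Subtype.ext this.2.1, Subtype.ext this.2.2⟩
    refine Prod.ext (funext fun a => (h2 a).1) (Prod.ext (funext fun a => (h2 a).2.1)
      (funext fun a => (h2 a).2.2))

/-- the binary vector of a word -/
def enc (n k : ℕ) (w : Wd k) : Fin n → Bool := fun i =>
  if h : i.val / 36 < k then
    decide ((⟨i.val % 36, Nat.mod_lt _ (by norm_num)⟩ : Fin 36) ∈ (w ⟨i.val / 36, h⟩).1)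
  else false

lemma enc_at {n k : ℕ} (hn : 36 * k ≤ n) (w : Wd k) (a : Fin k) (j : Fin 36) :
    enc n k w ⟨36 * a.val + j.val, by have := a.2; have := j.2; nlinarith⟩ =
      decide (j ∈ (w a).1) := by
  have h1 : (36 * a.val + j.val) / 36 = a.val := by
    have := j.2
    omega
  have h2 : (36 * a.val + j.val) % 36 = j.val := by
    have := j.2
    omega
  unfold enc
  simp only [h1, h2, a.2, dif_pos]

lemma exists_code (n k s : ℕ) (hn : 36 * k ≤ n) (hs : 6 ≤ s)
    (h : 2 * s ^ 2 * 25854995098755848640433680 ^ k ≤ (9364199760 ^ k) ^ 3) :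
    s ≤ 2 * gff 3 n := by
  classical
  obtain ⟨F, hF1, hF2⟩ := exists_free (Ω := Wd k) Bad
    (fun y z a => by
      unfold Btw
      rw [symmDiff_self]
      exact disjoint_bot_left) (card_bad k) hs (by rw [card_Wd]; exact h)
    (by rw [card_Wd]; positivity)
  have hinj : Function.Injective (enc n k) := by
    intro w w' hw
    funext a
    apply Subtype.ext
    ext j
    have h1 := enc_at hn w a j
    have h2 := enc_at hn w' a j
    rw [hw, h2] at h1
    exact (decide_eq_decide.1 h1).symm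
  have hFF : FF 2 (F.image (enc n k)) := by
    intro x hx Y hY hxY hc hall
    rw [Finset.card_eq_two] at hc
    obtain ⟨y, z, hyz, rfl⟩ := hc
    have hy : y ∈ F.image (enc n k) := hY (by simp)
    have hz : z ∈ F.image (enc n k) := hY (by simp)
    rw [mem_image] at hx hy hz
    obtain ⟨u, hu, rfl⟩ := hx
    obtain ⟨v, hv, rfl⟩ := hy
    obtain ⟨w, hw, rfl⟩ := hz
    rw [mem_insert, mem_singleton, not_or] at hxY
    have h1 := hF2 u hu v hv w hw (fun h => hxY.1 (by rw [h])) (fun h => hxY.2 (by rw [h]))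
      (fun h => hyz (by rw [h]))
    apply h1
    intro a
    unfold Btw
    rw [Finset.disjoint_left]
    intro j hj1 hj2
    have h2 := hall _ (by simp) _ (by simp) hyz ⟨36 * a.val + j.val, by
      have := a.2; have := j.2; nlinarith⟩
    rw [enc_at hn, enc_at hn, enc_at hn] at h2
    rw [mem_symmDiff] at hj1 hj2
    rcases h2 with h2 | h2
    · rw [decide_eq_decide] at h2
      tauto
    · rw [decide_eq_decide] at h2
      tauto
  have h3 : (F.image (enc n k)).card ≤ gff 3 n :=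
    (gff_isGreatest 3 n (by norm_num)).2 ⟨_, Low.focalFree_of_FF hFF, rfl⟩
  rw [Finset.card_image_of_injective _ hinj] at h3
  omega

set_option exponentiation.threshold 400 in
lemma num_ineq : (2 : ℝ) ^ (329 / 22 : ℝ) * 25854995098755848640433680 ≤ 9364199760 ^ 3 := by
  have h1 : ((2 : ℝ) ^ (329 / 22 : ℝ) * 25854995098755848640433680) ^ 22 ≤
      ((9364199760 : ℝ) ^ 3) ^ 22 := by
    rw [mul_pow, ← Real.rpow_natCast ((2 : ℝ) ^ (329 / 22 : ℝ)) 22, ← Real.rpow_mul (by norm_num)]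
    have : (329 / 22 : ℝ) * ((22 : ℕ) : ℝ) = ((329 : ℕ) : ℝ) := by norm_num
    rw [this, Real.rpow_natCast]
    norm_num
  exact le_of_pow_le_pow_left₀ (by norm_num) (by positivity) h1

/-- the lower bound -/
theorem gff_three : ∃ c : ℝ, 0 < c ∧ ∀ n : ℕ, c * 2 ^ ((329 / 1584 : ℝ) * n) ≤ gff 3 n := by
  refine ⟨2 ^ (-(329 / 44 : ℝ)) / 8, by positivity, fun n => ?_⟩
  set k := n / 36 with hk
  have hn1 : 36 * k ≤ n := Nat.mul_div_le n 36
  have hn2 : n < 36 * (k + 1) := by omega
  have h1 : (2 : ℝ) ^ ((329 / 1584 : ℝ) * n) ≤ 2 ^ ((329 / 44 : ℝ) * (k + 1)) := by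
    apply Real.rpow_le_rpow_of_exponent_le (by norm_num)
    have : (n : ℝ) ≤ 36 * (k + 1) := by exact_mod_cast hn2.le
    linarith
  have h2 : (2 : ℝ) ^ (-(329 / 44 : ℝ)) / 8 * 2 ^ ((329 / 1584 : ℝ) * n) ≤
      2 ^ ((329 / 44 : ℝ) * k) / 8 := by
    calc (2 : ℝ) ^ (-(329 / 44 : ℝ)) / 8 * 2 ^ ((329 / 1584 : ℝ) * n)
        ≤ 2 ^ (-(329 / 44 : ℝ)) / 8 * 2 ^ ((329 / 44 : ℝ) * (k + 1)) :=
          mul_le_mul_of_nonneg_left h1 (by positivity)
      _ = 2 ^ ((329 / 44 : ℝ) * k) / 8 := by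
          rw [div_mul_eq_mul_div, ← Real.rpow_add (by norm_num)]
          congr 2
          ring
  refine h2.trans ?_
  rcases Nat.eq_zero_or_pos k with h0 | hpos
  · rw [h0, Nat.cast_zero, mul_zero, Real.rpow_zero]
    have h3 : (1 : ℝ) ≤ gff 3 n := by exact_mod_cast one_le_gff (by norm_num) n
    linarith
  · set A : ℝ := 2 ^ ((329 / 44 : ℝ) * k) with hA
    have hA128 : (128 : ℝ) ≤ A := by
      have : (128 : ℝ) = 2 ^ ((7 : ℕ) : ℝ) := by rw [Real.rpow_natCast]; norm_num
      rw [this, hA]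
      apply Real.rpow_le_rpow_of_exponent_le (by norm_num)
      have : (1 : ℝ) ≤ k := by exact_mod_cast hpos
      push_cast
      linarith
    set s := ⌊A / 2⌋₊ with hs
    have hs1 : (s : ℝ) ≤ A / 2 := Nat.floor_le (by positivity)
    have hs2 : A / 2 < s + 1 := Nat.lt_floor_add_one _
    have hs6 : 6 ≤ s := by
      have : (6 : ℝ) ≤ s := by linarith
      exact_mod_cast this
    have h3 : 2 * s ^ 2 * 25854995098755848640433680 ^ k ≤ (9364199760 ^ k) ^ 3 := by
      have h4 : (2 : ℝ) * s ^ 2 * 25854995098755848640433680 ^ k ≤ (9364199760 ^ k) ^ 3 := by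
        have h5 : (2 : ℝ) * (s : ℝ) ^ 2 ≤ A ^ 2 := by
          have : (s : ℝ) ^ 2 ≤ (A / 2) ^ 2 := pow_le_pow_left₀ (by positivity) hs1 2
          nlinarith [sq_nonneg A]
        have h6 : A ^ 2 = ((2 : ℝ) ^ (329 / 22 : ℝ)) ^ k := by
          rw [hA, ← Real.rpow_natCast _ 2, ← Real.rpow_mul (by norm_num),
            ← Real.rpow_natCast ((2 : ℝ) ^ (329 / 22 : ℝ)) k, ← Real.rpow_mul (by norm_num)]
          congr 1
          push_cast
          ring
        calc (2 : ℝ) * s ^ 2 * 25854995098755848640433680 ^ k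
            ≤ A ^ 2 * 25854995098755848640433680 ^ k :=
              mul_le_mul_of_nonneg_right h5 (by positivity)
          _ = ((2 : ℝ) ^ (329 / 22 : ℝ) * 25854995098755848640433680) ^ k := by
              rw [h6, mul_pow]
          _ ≤ (9364199760 ^ 3) ^ k := pow_le_pow_left₀ (by positivity) num_ineq k
          _ = (9364199760 ^ k) ^ 3 := by rw [← pow_mul, ← pow_mul, mul_comm]
      exact_mod_cast h4
    have h4 := exists_code n k s hn1 hs6 h3
    have h5 : (s : ℝ) ≤ 2 * gff 3 n := by exact_mod_cast h4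
    linarith



/-- the growth rate for `r = 3` -/
theorem sigma_three : (329 / 1584 : ℝ) ≤ sigmaMinus 3 :=
  Low.le_sigmaMinus (by norm_num) gff_three

/-- the random coding bound for `r = 3` is smaller -/
theorem random_lt : 1 - Real.logb 2 3 / 2 < 0.20755 := by
  have h1 : (84 / 53 : ℝ) < Real.logb 2 3 := by
    rw [Real.lt_logb_iff_rpow_lt (by norm_num) (by norm_num)]
    have h2 : ((2 : ℝ) ^ (84 / 53 : ℝ)) ^ (53 : ℕ) < (3 : ℝ) ^ (53 : ℕ) := by
      rw [← Real.rpow_natCast, ← Real.rpow_mul (by norm_num)]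
      have : (84 / 53 : ℝ) * ((53 : ℕ) : ℝ) = ((84 : ℕ) : ℝ) := by norm_num
      rw [this, Real.rpow_natCast]
      norm_num
    exact lt_of_pow_lt_pow_left₀ 53 (by norm_num) h2
  linarith

end Pool.Agent.Lib.MP_fa373d_co.Thr
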